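import Mathlib

/-!
Weighted norms, Euclidean functions and Euclidean windows in rings of integers of number fields.
-/

set_option autoImplicit false

namespace Pool.Agent.H400Z.Win

open NumberField

open Classical in
/-- The multiplicative function `φ` on nonzero ideals of the ring of integers with `φ(p) = c` and
`φ(q) = N q` for the primes `q ≠ p`: the product of these values over the prime factors of `I`,
counted with multiplicity. -/
noncomputable def phi {K : Type} [Field K] [NumberField K] (p : Ideal (𝓞 K)) (c : ℝ)
    (I : Ideal (𝓞 K)) : ℝ :=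
  ((UniqueFactorizationMonoid.normalizedFactors I).map
    (fun q => if q = p then c else (Ideal.absNorm q : ℝ))).prod

open Classical in
/-- The weighted norm `f_{p,c}` on the ring of integers. -/
noncomputable def wnorm {K : Type} [Field K] [NumberField K] (p : Ideal (𝓞 K)) (c : ℝ)
    (a : 𝓞 K) : ℝ :=
  if a = 0 then 0 else phi p c (Ideal.span {a})

/-- `f` is a Euclidean function on the ring `R`. -/
def IsEuclideanFunction {R : Type} [CommRing R] (f : R → ℝ) : Prop :=
  (∀ r, 0 ≤ f r) ∧
  (∀ t : ℝ, 0 ≤ t → (Set.range f ∩ Set.Icc 0 t).Finite) ∧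
  (∀ r, f r = 0 ↔ r = 0) ∧
  (∀ a b : R, b ≠ 0 → ∃ q : R, f (a - b * q) < f b)

/-- The Euclidean window of `p`. -/
def window {K : Type} [Field K] [NumberField K] (p : Ideal (𝓞 K)) : Set ℝ :=
  {c | 0 < c ∧ IsEuclideanFunction (wnorm p c)}

end Pool.Agent.H400Z.Win
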