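import Mathlib
import Pool.Agent.H400Z.Win.Defs

set_option autoImplicit false

namespace Pool.Agent.H400Z.Win

open NumberField UniqueFactorizationMonoid

variable {K : Type} [Field K] [NumberField K]

theorem irr14 (r : ℚ) : r ^ 2 ≠ 14 := by
  intro h
  have h1 : IsSquare (14 : ℚ) := ⟨r, by rw [← h]; ring⟩
  have h2 : IsSquare (14 : ℕ) := by exact_mod_cast h1
  revert h2; decide +kernel

theorem li_theta {θ : K} (hθ : θ ^ 2 = 14) : LinearIndependent ℚ ![(1 : K), θ] := by
  rw [LinearIndependent.pair_iff]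
  intro s t h
  by_cases ht : t = 0
  · subst ht; simpa using h
  · exfalso
    have h1 : θ = algebraMap ℚ K (-s / t) := by
      have ht' : (t : K) ≠ 0 := by exact_mod_cast ht
      simp only [Algebra.smul_def, mul_one, eq_ratCast] at h
      simp only [eq_ratCast]
      push_cast
      field_simp
      linear_combination h
    apply irr14 (-s / t)
    apply (algebraMap ℚ K).injective
    rw [map_pow, ← h1, hθ]; simp

theorem exists_coords (hK : Module.finrank ℚ K = 2) {θ : 𝓞 K} (hθ : θ ^ 2 = 14) (x : 𝓞 K) :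
    ∃ a b : ℤ, x = a + b * θ := by
  set φ := algebraMap (𝓞 K) K with hφ
  obtain ⟨T, hT⟩ : ∃ T : K, T = φ θ := ⟨_, rfl⟩
  have hθ' : T ^ 2 = 14 := by
    have := congrArg φ hθ
    rw [map_pow, map_ofNat] at this
    rw [hT]; exact this
  let bs : Module.Basis (Fin 2) ℚ K :=
    basisOfLinearIndependentOfCardEqFinrank (li_theta hθ') (by simp [hK])
  have b0 : bs 0 = 1 := by simp [bs]
  have b1 : bs 1 = T := by simp [bs]
  have htr1 : Algebra.trace ℚ K 1 = 2 := by
    have := Algebra.trace_algebraMap (R := ℚ) (S := K) 1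
    rw [map_one, hK] at this
    simpa using this
  have htrθ : Algebra.trace ℚ K T = 0 := by
    rw [Algebra.trace_eq_matrix_trace bs, Matrix.trace_fin_two]
    simp only [Algebra.leftMulMatrix_eq_repr_mul]
    have e0 : T * bs 0 = bs 1 := by rw [b0, b1, mul_one]
    have e1 : T * bs 1 = (14 : ℚ) • bs 0 := by
      rw [b0, b1, ← sq, hθ']; simp [Algebra.smul_def]
    rw [e0, e1]; simp
  have htr : ∀ r s : ℚ, Algebra.trace ℚ K ((r : K) + (s : K) * T) = 2 * r := by
    intro r s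
    have : (r : K) + (s : K) * T = r • (1 : K) + s • T := by simp [Algebra.smul_def]
    rw [this, map_add, map_smul, map_smul, htr1, htrθ]; simp [mul_comm]
  have hint : ∀ y : 𝓞 K, ∀ r s : ℚ, φ y = (r : K) + (s : K) * T → ∃ n : ℤ, (n : ℚ) = 2 * r := by
    intro y r s hy
    have h1 : IsIntegral ℤ (Algebra.trace ℚ K (φ y)) := Algebra.isIntegral_trace y.isIntegral_coe
    rw [hy, htr] at h1
    obtain ⟨n, hn⟩ := IsIntegrallyClosed.isIntegral_iff.1 h1
    exact ⟨n, by simpa using hn⟩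
  obtain ⟨r, s, hx⟩ : ∃ r s : ℚ, φ x = (r : K) + (s : K) * T := by
    refine ⟨bs.repr (φ x) 0, bs.repr (φ x) 1, ?_⟩
    conv_lhs => rw [← bs.sum_repr (φ x)]
    rw [Fin.sum_univ_two, b0, b1]
    simp [Algebra.smul_def]
  obtain ⟨A, hA⟩ := hint x r s hx
  obtain ⟨B, hB⟩ := hint (θ * x) (14 * s) r (by
    rw [map_mul, hx, ← hT]; push_cast
    linear_combination (s : K) * hθ')
  obtain ⟨C, hC⟩ := hint (x * x) (r ^ 2 + 14 * s ^ 2) (2 * r * s) (by
    rw [map_mul, hx]; push_cast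
    linear_combination (s : K) ^ 2 * hθ')
  have h1 : 14 * A ^ 2 + B ^ 2 = 28 * C := by
    have : (14 * A ^ 2 + B ^ 2 : ℚ) = 28 * C := by rw [hA, hB, hC]; ring
    exact_mod_cast this
  have h2 : (2 : ℤ) ∣ B :=
    Int.Prime.dvd_pow' (k := 2) Nat.prime_two ⟨14 * C - 7 * A ^ 2, by push_cast; linarith⟩
  have h7 : (7 : ℤ) ∣ B :=
    Int.Prime.dvd_pow' (k := 2) (by norm_num : Nat.Prime 7) ⟨4 * C - 2 * A ^ 2, by push_cast; linarith⟩
  obtain ⟨B', rfl⟩ : (14 : ℤ) ∣ B := by omega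
  have h3 : (2 : ℤ) ∣ A :=
    Int.Prime.dvd_pow' (k := 2) Nat.prime_two ⟨C - 7 * B' ^ 2, by push_cast; nlinarith⟩
  obtain ⟨a, rfl⟩ := h3
  have hr : r = a := by push_cast at hA; linarith
  have hs : s = B' / 2 := by push_cast at hB; linarith
  have h4 : IsIntegral ℤ (algebraMap ℚ K (14 * s ^ 2)) := by
    have h5 : IsIntegral ℤ (φ ((x - a) ^ 2)) := ((x - a) ^ 2).isIntegral_coe
    have h6 : φ ((x - a) ^ 2) = algebraMap ℚ K (14 * s ^ 2) := by
      rw [map_pow, map_sub, hx, map_intCast, hr, eq_ratCast]; push_cast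
      linear_combination (s : K) ^ 2 * hθ'
    rwa [h6] at h5
  rw [isIntegral_algebraMap_iff (algebraMap ℚ K).injective] at h4
  obtain ⟨n, hn⟩ := IsIntegrallyClosed.isIntegral_iff.1 h4
  have h5 : 2 * n = 7 * B' ^ 2 := by
    have : (2 * n : ℚ) = 7 * B' ^ 2 := by
      have hn' : (n : ℚ) = 14 * s ^ 2 := by simpa using hn
      rw [hn', hs]; ring
    exact_mod_cast this
  have h6 : (2 : ℤ) ∣ B' :=
    Int.Prime.dvd_pow' (k := 2) Nat.prime_two ⟨n - 3 * B' ^ 2, by push_cast; linarith⟩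
  obtain ⟨b, rfl⟩ := h6
  refine ⟨a, b, ?_⟩
  apply RingOfIntegers.coe_injective
  change φ x = φ _
  rw [hx, hr, hs, map_add, map_mul, map_intCast, map_intCast, ← hT]; push_cast; ring

theorem coords_eq_zero {θ : 𝓞 K} (hθ : θ ^ 2 = 14) {a b : ℤ} (h : (a : 𝓞 K) + b * θ = 0) :
    a = 0 ∧ b = 0 := by
  have hθ' : (algebraMap (𝓞 K) K θ) ^ 2 = 14 := by
    have := congrArg (algebraMap (𝓞 K) K) hθ
    rwa [map_pow, map_ofNat] at this
  have h1 := congrArg (algebraMap (𝓞 K) K) h
  rw [map_add, map_mul, map_intCast, map_intCast, map_zero] at h1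
  have := LinearIndependent.pair_iff.1 (li_theta hθ') a b (by simpa [Algebra.smul_def] using h1)
  exact_mod_cast this

/-- the ring isomorphism from `ℤ√14` -/
noncomputable def iso (hK : Module.finrank ℚ K = 2) {θ : 𝓞 K} (hθ : θ ^ 2 = 14) :
    ℤ√14 ≃+* 𝓞 K :=
  RingEquiv.ofBijective (Zsqrtd.lift ⟨θ, by rw [← sq, hθ]; norm_num⟩) (by
    constructor
    · rw [injective_iff_map_eq_zero]
      intro z hz
      have := coords_eq_zero hθ (a := z.re) (b := z.im) (by simpa using hz)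
      ext <;> simp [this.1, this.2]
    · intro x
      obtain ⟨a, b, rfl⟩ := exists_coords hK hθ x
      exact ⟨⟨a, b⟩, by simp⟩)

theorem iso_apply (hK : Module.finrank ℚ K = 2) {θ : 𝓞 K} (hθ : θ ^ 2 = 14) (z : ℤ√14) :
    iso hK hθ z = z.re + z.im * θ := by simp [iso]

theorem norm_iso (hK : Module.finrank ℚ K = 2) {θ : 𝓞 K} (hθ : θ ^ 2 = 14) (z : ℤ√14) :
    Algebra.norm ℤ (iso hK hθ z) = z.norm := by
  have hli : LinearIndependent ℤ ![(1 : 𝓞 K), θ] := by
    rw [LinearIndependent.pair_iff]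
    intro s t h
    exact coords_eq_zero hθ (by simpa using h)
  have hsp : ⊤ ≤ Submodule.span ℤ (Set.range ![(1 : 𝓞 K), θ]) := by
    intro x _
    obtain ⟨a, b, rfl⟩ := exists_coords hK hθ x
    have : (a : 𝓞 K) + b * θ = a • (1 : 𝓞 K) + b • θ := by simp
    rw [this]
    exact Submodule.add_mem _ (Submodule.smul_mem _ _ (Submodule.subset_span ⟨0, rfl⟩))
      (Submodule.smul_mem _ _ (Submodule.subset_span ⟨1, rfl⟩))
  let bs : Module.Basis (Fin 2) ℤ (𝓞 K) := Module.Basis.mk hli hsp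
  have b0 : bs 0 = 1 := by simp [bs]
  have b1 : bs 1 = θ := by simp [bs]
  rw [Algebra.norm_eq_matrix_det bs, Matrix.det_fin_two]
  simp only [Algebra.leftMulMatrix_eq_repr_mul]
  have e0 : iso hK hθ z * bs 0 = z.re • bs 0 + z.im • bs 1 := by
    rw [b0, b1, iso_apply]; simp
  have e1 : iso hK hθ z * bs 1 = (14 * z.im) • bs 0 + z.re • bs 1 := by
    rw [b0, b1, iso_apply]; simp only [zsmul_eq_mul]; push_cast
    linear_combination (z.im : 𝓞 K) * hθ
  rw [e0, e1]
  simp only [map_add, map_smul, Module.Basis.repr_self, Finsupp.add_apply, Finsupp.smul_apply]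
  simp [Zsqrtd.norm_def]

open Classical in
/-- the weighted norm on `ℤ√14` -/
noncomputable def F (c : ℝ) (z : ℤ√14) : ℝ :=
  if z = 0 then 0 else |(z.norm : ℝ)| * (c / 2) ^ (padicValInt 2 z.norm)

theorem norm_ne_zero {z : ℤ√14} (hz : z ≠ 0) : z.norm ≠ 0 := by
  intro h
  apply hz
  refine (Zsqrtd.norm_eq_zero ?_ z).1 h
  intro n hn
  exact irr14 n (by rw [sq]; exact_mod_cast hn.symm)

/-- generator of the prime above two -/
def piz : ℤ√14 := ⟨4, 1⟩

theorem piz_dvd {z : ℤ√14} (h : (2 : ℤ) ∣ z.norm) : ∃ y, z = piz * y := by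
  have h1 : (2 : ℤ) ∣ z.re := by
    apply Int.Prime.dvd_pow' (k := 2) Nat.prime_two
    obtain ⟨m, hm⟩ := h
    exact ⟨m + 7 * z.im ^ 2, by rw [Zsqrtd.norm_def] at hm; push_cast; linarith⟩
  obtain ⟨a, ha⟩ := h1
  refine ⟨⟨4 * a - 7 * z.im, 2 * z.im - a⟩, ?_⟩
  ext <;> simp [piz, ha] <;> ring

theorem span_eq (hK : Module.finrank ℚ K = 2) {θ : 𝓞 K} (hθ : θ ^ 2 = 14) :
    Ideal.span {2, θ} = Ideal.span {iso hK hθ piz} := by
  rw [iso_apply]
  apply le_antisymm
  · rw [Ideal.span_le]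
    rintro x (rfl | rfl)
    · exact Ideal.mem_span_singleton'.2 ⟨4 - θ, by simp [piz]; linear_combination -hθ⟩
    · exact Ideal.mem_span_singleton'.2 ⟨2 * x - 7, by simp [piz]; linear_combination 2 * hθ⟩
  · rw [Ideal.span_singleton_le_iff_mem]
    exact Ideal.mem_span_pair.2 ⟨2, 1, by simp [piz]; ring⟩

theorem absNorm_iso (hK : Module.finrank ℚ K = 2) {θ : 𝓞 K} (hθ : θ ^ 2 = 14) (z : ℤ√14) :
    Ideal.absNorm (Ideal.span {iso hK hθ z}) = z.norm.natAbs := by
  rw [Ideal.absNorm_span_singleton, norm_iso]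

theorem wnorm_iso (hK : Module.finrank ℚ K = 2) {θ : 𝓞 K} (hθ : θ ^ 2 = 14) (c : ℝ) (z : ℤ√14) :
    wnorm (Ideal.span {2, θ}) c (iso hK hθ z) = F c z := by
  classical
  set p := Ideal.span {2, θ} with hp
  have hpn : Ideal.absNorm p = 2 := by rw [hp, span_eq hK hθ, absNorm_iso]; rfl
  have hp0 : p ≠ ⊥ := by intro h; rw [h] at hpn; simp at hpn
  have hpp : Prime p := by
    rw [Ideal.prime_iff_isPrime hp0]
    apply Ideal.isPrime_of_irreducible_absNorm
    rw [hpn]; exact Nat.prime_two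
  by_cases hz : z = 0
  · simp [wnorm, F, hz]
  have hz' : ∀ z : ℤ√14, z ≠ 0 → Ideal.span {iso hK hθ z} ≠ ⊥ := fun z hz => by
    simpa using hz
  simp only [wnorm, F, if_neg hz, if_neg ((map_ne_zero_iff _ (iso hK hθ).injective).2 hz)]
  generalize hn : z.norm.natAbs = n
  induction n using Nat.strong_induction_on generalizing z with
  | _ n ih =>
  by_cases h2 : (2 : ℤ) ∣ z.norm
  · obtain ⟨y, rfl⟩ := piz_dvd h2
    have hy : y ≠ 0 := by rintro rfl; simp at hz
    have hN : (piz * y).norm = 2 * y.norm := by rw [Zsqrtd.norm_mul]; rfl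
    have hy0 := norm_ne_zero hy
    have ih' := ih y.norm.natAbs (by rw [← hn, hN]; omega) y hy rfl
    have hv : padicValInt 2 (2 * y.norm) = padicValInt 2 y.norm + 1 := by
      rw [padicValInt.mul (by norm_num) hy0]
      have : padicValInt 2 2 = 1 := padicValInt.self (by norm_num)
      omega
    rw [map_mul, ← Ideal.span_singleton_mul_span_singleton, ← span_eq hK hθ, ← hp]
    unfold phi at ih' ⊢
    rw [normalizedFactors_mul hp0 (hz' y hy), normalizedFactors_irreducible hpp.irreducible,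
      Multiset.map_add, Multiset.prod_add, ih', hN, hv]
    simp [abs_mul, pow_succ]
    ring
  · have hv : padicValInt 2 z.norm = 0 := padicValInt.eq_zero_of_not_dvd h2
    rw [hv, pow_zero, mul_one]
    unfold phi
    have hall : ∀ q ∈ normalizedFactors (Ideal.span {iso hK hθ z}), q ≠ p := by
      rintro q hq rfl
      have h3 := map_dvd Ideal.absNorm (dvd_of_mem_normalizedFactors hq)
      rw [hpn, absNorm_iso] at h3
      exact h2 (Int.natCast_dvd.2 h3)
    rw [Multiset.map_congr rfl (fun q hq => if_neg (hall q hq))]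
    have h4 : ((normalizedFactors (Ideal.span {iso hK hθ z})).map
        (fun q => (Ideal.absNorm q : ℝ))).prod =
        (Ideal.absNorm (normalizedFactors (Ideal.span {iso hK hθ z})).prod : ℝ) := by
      rw [map_multiset_prod, Nat.cast_multiset_prod, Multiset.map_map]; rfl
    rw [h4, Ideal.prod_normalizedFactors_eq_self (hz' z hz), absNorm_iso]
    simp

theorem mem_window_iff (hK : Module.finrank ℚ K = 2) {θ : 𝓞 K} (hθ : θ ^ 2 = 14) (c : ℝ) :
    c ∈ window (Ideal.span {2, θ}) ↔ 0 < c ∧ IsEuclideanFunction (F c) := by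
  have hf : wnorm (Ideal.span {2, θ}) c ∘ iso hK hθ = F c := funext (wnorm_iso hK hθ c)
  have hs := (iso hK hθ).surjective
  simp only [window, Set.mem_ofPred_eq, IsEuclideanFunction]
  rw [← hf, hs.range_comp, hs.forall, hs.forall (p := fun r => _ = 0 ↔ r = 0), hs.forall₂]
  simp only [Function.comp_apply, map_eq_zero_iff _ (iso hK hθ).injective, ne_eq, hs.exists,
    map_sub, map_mul]

end Pool.Agent.H400Z.Win
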