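import Mathlib
import Pool.Agent.H400Z.Win.Bridge

set_option autoImplicit false

namespace Pool.Agent.H400Z.Win

/-- check that a pair has large weighted norm for the weight `n / m` -/
def bigB (n m D x y : ℤ) : Bool :=
  (List.range 9).any fun v =>
    (x * x - 14 * y * y) % 2 ^ v == 0 && decide (D * D * m ^ v ≤ |x * x - 14 * y * y| * n ^ v)

/-- the certificate check -/
def certB (n m D : ℤ) (L : List (ℤ × ℤ)) : Bool :=
  L.all fun p =>
    L.contains ((15 * p.1 + 56 * p.2) % D, (4 * p.1 + 15 * p.2) % D) &&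
    L.contains ((15 * p.1 - 56 * p.2) % D, (15 * p.2 - 4 * p.1) % D) &&
    (List.range 9).all fun i => (List.range 2).all fun j =>
      bigB n m D (p.1 + ((i : ℤ) - 5) * D) (p.2 - (j : ℤ) * D)

theorem big_of_bigB {n m D : ℤ} (hm : 0 < m) (hn : 0 < n) (hD : 0 < D) {w : ℝ} (hw1 : 1 ≤ w)
    (hw : (n : ℝ) ≤ w * m) {x y : ℤ}
    (h : bigB n m D x y = true) : (D : ℝ) ^ 2 ≤ F (2 * w) ⟨x, y⟩ := by
  simp only [bigB, List.any_eq_true, Bool.and_eq_true, beq_iff_eq, decide_eq_true_eq] at h
  obtain ⟨v, _, h1, h2⟩ := h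
  have hN : (⟨x, y⟩ : ℤ√14).norm = x * x - 14 * y * y := by simp [Zsqrtd.norm_def]
  have hpos : 0 < D * D * m ^ v := by positivity
  have hN0 : x * x - 14 * y * y ≠ 0 := by
    intro h0; rw [h0] at h2; simp at h2; linarith
  have hz : (⟨x, y⟩ : ℤ√14) ≠ 0 := by
    intro h0; rw [h0] at hN; exact hN0 (by simpa using hN.symm)
  have hv : v ≤ padicValInt 2 (x * x - 14 * y * y) := by
    have := (padicValInt_dvd_iff (p := 2) v (x * x - 14 * y * y)).1
      (by exact_mod_cast Int.dvd_of_emod_eq_zero h1)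
    tauto
  simp only [F, if_neg hz, hN]
  have e : 2 * w / 2 = w := by ring
  rw [e]
  have h3 : (D : ℝ) * D * m ^ v ≤ |((x * x - 14 * y * y : ℤ) : ℝ)| * n ^ v := by exact_mod_cast h2
  have hm' : (0 : ℝ) < m := by exact_mod_cast hm
  have hn' : (0 : ℝ) < n := by exact_mod_cast hn
  have h4 : (n : ℝ) ^ v ≤ w ^ v * m ^ v := by rw [← mul_pow]; gcongr
  have h5 : w ^ v ≤ w ^ padicValInt 2 (x * x - 14 * y * y) := pow_le_pow_right₀ hw1 hv
  have h6 : (D : ℝ) ^ 2 * m ^ v ≤ |((x * x - 14 * y * y : ℤ) : ℝ)| * w ^ v * m ^ v := by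
    calc (D : ℝ) ^ 2 * m ^ v = D * D * m ^ v := by ring
      _ ≤ _ := h3
      _ ≤ |((x * x - 14 * y * y : ℤ) : ℝ)| * (w ^ v * m ^ v) := by gcongr
      _ = _ := by ring
  have h7 := le_of_mul_le_mul_right h6 (by positivity)
  exact h7.trans (by gcongr)

theorem F_congr (c : ℝ) {z z' : ℤ√14} (h : z.norm = z'.norm) : F c z = F c z' := by
  by_cases hz : z = 0
  · have : z' = 0 := by
      by_contra h'
      exact norm_ne_zero h' (by rw [← h, hz]; simp)
    rw [hz, this]
  · have : z' ≠ 0 := by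
      intro h'
      exact norm_ne_zero hz (by rw [h, h']; simp)
    simp only [F, if_neg hz, if_neg this, h]

theorem abs_le_F {w : ℝ} (hw1 : 1 ≤ w) (z : ℤ√14) : |(z.norm : ℝ)| ≤ F (2 * w) z := by
  by_cases hz : z = 0
  · simp [F, hz]
  · simp only [F, if_neg hz]
    have e : 2 * w / 2 = w := by ring
    rw [e]
    exact le_mul_of_one_le_right (abs_nonneg _) (one_le_pow₀ hw1)

theorem cert_bound {n m D : ℤ} (hm : 0 < m) (hn : 0 < n) (hD : 0 < D) {w : ℝ} (hw1 : 1 ≤ w)
    (hw : (n : ℝ) ≤ w * m) {L : List (ℤ × ℤ)} (h : certB n m D L = true) (x y : ℤ)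
    (hxy : (x % D, y % D) ∈ L) : (D : ℝ) ^ 2 ≤ F (2 * w) ⟨x, y⟩ := by
  simp only [certB, List.all_eq_true, Bool.and_eq_true, List.contains_iff_mem, List.mem_range] at h
  generalize hk : y.natAbs = k
  induction k using Nat.strong_induction_on generalizing x y with
  | _ k ih =>
  by_contra hlt
  push Not at hlt
  have hN : (⟨x, y⟩ : ℤ√14).norm = x * x - 14 * y * y := by simp [Zsqrtd.norm_def]
  have h1 : |x * x - 14 * y * y| < D ^ 2 := by
    have := (abs_le_F hw1 ⟨x, y⟩).trans_lt hlt
    rw [hN] at this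
    exact_mod_cast this
  rw [abs_lt] at h1
  obtain ⟨⟨ha, hb⟩, hc⟩ := h _ hxy
  simp only at ha hb hc
  have ha' : ((15 * x + 56 * y) % D, (4 * x + 15 * y) % D) ∈ L := by
    convert ha using 2
    · exact (((Int.mod_modEq x D).mul_left 15).add ((Int.mod_modEq y D).mul_left 56)).symm
    · exact (((Int.mod_modEq x D).mul_left 4).add ((Int.mod_modEq y D).mul_left 15)).symm
  have hb' : ((15 * x - 56 * y) % D, (15 * y - 4 * x) % D) ∈ L := by
    convert hb using 2
    · exact (((Int.mod_modEq x D).mul_left 15).sub ((Int.mod_modEq y D).mul_left 56)).symm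
    · exact (((Int.mod_modEq y D).mul_left 15).sub ((Int.mod_modEq x D).mul_left 4)).symm
  have e1 : F (2 * w) ⟨15 * x + 56 * y, 4 * x + 15 * y⟩ = F (2 * w) ⟨x, y⟩ :=
    F_congr _ (by simp [Zsqrtd.norm_def]; ring)
  have e2 : F (2 * w) ⟨15 * x - 56 * y, 15 * y - 4 * x⟩ = F (2 * w) ⟨x, y⟩ :=
    F_congr _ (by simp [Zsqrtd.norm_def]; ring)
  by_cases hy : |y| < D
  · rw [abs_lt] at hy
    have hx : |x| < 4 * D := by
      apply abs_lt_of_sq_lt_sq _ (by omega)
      nlinarith
    rw [abs_lt] at hx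
    have hx0 := Int.emod_nonneg x hD.ne'
    have hx1 := Int.emod_lt_of_pos x hD
    have hy0 := Int.emod_nonneg y hD.ne'
    have hy1 := Int.emod_lt_of_pos y hD
    have hxe := Int.emod_add_mul_ediv x D
    have hye := Int.emod_add_mul_ediv y D
    have q1 : -5 < x / D := by by_contra hq; push Not at hq; nlinarith
    have q2 : x / D < 4 := by by_contra hq; push Not at hq; nlinarith
    have q3 : -2 < y / D := by by_contra hq; push Not at hq; nlinarith
    have q4 : y / D < 1 := by by_contra hq; push Not at hq; nlinarith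
    have := hc (x / D + 5).toNat (by omega) (-(y / D)).toNat (by omega)
    rw [Int.toNat_of_nonneg (by omega), Int.toNat_of_nonneg (by omega)] at this
    have e3 : x % D + (x / D + 5 - 5) * D = x := by linarith
    have e4 : y % D - -(y / D) * D = y := by linarith
    rw [e3, e4] at this
    exact absurd (big_of_bigB hm hn hD hw1 hw this) (not_le.2 hlt)
  · push Not at hy
    have hyy : D ^ 2 ≤ y ^ 2 := by rw [← sq_abs y]; gcongr
    have hy2 : 0 < y ^ 2 := lt_of_lt_of_le (by positivity) hyy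
    have b1 : |7 * y| < |2 * x| := sq_lt_sq.1 (by nlinarith)
    have b2 : |x| < |4 * y| := sq_lt_sq.1 (by nlinarith)
    by_cases hs : (0 ≤ x ∧ 0 ≤ y) ∨ (x ≤ 0 ∧ y ≤ 0)
    · refine absurd (e2 ▸ ih _ ?_ _ _ hb' rfl) (not_le.2 hlt)
      rw [← hk]
      rcases hs with ⟨h3, h4⟩ | ⟨h3, h4⟩
      · rw [abs_of_nonneg (by omega), abs_of_nonneg (by omega)] at b1 b2; omega
      · rw [abs_of_nonpos (by omega), abs_of_nonpos (by omega)] at b1 b2; omega
    · refine absurd (e1 ▸ ih _ ?_ _ _ ha' rfl) (not_le.2 hlt)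
      rw [← hk]
      rcases le_total 0 x with h3 | h3
      · rw [abs_of_nonpos (by omega), abs_of_nonneg (by omega)] at b1
        rw [abs_of_nonneg (by omega), abs_of_nonpos (by omega)] at b2; omega
      · rw [abs_of_nonneg (by omega), abs_of_nonpos (by omega)] at b1
        rw [abs_of_nonpos (by omega), abs_of_nonneg (by omega)] at b2; omega

theorem not_eucl_of_cert {n m D : ℤ} (hm : 0 < m) (hn : 0 < n) (hD : 0 < D) (hodd : ¬ (2 : ℤ) ∣ D)
    {w : ℝ} (hw1 : 1 ≤ w) (hw : (n : ℝ) ≤ w * m) {L : List (ℤ × ℤ)} (h : certB n m D L = true)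
    (s t : ℤ) (hst : (s % D, t % D) ∈ L) : ¬ IsEuclideanFunction (F (2 * w)) := by
  rintro ⟨_, _, _, h4⟩
  have hb : (⟨D, 0⟩ : ℤ√14) ≠ 0 := by
    intro h0
    have := congrArg Zsqrtd.re h0
    simp at this; omega
  obtain ⟨q, hq⟩ := h4 ⟨s, t⟩ ⟨D, 0⟩ hb
  have e1 : (⟨s, t⟩ : ℤ√14) - ⟨D, 0⟩ * q = ⟨s - D * q.re, t - D * q.im⟩ := by ext <;> simp
  have e2 : F (2 * w) ⟨D, 0⟩ = (D : ℝ) ^ 2 := by
    have hN : (⟨D, 0⟩ : ℤ√14).norm = D ^ 2 := by simp [Zsqrtd.norm_def, sq]
    have hv : padicValInt 2 (D ^ 2) = 0 := padicValInt.eq_zero_of_not_dvd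
      (fun h' => hodd (Int.Prime.dvd_pow' (k := 2) Nat.prime_two h'))
    simp [F, hb, hN, hv]
  rw [e1, e2] at hq
  refine absurd (cert_bound hm hn hD hw1 hw h _ _ ?_) (not_le.2 hq)
  simpa using hst

/-- the orbit of the exceptional point -/
def orb24 : List (ℤ × ℤ) := [(511529798204775, 11095311346006177), (15857423744348837, 15187549731644580), (15346463578458810, 15324109579783133), (15329412585867373, 15328666638301320), (15328842974014290, 15328818545708377), (15328805611013237, 15328818709401900), (15328254332834730, 15328671712800533), (15311753350480573, 15324261651066000), (14817275158034370, 15192106795631377), (30657078297255872, 11231871194327220), (15823283782292175, 15187549731650873), (14834364147961288, 15187549731650880), (569632998375, 11231871194327437), (15840372772243397, 15192106795637880), (15345894580502010, 15324261651260873), (15329393619268813, 15328671718640220), (15328842974014290, 15328818884397637), (15328824577611797, 15328823789740800), (15328823330791530,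 15328823784278273), (15328804322586013, 15328818715059300), (15328235323240770, 15328666643952637), (15311184351088997, 15324109579971720), (14800224185881050, 15187549731650873), (30146118132047848, 11095311346006380)]

theorem cert24 : certB 5 4 30657647930253435 orb24 = true := by decide +kernel

theorem not_eucl_five_halves {c : ℝ} (hc : 5 / 2 ≤ c) : ¬ IsEuclideanFunction (F c) := by
  have e : c = 2 * (c / 2) := by ring
  rw [e]
  exact not_eucl_of_cert (n := 5) (m := 4) (by norm_num) (by norm_num) (by norm_num) (by norm_num)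
    (by linarith) (by push_cast; linarith) cert24 511529798204775 11095311346006177
    (by decide +kernel)

end Pool.Agent.H400Z.Win
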