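import Mathlib
import Pool.Agent.H400Z.Win.Counter

set_option autoImplicit false

namespace Pool.Agent.H400Z.Win

/-- covering trees -/
inductive T : Type where
  | u (l r : T) : T
  | v (l r : T) : T
  | x (l r : T) : T
  | y (l r : T) : T
  | cv (a b : ℤ) (s : Bool) (t : ℕ) : T
  | sq (a b : ℤ) : T
  | tr (a b : ℤ) : T

/-- scale -/
def S : ℤ := 100000000000000000000

/-- scaled square root of fourteen -/
def rl : ℤ := 374165738677394138558

/-- bound for a linear form on an interval -/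
def bd (m l h a b : ℤ) : ℤ :=
  max (-(m * l - S * a - b * rl - |b|)) (m * h - S * a - b * rl + |b|)

/-- rank of a residue class -/
def rk (p q : ℤ) : ℤ := (p % 4 - p % 2 + 3 * ((p + q) % 2)) % 4

/-- the checker -/
def chk (real main : Bool) : T → ℤ → ℤ → ℤ → ℤ → ℕ → ℤ → ℕ → ℤ → Bool
  | .u l r, ul, uh, vl, vh, k0, c0, k1, c1 =>
    chk real main l ul ((ul + uh) / 2) vl vh k0 c0 k1 c1 &&
    chk real main r ((ul + uh) / 2) uh vl vh k0 c0 k1 c1
  | .v l r, ul, uh, vl, vh, k0, c0, k1, c1 =>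
    chk real main l ul uh vl ((vl + vh) / 2) k0 c0 k1 c1 &&
    chk real main r ul uh ((vl + vh) / 2) vh k0 c0 k1 c1
  | .x l r, ul, uh, vl, vh, k0, c0, k1, c1 =>
    !real && chk real main l ul uh vl vh (k0 + 1) c0 k1 c1 &&
    chk real main r ul uh vl vh (k0 + 1) (c0 + 2 ^ k0) k1 c1
  | .y l r, ul, uh, vl, vh, k0, c0, k1, c1 =>
    !real && chk real main l ul uh vl vh k0 c0 (k1 + 1) c1 &&
    chk real main r ul uh vl vh k0 c0 (k1 + 1) (c1 + 2 ^ k1)
  | .cv a b s t, ul, uh, vl, vh, k0, c0, k1, c1 =>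
    (real || (if s then decide (t < k1) && (c1 - b) % 2 ^ (t + 1) != 0
      else decide (t < k0) && (c0 - a) % 2 ^ (t + 1) != 0)) &&
    decide (bd 1 ul uh a b * bd 1 vl vh a (-b) * 28 ^ (if s then 2 * t + 1 else 2 * t) <
      S * S * 25 ^ (if s then 2 * t + 1 else 2 * t))
  | .sq a b, ul, uh, vl, vh, _, _, _, _ =>
    decide (bd 1 ul uh a b < S) && decide (bd 1 vl vh a (-b) < S)
  | .tr a b, ul, uh, vl, vh, k0, c0, k1, c1 =>
    decide (25 * (bd 2 ul uh (2 * a + 1) (2 * b + 1) * bd 2 vl vh (2 * a + 1) (-(2 * b + 1))) ≤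
      3 * (S * S)) &&
    (main || (!real && decide (2 ≤ k0) && decide (2 ≤ k1) &&
      decide (rk (c0 - a) (c1 - b) < rk c0 c1)))

/-- the norm form -/
def Nf (x y : ℤ) : ℤ := x * x - 14 * y * y

/-- the point `(x + y √14) / D` has a good approximation -/
def Good (real : Bool) (D x y : ℤ) : Prop :=
  ∃ (a b : ℤ) (V : ℕ), (real = true ∨ Nf (x - D * a) (y - D * b) = 0 ∨
    ¬ (2 : ℤ) ^ (V + 1) ∣ Nf (x - D * a) (y - D * b)) ∧
    |Nf (x - D * a) (y - D * b)| * 28 ^ V < D ^ 2 * 25 ^ V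

/-- the point is close to the exceptional point -/
def Trap (D x y : ℤ) : Prop := 25 * |Nf (2 * x - D) (2 * y - D)| ≤ 3 * D ^ 2

theorem r14 : (√14 : ℝ) * √14 = 14 := by norm_num

theorem Nf_real (x y : ℤ) : (Nf x y : ℝ) = (x + y * √14) * (x - y * √14) := by
  unfold Nf; push_cast; linear_combination (y : ℝ) ^ 2 * r14

theorem rl_le : (rl : ℝ) ≤ S * √14 ∧ S * √14 ≤ (rl : ℝ) + 1 := by
  have h : (S : ℝ) * √14 = √(14 * S ^ 2) := by
    rw [Real.sqrt_mul (by norm_num), Real.sqrt_sq (by norm_num [S]), mul_comm]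
  rw [h]
  constructor
  · apply Real.le_sqrt_of_sq_le; norm_num [rl, S]
  · apply Real.sqrt_le_iff.2; norm_num [rl, S]

theorem S_pos : (0 : ℝ) < S := by norm_num [S]

theorem bd_le {m l h a b D : ℤ} {A : ℝ} (hm : 0 ≤ m) (hD : 0 < D) (h1 : (l : ℝ) * D ≤ S * A)
    (h2 : S * A ≤ (h : ℝ) * D) : S * |m * A - D * (a + b * √14)| ≤ (bd m l h a b : ℝ) * D := by
  have hm' : (0 : ℝ) ≤ m := by exact_mod_cast hm
  have hD' : (0 : ℝ) < D := by exact_mod_cast hD
  obtain ⟨r1, r2⟩ := rl_le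
  have e1 : |(b : ℝ) * (S * √14 - rl)| ≤ |(b : ℝ)| := by
    rw [abs_mul]
    exact mul_le_of_le_one_right (abs_nonneg _) (abs_le.2 ⟨by linarith, by linarith⟩)
  rw [abs_le] at e1
  have e2 := mul_le_mul_of_nonneg_left h1 hm'
  have e3 := mul_le_mul_of_nonneg_left h2 hm'
  have e4 := mul_le_mul_of_nonneg_left e1.1 hD'.le
  have e5 := mul_le_mul_of_nonneg_left e1.2 hD'.le
  have b1 : ((-(m * l - S * a - b * rl - |b|) : ℤ) : ℝ) ≤ bd m l h a b := by
    exact_mod_cast le_max_left _ _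
  have b2 : ((m * h - S * a - b * rl + |b| : ℤ) : ℝ) ≤ bd m l h a b := by
    exact_mod_cast le_max_right _ _
  push_cast at b1 b2
  have b3 := mul_le_mul_of_nonneg_right b1 hD'.le
  have b4 := mul_le_mul_of_nonneg_right b2 hD'.le
  rw [← abs_of_pos S_pos, ← abs_mul, abs_le]
  constructor <;> linarith

theorem bd_prod {m ul uh vl vh a b D x y : ℤ} (hm : 0 ≤ m) (hD : 0 < D)
    (h1 : (ul : ℝ) * D ≤ S * (x + y * √14)) (h2 : S * (x + y * √14) ≤ (uh : ℝ) * D)
    (h3 : (vl : ℝ) * D ≤ S * (x - y * √14)) (h4 : S * (x - y * √14) ≤ (vh : ℝ) * D) :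
    S * S * |Nf (m * x - D * a) (m * y - D * b)| ≤ bd m ul uh a b * bd m vl vh a (-b) * D ^ 2 := by
  have e1 := bd_le (a := a) (b := b) hm hD h1 h2
  have e2 := bd_le (a := a) (b := -b) hm hD h3 h4
  have e3 := mul_le_mul e1 e2 (by have := S_pos; positivity) (le_trans (by have := S_pos; positivity) e1)
  have e4 : (S : ℝ) * S * |(Nf (m * x - D * a) (m * y - D * b) : ℝ)| ≤
      bd m ul uh a b * bd m vl vh a (-b) * D ^ 2 := by
    rw [Nf_real, abs_mul]
    push_cast at e3 ⊢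
    have a1 : (m : ℝ) * x - D * a + (m * y - D * b) * √14 =
      m * (x + y * √14) - D * (a + b * √14) := by ring
    have a2 : (m : ℝ) * x - D * a - (m * y - D * b) * √14 =
      m * (x - y * √14) - D * (a + -b * √14) := by ring
    rw [a1, a2]
    linarith
  exact_mod_cast e4

theorem val_even (t : ℕ) : ∀ x y : ℤ, (2 : ℤ) ^ (2 * t) ∣ Nf x y → 2 ^ t ∣ x ∧ 2 ^ t ∣ y := by
  induction t with
  | zero => simp
  | succ t ih =>
    rintro x y ⟨m, hm⟩
    unfold Nf at hm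
    have e : (2 : ℤ) ^ (2 * (t + 1)) = 4 * 2 ^ (2 * t) := by ring
    rw [e] at hm
    obtain ⟨a, rfl⟩ : (2 : ℤ) ∣ x := Int.Prime.dvd_pow' (k := 2) Nat.prime_two
      ⟨2 * 2 ^ (2 * t) * m + 7 * y ^ 2, by push_cast; linarith⟩
    obtain ⟨b, rfl⟩ : (2 : ℤ) ∣ y := Int.Prime.dvd_pow' (k := 2) Nat.prime_two
      ⟨a ^ 2 - 2 ^ (2 * t) * m - 3 * y ^ 2, by push_cast; linarith⟩
    obtain ⟨h1, h2⟩ := ih a b ⟨m, by unfold Nf; linarith⟩
    rw [pow_succ']
    exact ⟨mul_dvd_mul_left 2 h1, mul_dvd_mul_left 2 h2⟩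

theorem val_odd (t : ℕ) (x y : ℤ) (h : (2 : ℤ) ^ (2 * t + 1) ∣ Nf x y) : 2 ^ (t + 1) ∣ x := by
  obtain ⟨⟨a, rfl⟩, ⟨b, rfl⟩⟩ := val_even t x y ((pow_dvd_pow 2 (by omega)).trans h)
  have e : Nf (2 ^ t * a) (2 ^ t * b) = 2 ^ (2 * t) * Nf a b := by unfold Nf; ring
  rw [e, pow_succ, mul_dvd_mul_iff_left (by positivity)] at h
  obtain ⟨m, hm⟩ := h
  unfold Nf at hm
  have : (2 : ℤ) ∣ a := Int.Prime.dvd_pow' (k := 2) Nat.prime_two
      ⟨m + 7 * b ^ 2, by push_cast; linarith⟩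
  rw [pow_succ]
  exact mul_dvd_mul_left _ this

theorem cls_val {D x c a : ℤ} {k t : ℕ} (hD : Odd D) (hc : (2 : ℤ) ^ k ∣ x - D * c) (ht : t < k)
    (h : (c - a) % 2 ^ (t + 1) ≠ 0) : ¬ (2 : ℤ) ^ (t + 1) ∣ x - D * a := by
  intro h1
  have h2 := dvd_sub h1 ((pow_dvd_pow 2 ht).trans hc)
  have e : x - D * a - (x - D * c) = D * (c - a) := by ring
  rw [e] at h2
  have h3 : IsCoprime ((2 : ℤ) ^ (t + 1)) D := by
    apply IsCoprime.pow_left
    obtain ⟨m, rfl⟩ := hD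
    exact ⟨-m, 1, by ring⟩
  exact h (Int.emod_eq_zero_of_dvd (h3.dvd_of_dvd_mul_left h2))

theorem cls_split {D x c : ℤ} {k : ℕ} (hD : Odd D) (hc : (2 : ℤ) ^ k ∣ x - D * c) :
    (2 : ℤ) ^ (k + 1) ∣ x - D * c ∨ (2 : ℤ) ^ (k + 1) ∣ x - D * (c + 2 ^ k) := by
  obtain ⟨m, hm⟩ := hc
  obtain ⟨d, rfl⟩ := hD
  rcases Int.even_or_odd' m with ⟨n, rfl | rfl⟩
  · exact Or.inl ⟨n, by rw [hm]; ring⟩
  · exact Or.inr ⟨n - d, by linear_combination hm⟩

theorem cls_rk {D x c : ℤ} {k : ℕ} (hD : Odd D) (hc : (2 : ℤ) ^ k ∣ x - D * c) (hk : 2 ≤ k)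
    (a : ℤ) : ∃ w, D * (x - D * a) = c - a + 4 * w := by
  obtain ⟨m, hm⟩ := (pow_dvd_pow 2 hk).trans hc
  obtain ⟨d, rfl⟩ := hD
  exact ⟨(2 * d + 1) * m + (d ^ 2 + d) * (c - a), by linear_combination (2 * d + 1) * hm⟩

theorem rk_add (p q w z : ℤ) : rk (p + 4 * w) (q + 4 * z) = rk p q := by
  have e1 : (p + 4 * w) % 4 = p % 4 := by omega
  have e2 : (p + 4 * w) % 2 = p % 2 := by omega
  have e3 : (p + 4 * w + (q + 4 * z)) % 2 = (p + q) % 2 := by omega
  unfold rk; rw [e1, e2, e3]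

theorem good_sq {real : Bool} {D x y : ℤ} (hD : 0 < D) (ho : real = false → Odd D)
    (h1 : |(x : ℝ) + y * √14| < D) (h2 : |(x : ℝ) - y * √14| < D) : Good real D x y := by
  have hD' : (0 : ℝ) < D := by exact_mod_cast hD
  have par : ∀ x y : ℤ, Odd x → ¬ (2 : ℤ) ^ (0 + 1) ∣ Nf x y := fun x y hx h =>
    (Int.not_even_iff_odd.2 hx) (even_iff_two_dvd.2 (by simpa using val_odd 0 x y h))
  have h0 : |Nf x y| < D ^ 2 := by
    have : |(Nf x y : ℝ)| < D ^ 2 := by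
      rw [Nf_real, abs_mul, sq]
      exact mul_lt_mul'' h1 h2 (abs_nonneg _) (abs_nonneg _)
    exact_mod_cast this
  cases real with
  | true => exact ⟨0, 0, 0, Or.inl rfl, by simpa using h0⟩
  | false =>
  have hodd := ho rfl
  rcases Int.even_or_odd x with hx | hx
  swap
  · exact ⟨0, 0, 0, Or.inr (Or.inr (par _ _ (by simpa using hx))), by simpa using h0⟩
  by_cases hz : Nf x y = 0
  · exact ⟨0, 0, 0, Or.inr (Or.inl (by simpa using hz)), by simpa using h0⟩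
  have hz' : ((x : ℝ) + y * √14) * (x - y * √14) ≠ 0 := by
    rw [← Nf_real]; exact_mod_cast hz
  rw [abs_lt] at h1 h2
  have key : ((x : ℝ) + y * √14 - D) * (x - y * √14 - D) < D ^ 2 ∨
      ((x : ℝ) + y * √14 + D) * (x - y * √14 + D) < D ^ 2 := by
    generalize (x : ℝ) + y * √14 = u at *
    generalize (x : ℝ) - y * √14 = v at *
    by_contra hc
    push Not at hc
    obtain ⟨c1, c2⟩ := hc
    have hu := left_ne_zero_of_mul hz'
    have hv := right_ne_zero_of_mul hz'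
    rcases lt_or_gt_of_ne hu with hu | hu <;> rcases lt_or_gt_of_ne hv with hv | hv <;> nlinarith
  rcases key with key | key
  · refine ⟨1, 0, 0, Or.inr (Or.inr (par _ _ (by simpa using hx.sub_odd hodd))), ?_⟩
    have : |(Nf (x - D * 1) (y - D * 0) : ℝ)| < D ^ 2 := by
      rw [Nf_real, abs_lt]; push_cast
      constructor <;> nlinarith
    have : |Nf (x - D * 1) (y - D * 0)| < D ^ 2 := by exact_mod_cast this
    simpa using this
  · refine ⟨-1, 0, 0, Or.inr (Or.inr (par _ _ (by simpa using hx.add_odd hodd))), ?_⟩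
    have : |(Nf (x - D * -1) (y - D * 0) : ℝ)| < D ^ 2 := by
      rw [Nf_real, abs_lt]; push_cast
      constructor <;> nlinarith
    have : |Nf (x - D * -1) (y - D * 0)| < D ^ 2 := by exact_mod_cast this
    simpa using this

theorem good_shift {real : Bool} {D x y : ℤ} (a b : ℤ) (h : Good real D (x - D * a) (y - D * b)) :
    Good real D x y := by
  obtain ⟨a', b', V, h⟩ := h
  refine ⟨a + a', b + b', V, ?_⟩
  rwa [mul_add, mul_add, ← sub_sub, ← sub_sub]

theorem chk_sound (real main : Bool) {D x y : ℤ} (hD : 0 < D) (ho : real = false → Odd D) (t : T) :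
    ∀ (ul uh vl vh : ℤ) (k0 : ℕ) (c0 : ℤ) (k1 : ℕ) (c1 : ℤ),
      chk real main t ul uh vl vh k0 c0 k1 c1 = true →
      (ul : ℝ) * D ≤ S * (x + y * √14) → S * (x + y * √14) ≤ (uh : ℝ) * D →
      (vl : ℝ) * D ≤ S * (x - y * √14) → S * (x - y * √14) ≤ (vh : ℝ) * D →
      (2 : ℤ) ^ k0 ∣ x - D * c0 → (2 : ℤ) ^ k1 ∣ y - D * c1 →
      Good real D x y ∨ ∃ a b, Trap D (x - D * a) (y - D * b) ∧ (main = true ∨ (real = false ∧
        rk (D * (x - D * a)) (D * (y - D * b)) < rk (D * x) (D * y))) := by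
  induction t with
  | u l r il ir =>
    intro ul uh vl vh k0 c0 k1 c1 h h1 h2 h3 h4 h5 h6
    simp only [chk, Bool.and_eq_true] at h
    rcases le_total (S * (x + y * √14) : ℝ) ((((ul + uh) / 2 : ℤ) : ℝ) * D) with h7 | h7
    · exact il _ _ _ _ _ _ _ _ h.1 h1 h7 h3 h4 h5 h6
    · exact ir _ _ _ _ _ _ _ _ h.2 h7 h2 h3 h4 h5 h6
  | v l r il ir =>
    intro ul uh vl vh k0 c0 k1 c1 h h1 h2 h3 h4 h5 h6
    simp only [chk, Bool.and_eq_true] at h
    rcases le_total (S * (x - y * √14) : ℝ) ((((vl + vh) / 2 : ℤ) : ℝ) * D) with h7 | h7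
    · exact il _ _ _ _ _ _ _ _ h.1 h1 h2 h3 h7 h5 h6
    · exact ir _ _ _ _ _ _ _ _ h.2 h1 h2 h7 h4 h5 h6
  | x l r il ir =>
    intro ul uh vl vh k0 c0 k1 c1 h h1 h2 h3 h4 h5 h6
    simp only [chk, Bool.and_eq_true, Bool.not_eq_true'] at h
    rcases cls_split (ho h.1.1) h5 with h7 | h7
    · exact il _ _ _ _ _ _ _ _ h.1.2 h1 h2 h3 h4 h7 h6
    · exact ir _ _ _ _ _ _ _ _ h.2 h1 h2 h3 h4 h7 h6
  | y l r il ir =>
    intro ul uh vl vh k0 c0 k1 c1 h h1 h2 h3 h4 h5 h6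
    simp only [chk, Bool.and_eq_true, Bool.not_eq_true'] at h
    rcases cls_split (ho h.1.1) h6 with h7 | h7
    · exact il _ _ _ _ _ _ _ _ h.1.2 h1 h2 h3 h4 h5 h7
    · exact ir _ _ _ _ _ _ _ _ h.2 h1 h2 h3 h4 h5 h7
  | cv a b s t =>
    intro ul uh vl vh k0 c0 k1 c1 h h1 h2 h3 h4 h5 h6
    simp only [chk, Bool.and_eq_true, Bool.or_eq_true, decide_eq_true_eq] at h
    obtain ⟨g1, g2⟩ := h
    have e := bd_prod (m := 1) (a := a) (b := b) (by norm_num) hD h1 h2 h3 h4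
    simp only [one_mul] at e
    refine Or.inl ⟨a, b, if s then 2 * t + 1 else 2 * t, ?_, ?_⟩
    · cases real with
      | true => exact Or.inl rfl
      | false =>
        refine Or.inr (Or.inr fun hd => ?_)
        cases s with
        | true =>
          simp only [Bool.false_eq_true, false_or, if_true, Bool.and_eq_true, decide_eq_true_eq,
            bne_iff_ne] at g1 hd
          exact cls_val (ho rfl) h6 g1.1 g1.2 (val_even (t + 1) _ _ hd).2
        | false =>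
          simp only [Bool.false_eq_true, false_or, if_false, Bool.and_eq_true, decide_eq_true_eq,
            bne_iff_ne] at g1 hd
          exact cls_val (ho rfl) h5 g1.1 g1.2 (val_odd t _ _ hd)
    · generalize (if s then 2 * t + 1 else 2 * t) = V at *
      have hS : 0 < S * S := by norm_num [S]
      apply lt_of_mul_lt_mul_left (a := S * S) _ hS.le
      calc S * S * (|Nf (x - D * a) (y - D * b)| * 28 ^ V)
          = S * S * |Nf (x - D * a) (y - D * b)| * 28 ^ V := by ring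
        _ ≤ bd 1 ul uh a b * bd 1 vl vh a (-b) * D ^ 2 * 28 ^ V := by gcongr
        _ = bd 1 ul uh a b * bd 1 vl vh a (-b) * 28 ^ V * D ^ 2 := by ring
        _ < S * S * 25 ^ V * D ^ 2 := by gcongr
        _ = _ := by ring
  | sq a b =>
    intro ul uh vl vh k0 c0 k1 c1 h h1 h2 h3 h4 h5 h6
    simp only [chk, Bool.and_eq_true, decide_eq_true_eq] at h
    have hD' : (0 : ℝ) < D := by exact_mod_cast hD
    have e1 := bd_le (m := 1) (a := a) (b := b) (by norm_num) hD h1 h2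
    have e2 := bd_le (m := 1) (a := a) (b := -b) (by norm_num) hD h3 h4
    have g1 : (bd 1 ul uh a b : ℝ) * D < S * D := by gcongr; exact_mod_cast h.1
    have g2 : (bd 1 vl vh a (-b) : ℝ) * D < S * D := by gcongr; exact_mod_cast h.2
    refine Or.inl (good_shift a b (good_sq hD ho ?_ ?_))
    · have := lt_of_mul_lt_mul_left (e1.trans_lt g1) S_pos.le
      rw [abs_lt] at this ⊢
      push_cast at this ⊢
      constructor <;> linarith
    · have := lt_of_mul_lt_mul_left (e2.trans_lt g2) S_pos.le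
      rw [abs_lt] at this ⊢
      push_cast at this ⊢
      constructor <;> linarith
  | tr a b =>
    intro ul uh vl vh k0 c0 k1 c1 h h1 h2 h3 h4 h5 h6
    simp only [chk, Bool.and_eq_true, Bool.or_eq_true, decide_eq_true_eq, Bool.not_eq_true'] at h
    obtain ⟨g1, g2⟩ := h
    have e := bd_prod (m := 2) (a := 2 * a + 1) (b := 2 * b + 1) (by norm_num) hD h1 h2 h3 h4
    refine Or.inr ⟨a, b, ?_, g2.imp id fun g => ⟨g.1.1.1, ?_⟩⟩
    · unfold Trap
      have e1 : 2 * (x - D * a) - D = 2 * x - D * (2 * a + 1) := by ring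
      have e2 : 2 * (y - D * b) - D = 2 * y - D * (2 * b + 1) := by ring
      rw [e1, e2]
      have hS : 0 < S * S := by norm_num [S]
      apply le_of_mul_le_mul_left (a := S * S) _ hS
      have := mul_le_mul_of_nonneg_right g1 (sq_nonneg D)
      linarith
    · obtain ⟨w1, e1⟩ := cls_rk (ho g.1.1.1) h5 g.1.1.2 a
      obtain ⟨w2, e2⟩ := cls_rk (ho g.1.1.1) h6 g.1.2 b
      obtain ⟨w3, e3⟩ := cls_rk (ho g.1.1.1) h5 g.1.1.2 0
      obtain ⟨w4, e4⟩ := cls_rk (ho g.1.1.1) h6 g.1.2 0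
      simp only [mul_zero, sub_zero] at e3 e4
      rw [e1, e2, e3, e4, rk_add, rk_add]
      exact g.2

end Pool.Agent.H400Z.Win
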