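import Mathlib
import Pool.Agent.H400Z.Win.Chk

set_option autoImplicit false
set_option maxRecDepth 100000

namespace Pool.Agent.H400Z.Win

def tree_real_main : T := .u (.v (.u (.u (.u (.v (.v (.v (.tr (-3) 0) (.cv (-4) 0 false 0)) (.v (.v (.cv 0 1 false 0) (.v (.cv 0 1 false 0) (.cv (-11) (-2) false 0))) (.v (.v (.v (.cv 4 2 false 0) (.v (.cv 4 2 false 0) (.cv (-3) 0 false 0))) (.cv (-3) 0 false 0)) (.cv (-3) 0 false 0)))) (.cv (-1) 0 false 0)) (.cv (-8) 2 false 0)) (.v (.v (.cv (-4) 1 false 0) (.u (.u (.cv 7 (-2) false 0) (.cv (-4) 1 false 0)) (.cv (-4) 1 false 0))) (.u (.u (.cv 7 (-2) false 0) (.u (.cv 7 (-2) false 0) (.v (.cv (-4) 1 false 0) (.cv (-1) 0 false 0)))) (.cv (-4) 1 false 0)))) (.u (.cv (-4) 1 false 0) (.cv 0 0 false 0))) (.v (.cv (-1) 0 false 0) (.cv 0 0 false 0))) (.v (.u (.cv 0 0 false 0) (.v (.v (.v (.v (.v (.u (.u (.cv 4 (-1)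 false 0) (.u (.cv 4 (-1) false 0) (.u (.u (.cv 4 (-1) false 0) (.cv (-3) 1 false 0)) (.cv (-3) 1 false 0)))) (.cv (-3) 1 false 0)) (.cv (-8) (-1) false 0)) (.v (.v (.cv (-8) (-1) false 0) (.cv (-4) 0 false 0)) (.cv (-4) 0 false 0))) (.v (.cv (-4) 0 false 0) (.cv 0 1 false 0))) (.v (.cv 0 1 false 0) (.v (.tr (-2) 0) (.v (.cv (-7) (-1) false 0) (.cv (-3) 0 false 0))))) (.u (.u (.cv 0 0 false 0) (.u (.cv 4 (-1) false 0) (.u (.cv 4 (-1) false 0) (.v (.tr (-2) 0) (.cv 0 0 false 0))))) (.u (.u (.v (.tr (-2) 0) (.v (.tr (-2) 0) (.cv (-2) 0 false 0))) (.u (.v (.v (.cv (-3) 0 false 0) (.cv 1 1 false 0)) (.v (.v (.v (.cv (-10) (-2) false 0) (.v (.cv 5 2 false 0) (.v (.cv 5 2 false 0) (.cv 0 0 false 0)))) (.cv (-2) 0 false 0)) (.cv (-2) 0 false 0))) (.cv (-7) 2 false 0))) (.cv (-7) 2 false 0))))) (.cv 0 0 false 0))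

def tree_real_trap : T := .u (.u (.u (.u (.cv (-5) 2 false 0) (.cv (-1) 1 false 0)) (.cv (-1) 1 false 0)) (.u (.cv 3 0 false 0) (.u (.u (.u (.cv 3 0 false 0) (.cv 7 (-1) false 0)) (.cv 7 (-1) false 0)) (.v (.cv 2 1 false 0) (.v (.v (.v (.v (.cv 2 1 false 0) (.v (.v (.cv 2 1 false 0) (.cv (-5) (-1) false 0)) (.cv (-5) (-1) false 0))) (.cv (-5) (-1) false 0)) (.v (.cv 10 3 false 0) (.cv (-1) 0 false 0))) (.cv (-1) 0 false 0)))))) (.u (.cv 0 1 false 0) (.v (.cv 2 1 false 0) (.v (.v (.cv 2 1 false 0) (.v (.cv 10 3 false 0) (.v (.cv 10 3 false 0) (.cv (-1) 0 false 0)))) (.cv (-1) 0 false 0))))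

def t1 : T := .u (.u (.v (.v (.tr (-3) 0) (.u (.tr (-3) 0) (.x (.y (.x (.v (.v (.tr (-3) 0) (.v (.tr (-3) 0) (.u (.tr (-3) 0) (.u (.tr (-3) 0) (.v (.tr (-3) 0) (.cv 0 1 true 0)))))) (.cv 0 1 true 0)) (.cv (-4) 0 false 1)) (.cv (-4) 0 true 0)) (.cv (-4) 0 false 0)))) (.u (.u (.tr (-3) 0) (.v (.v (.tr (-3) 0) (.v (.tr (-3) 0) (.u (.tr (-3) 0) (.u (.tr (-3) 0) (.u (.tr (-3) 0) (.x (.cv (-11) (-2) false 0) (.cv (-8) 2 false 0))))))) (.x (.cv (-1) 0 false 0) (.u (.v (.tr (-3) 0) (.u (.tr (-3) 0) (.u (.tr (-3) 0) (.v (.tr (-3) 0) (.u (.tr (-3) 0) (.v (.v (.tr (-3) 0) (.v (.tr (-3) 0) (.u (.tr (-3) 0) (.u (.tr (-3) 0) (.v (.tr (-3) 0) (.u (.tr (-3) 0) (.y (.cv (-7) (-1) true 0) (.cv (-1) 0 true 0)))))))) (.y (.v (.cv (-7) (-1) true 0) (.cv 63 (-17) true 0)) (.cv (-1) 0 true 0)))))))) (.u (.u (.v (.tr (-3) 0) (.v (.y (.cv (-7) (-1) true 0) (.cv (-3)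 0 true 0)) (.v (.cv 8 3 false 0) (.y (.v (.cv (-7) (-1) true 0) (.cv 63 (-17) true 0)) (.cv (-1) 0 true 0))))) (.cv (-270) 72 false 0)) (.u (.v (.v (.cv (-8) 2 false 0) (.u (.u (.v (.cv (-8) 2 false 0) (.y (.v (.v (.tr (-2) 0) (.cv (-7) (-1) true 0)) (.cv (-7) (-1) true 0)) (.cv (-3) 0 true 0))) (.cv (-8) 2 false 0)) (.cv (-8) 2 false 0))) (.v (.u (.y (.cv (-7) (-1) true 0) (.cv (-3) 0 true 0)) (.cv (-8) 2 false 0)) (.v (.cv 8 3 false 0) (.y (.v (.cv (-7) (-1) true 0) (.v (.v (.cv (-7) (-1) true 0) (.v (.cv (-7) (-1) true 0) (.v (.cv (-7) (-1) true 0) (.cv 38 11 false 0)))) (.cv 38 11 false 0))) (.cv (-1) 0 true 0))))) (.cv (-8) 2 false 0))))))) (.x (.v (.u (.y (.v (.cv 0 1 true 0) (.v (.cv 0 1 true 0) (.cv (-11) (-2) false 0))) (.u (.u (.v (.tr (-3) 0) (.v (.cv (-38) 10 true 0) (.cv (-11) (-2) false 0))) (.cv (-8) 2 true 0)) (.cv (-8) 2 true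 0))) (.u (.u (.y (.v (.cv 0 1 true 0) (.v (.cv 0 1 true 0) (.cv (-11) (-2) false 0))) (.cv (-8) 2 true 0)) (.cv (-23) 6 false 0)) (.cv (-23) 6 false 0))) (.v (.v (.v (.cv 19 6 false 0) (.v (.y (.x (.cv 34 10 false 1) (.u (.v (.cv 4 2 false 1) (.y (.cv 34 10 true 1) (.x (.v (.y (.x (.u (.u (.cv (-1) 0 false 0) (.u (.cv (-1) 0 false 0) (.u (.cv (-1) 0 false 0) (.u (.cv (-1) 0 false 0) (.cv (-38) 10 false 3))))) (.u (.cv (-38) 10 false 3) (.cv (-8) 2 false 1))) (.cv 34 10 false 3)) (.cv 34 10 true 2)) (.cv (-3) 0 false 0)) (.cv 34 10 false 2)))) (.cv (-8) 2 false 1))) (.v (.cv 4 2 true 0) (.v (.cv 4 2 true 0) (.u (.cv (-3) 0 false 0) (.cv (-8) 2 true 0))))) (.cv (-3) 0 false 0))) (.cv (-3) 0 false 0)) (.cv (-3) 0 false 0))) (.cv (-8) 2 false 0)))) (.x (.u (.u (.cv (-23) 6 false 0) (.u (.cv (-23) 6 false 0) (.cv 7 (-2) false 0))) (.cv 7 (-2) false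 0)) (.cv (-8) 2 false 0))) (.v (.x (.u (.u (.cv 7 (-2) false 0) (.u (.cv 7 (-2) false 0) (.u (.y (.cv (-4) 1 true 0) (.v (.v (.tr (-3) 0) (.cv (-4) 0 true 0)) (.cv (-4) 0 true 0))) (.cv 37 (-10) false 0)))) (.y (.cv (-4) 1 true 0) (.v (.v (.v (.tr (-3) 0) (.v (.tr (-3) 0) (.cv 7 3 false 0))) (.cv (-4) 0 true 0)) (.cv (-4) 0 true 0)))) (.cv (-4) 1 false 0)) (.v (.x (.u (.u (.cv 7 (-2) false 0) (.u (.cv 7 (-2) false 0) (.u (.u (.cv 7 (-2) false 0) (.u (.cv 7 (-2) false 0) (.cv 37 (-10) false 0))) (.cv 37 (-10) false 0)))) (.y (.cv (-4) 1 true 0) (.x (.y (.u (.u (.u (.cv 37 (-10) false 0) (.u (.cv 37 (-10) false 0) (.x (.cv (-4) 1 false 2) (.v (.cv 0 1 false 2) (.v (.v (.v (.cv 0 1 false 2) (.v (.cv 0 1 false 2) (.cv (-41) (-10) false 0))) (.v (.v (.cv 75 21 false 0) (.cv (-11) (-2) false 0)) (.cv (-11) (-2) false 0))) (.cv (-11) (-2) false 0))))))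 (.x (.cv (-4) 1 false 2) (.v (.cv 0 1 false 2) (.v (.u (.v (.v (.cv 0 1 false 2) (.v (.cv 0 1 false 2) (.cv (-41) (-10) false 0))) (.v (.v (.cv 75 21 false 0) (.cv (-11) (-2) false 0)) (.cv (-11) (-2) false 0))) (.u (.cv (-64) 17 false 2) (.cv 52 (-14) true 0))) (.cv (-11) (-2) false 0))))) (.x (.cv (-4) 1 false 2) (.y (.v (.cv 0 1 false 2) (.v (.v (.v (.cv 0 1 false 2) (.v (.cv 0 1 false 2) (.cv (-41) (-10) false 0))) (.v (.v (.cv 75 21 false 0) (.cv (-11) (-2) false 0)) (.cv (-11) (-2) false 0))) (.cv (-11) (-2) false 0))) (.cv (-4) 1 true 2)))) (.cv (-4) 1 true 1)) (.cv (-4) 1 false 1)))) (.cv (-4) 1 false 0)) (.u (.v (.v (.u (.x (.cv 7 (-2) false 0) (.cv (-8) 2 false 0)) (.x (.u (.cv 7 (-2) false 0) (.u (.u (.cv 7 (-2) false 0) (.u (.cv 7 (-2) false 0) (.u (.cv 7 (-2) false 0) (.cv 37 (-10) false 0)))) (.cv 37 (-10) false 0))) (.cv (-4) 1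 false 0))) (.v (.tr (-2) 0) (.x (.cv (-7) (-1) false 0) (.u (.cv (-8) 2 false 0) (.cv (-4) 1 false 0))))) (.x (.cv (-3) 0 false 0) (.u (.cv (-8) 2 false 0) (.cv (-4) 1 false 0)))) (.x (.v (.v (.y (.cv (-4) 1 true 0) (.v (.cv 4 2 true 0) (.x (.y (.v (.v (.cv 4 2 true 0) (.v (.cv 4 2 true 0) (.v (.cv 4 2 true 0) (.v (.cv 4 2 true 0) (.v (.cv 4 2 true 0) (.tr (-2) 0)))))) (.tr (-2) 0)) (.cv (-4) 1 true 1)) (.cv (-4) 1 false 1)))) (.v (.tr (-2) 0) (.cv (-3) 0 false 0))) (.cv (-3) 0 false 0)) (.cv (-4) 1 false 0)))))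

def t2 : T := .u (.x (.u (.cv (-11) 3 false 0) (.u (.cv (-11) 3 false 0) (.v (.y (.cv 4 (-1) true 0) (.x (.y (.cv 4 (-1) true 1) (.x (.cv 4 (-1) false 2) (.y (.cv 4 (-1) true 2) (.x (.y (.cv 4 (-1) true 3) (.x (.u (.cv (-11) 3 false 0) (.cv (-97) 26 false 0)) (.cv 4 (-1) false 4))) (.cv 4 (-1) false 3))))) (.cv 4 (-1) false 1))) (.cv 19 (-5) false 0)))) (.cv 4 (-1) false 0)) (.u (.x (.v (.u (.cv 19 (-5) false 0) (.y (.cv 4 (-1) true 0) (.u (.cv 19 (-5) false 0) (.u (.cv (-82) 22 true 0) (.u (.cv (-82) 22 true 0) (.x (.cv 34 (-9) false 1) (.cv 4 (-1) false 1))))))) (.u (.cv 19 (-5) false 0) (.y (.cv 4 (-1) true 0) (.v (.v (.cv 7 3 false 0) (.cv (-4) 0 true 0)) (.cv (-4) 0 true 0))))) (.cv 4 (-1) false 0)) (.u (.u (.x (.v (.y (.u (.cv 4 (-1) true 0) (.u (.cv 4 (-1) true 0) (.u (.cv 4 (-1) true 0) (.u (.cv 4 (-1) true 0) (.v (.cv (-3) 1 false 0)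 (.cv 4 (-1) true 0)))))) (.x (.cv 34 (-9) false 1) (.v (.v (.cv (-1) 1 false 0) (.y (.cv 34 (-9) true 1) (.x (.y (.cv 34 (-9) true 2) (.v (.v (.cv (-1) 1 false 0) (.v (.v (.cv (-1) 1 false 0) (.v (.cv (-1) 1 false 0) (.u (.v (.cv (-1) 1 false 0) (.x (.cv (-38) (-9) false 3) (.cv 34 (-9) false 3))) (.cv (-1) 1 false 0)))) (.x (.cv (-38) (-9) false 3) (.u (.cv 34 (-9) false 3) (.u (.u (.u (.v (.cv (-3) 1 false 0) (.v (.u (.cv 34 (-9) false 3) (.cv (-3) 1 false 0)) (.cv (-8) (-1) false 1))) (.cv (-3) 1 false 0)) (.cv (-3) 1 false 0)) (.cv (-3) 1 false 0)))))) (.cv (-8) (-1) false 1))) (.cv 34 (-9) false 2)))) (.cv (-8) (-1) false 1)))) (.y (.cv 4 (-1) true 0) (.v (.v (.cv 7 3 false 0) (.cv (-4) 0 true 0)) (.cv (-4) 0 true 0)))) (.cv 4 (-1) false 0)) (.u (.x (.v (.y (.v (.cv (-3) 1 false 0) (.cv (-8) (-1) true 0)) (.u (.cv 150 (-40) true 0) (.v (.cv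 (-3) 1 false 0) (.v (.v (.v (.cv (-3) 1 false 0) (.v (.cv (-3) 1 false 0) (.v (.cv (-3) 1 false 0) (.u (.u (.u (.x (.y (.cv (-8) (-1) true 1) (.x (.y (.cv (-8) (-1) true 2) (.x (.cv (-8) (-1) false 3) (.y (.cv (-8) (-1) true 3) (.x (.cv (-8) (-1) false 4) (.y (.cv (-8) (-1) true 4) (.v (.cv (-3) 1 false 0) (.cv (-23) (-5) false 0))))))) (.cv (-8) (-1) false 2))) (.cv (-8) (-1) false 1)) (.cv (-3) 1 false 0)) (.cv (-3) 1 false 0)) (.cv (-3) 1 false 0))))) (.v (.x (.y (.cv (-8) (-1) true 1) (.x (.y (.cv (-8) (-1) true 2) (.x (.cv (-8) (-1) false 3) (.y (.cv (-8) (-1) true 3) (.x (.cv (-8) (-1) false 4) (.y (.cv (-8) (-1) true 4) (.x (.cv (-8) (-1) false 5) (.v (.u (.cv (-23) (-5) false 0) (.cv (-3) 1 false 0)) (.cv 7 3 false 0)))))))) (.cv (-8) (-1) false 2))) (.cv (-8) (-1) false 1)) (.cv 7 3 false 0))) (.cv 7 3 false 0))))) (.v (.v (.cv 7 3 false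 0) (.y (.u (.cv 34 (-9) true 0) (.tr (-2) 0)) (.cv (-4) 0 true 0))) (.v (.v (.v (.u (.u (.u (.u (.v (.u (.y (.cv 4 (-1) true 0) (.cv (-4) 0 true 0)) (.tr (-2) 0)) (.tr (-2) 0)) (.tr (-2) 0)) (.tr (-2) 0)) (.tr (-2) 0)) (.tr (-2) 0)) (.tr (-2) 0)) (.tr (-2) 0)) (.tr (-2) 0)))) (.cv 4 (-1) false 0)) (.v (.v (.x (.cv (-3) 1 false 0) (.u (.cv 4 (-1) false 0) (.u (.cv 4 (-1) false 0) (.u (.cv 4 (-1) false 0) (.v (.tr (-3) 0) (.cv 4 (-1) false 0)))))) (.x (.v (.v (.cv (-3) 1 false 0) (.v (.cv (-3) 1 false 0) (.cv 7 3 false 0))) (.cv 7 3 false 0)) (.cv 4 (-1) false 0))) (.tr (-2) 0)))) (.v (.v (.v (.tr (-3) 0) (.tr (-2) 0)) (.tr (-2) 0)) (.tr (-2) 0))))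

def t3 : T := .u (.x (.v (.u (.y (.x (.y (.x (.v (.v (.v (.v (.tr (-3) 0) (.v (.v (.tr (-3) 0) (.cv (-8) (-1) true 0)) (.cv (-8) (-1) true 0))) (.cv (-8) (-1) true 0)) (.y (.x (.y (.x (.y (.v (.v (.cv 7 3 false 0) (.x (.v (.cv 7 3 false 0) (.cv 37 11 false 0)) (.cv 0 0 false 5))) (.cv (-4) 0 false 2)) (.cv 0 0 true 4)) (.cv 0 0 false 4)) (.cv 0 0 true 3)) (.cv 0 0 false 3)) (.cv 0 0 true 2))) (.v (.cv (-4) 0 false 2) (.cv 0 1 true 0))) (.cv 0 0 false 2)) (.cv 0 0 true 1)) (.cv 0 0 false 1)) (.cv 0 0 true 0)) (.u (.y (.x (.y (.u (.u (.x (.v (.v (.v (.v (.tr (-3) 0) (.v (.v (.tr (-3) 0) (.cv (-8) (-1) true 0)) (.cv (-8) (-1) true 0))) (.cv (-8) (-1) true 0)) (.y (.x (.y (.x (.v (.v (.cv (-8) (-1) true 0) (.v (.cv 7 3 false 0) (.cv 37 11 false 0))) (.cv (-4) 0 false 2)) (.cv 0 0 false 4)) (.cv 0 0 true 3)) (.cv 0 0 false 3)) (.cv 0 0 true 2)))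 (.v (.cv (-4) 0 false 2) (.cv 0 1 true 0))) (.cv 0 0 false 2)) (.u (.cv 45 (-12) false 0) (.u (.cv 45 (-12) false 0) (.u (.cv 45 (-12) false 0) (.tr (-6) 1))))) (.u (.u (.x (.v (.v (.v (.v (.tr (-3) 0) (.v (.y (.v (.tr (-3) 0) (.cv (-8) (-1) true 0)) (.cv 0 0 true 2)) (.cv (-8) (-1) true 0))) (.cv (-8) (-1) true 0)) (.y (.u (.tr (-6) 1) (.u (.cv (-172) 46 true 1) (.cv (-56) 15 true 0))) (.cv 0 0 true 2))) (.v (.cv (-4) 0 false 2) (.cv 0 1 true 0))) (.cv 0 0 false 2)) (.cv (-56) 15 true 0)) (.v (.v (.v (.v (.tr (-3) 0) (.v (.v (.tr (-3) 0) (.cv (-8) (-1) true 0)) (.cv (-8) (-1) true 0))) (.cv (-8) (-1) true 0)) (.x (.v (.v (.cv (-8) (-1) true 0) (.v (.cv 7 3 false 0) (.cv 37 11 false 0))) (.cv (-4) 0 false 2)) (.cv 0 0 false 2))) (.v (.x (.cv (-4) 0 false 2) (.cv 0 0 false 2)) (.cv 0 1 true 0))))) (.cv 0 0 true 1)) (.cv 0 0 false 1)) (.cv 0 0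 true 0)) (.u (.u (.cv (-41) 11 false 0) (.u (.u (.cv (-41) 11 false 0) (.y (.x (.u (.cv 75 (-20) false 0) (.cv (-11) 3 false 0)) (.cv 0 0 false 1)) (.cv 0 0 true 0))) (.cv (-11) 3 false 0))) (.cv (-11) 3 false 0)))) (.y (.v (.v (.cv 0 1 true 0) (.v (.cv 0 1 true 0) (.cv (-11) (-2) false 0))) (.x (.v (.v (.v (.y (.cv 4 2 true 1) (.u (.cv 0 0 true 1) (.tr (-2) 0))) (.tr (-2) 0)) (.tr (-2) 0)) (.v (.cv (-7) (-1) false 0) (.cv (-3) 0 false 0))) (.cv 0 0 false 1))) (.cv 0 0 true 0))) (.cv 0 0 false 0)) (.u (.v (.v t2 (.u (.x (.u (.cv (-11) 3 false 0) (.u (.cv (-11) 3 false 0) (.cv 19 (-5) false 0))) (.cv (-4) 0 false 0)) (.u (.x (.u (.cv 19 (-5) false 0) (.y (.cv 4 (-1) true 0) (.v (.cv (-4) 0 true 0) (.v (.cv (-4) 0 true 0) (.v (.cv (-4) 0 true 0) (.tr (-2) 0)))))) (.cv 4 (-1) false 0)) (.v (.u (.u (.x (.y (.cv 4 (-1) true 0) (.cv (-4) 0 true 0))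 (.cv 4 (-1) false 0)) (.tr (-2) 0)) (.tr (-2) 0)) (.tr (-2) 0))))) (.v (.x (.u (.u (.cv (-11) 3 false 0) (.u (.cv (-11) 3 false 0) (.v (.cv 19 (-5) false 0) (.tr (-2) 0)))) (.v (.v (.u (.u (.u (.y (.cv 4 (-1) true 0) (.x (.y (.cv 4 (-1) true 1) (.cv 0 1 true 1)) (.cv 4 (-1) false 1))) (.tr (-2) 0)) (.tr (-2) 0)) (.tr (-2) 0)) (.tr (-2) 0)) (.tr (-2) 0))) (.cv 0 1 false 0)) (.v (.tr (-2) 0) (.v (.tr (-2) 0) (.v (.tr (-2) 0) (.u (.u (.u (.u (.x (.cv (-3) 0 false 0) (.cv 4 (-1) false 0)) (.v (.tr (-2) 0) (.v (.tr (-2) 0) (.u (.v (.tr (-2) 0) (.x (.cv (-3) 0 false 0) (.cv 4 (-1) false 0))) (.tr (-2) 0))))) (.tr (-2) 0)) (.tr (-2) 0)) (.tr (-2) 0))))))) (.v (.u (.u (.tr (-2) 0) (.x (.cv (-7) 2 false 0) (.v (.v (.v (.y (.cv (-3) 1 true 0) (.u (.u (.u (.tr (-2) 0) (.cv (-7) 2 true 0)) (.cv (-7) 2 true 0)) (.cv (-7) 2 true 0))) (.cv (-8) (-1) false 0))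 (.v (.v (.cv (-8) (-1) false 0) (.cv (-4) 0 false 0)) (.cv (-4) 0 false 0))) (.v (.cv (-4) 0 false 0) (.cv 0 1 false 0))))) (.x (.cv (-7) 2 false 0) (.v (.v (.v (.u (.cv (-22) 6 false 0) (.u (.u (.cv (-22) 6 false 0) (.cv 8 (-2) false 0)) (.cv 8 (-2) false 0))) (.cv (-8) (-1) false 0)) (.v (.v (.cv (-8) (-1) false 0) (.cv (-4) 0 false 0)) (.cv (-4) 0 false 0))) (.v (.cv (-4) 0 false 0) (.cv 0 1 false 0))))) (.v (.x (.u (.tr (-2) 0) (.cv (-7) 2 false 0)) (.cv 0 1 false 0)) (.tr (-2) 0))))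

def t4 : T := .u (.u (.u (.x (.cv (-1) 0 false 0) (.v (.u (.y (.v (.x (.y (.x (.cv (-3) 0 false 2) (.y (.x (.cv (-3) 0 false 3) (.y (.x (.cv (-3) 0 false 4) (.u (.tr (-3) 0) (.u (.cv 63 (-17) true 0) (.u (.u (.cv 63 (-17) true 0) (.cv 179 (-48) false 1)) (.u (.u (.cv 179 (-48) false 1) (.u (.cv 179 (-48) false 1) (.u (.v (.v (.v (.cv (-8) 2 false 0) (.u (.y (.x (.cv (-3) 0 false 5) (.v (.cv (-8) 2 false 0) (.v (.u (.cv (-48) (-12) false 0) (.cv (-8) 2 false 0)) (.v (.cv 68 19 false 0) (.v (.cv 68 19 false 0) (.v (.cv 68 19 false 0) (.cv (-265) (-70) false 1))))))) (.cv (-3) 0 true 4)) (.cv (-8) 2 false 0))) (.v (.v (.v (.y (.x (.cv (-3) 0 false 5) (.y (.x (.cv (-3) 0 false 6) (.y (.x (.cv (-3) 0 false 7) (.v (.v (.cv 184 50 false 0) (.cv 1077 (-288) false 3)) (.cv (-33) (-8) false 1))) (.cv (-3) 0 true 6))) (.cv (-3) 0 true 5))) (.cv (-3) 0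 true 4)) (.cv (-33) (-8) false 1)) (.v (.cv (-33) (-8) false 1) (.cv (-18) (-4) false 0))) (.cv (-18) (-4) false 0))) (.v (.v (.v (.v (.y (.x (.cv (-3) 0 false 5) (.y (.x (.cv (-3) 0 false 6) (.y (.x (.cv (-3) 0 false 7) (.y (.x (.cv (-3) 0 false 8) (.y (.x (.cv (-3) 0 false 9) (.y (.x (.cv (-3) 0 false 10) (.y (.x (.cv (-3) 0 false 11) (.y (.x (.cv (-3) 0 false 12) (.y (.x (.cv (-3) 0 false 13) (.y (.x (.cv (-3) 0 false 14) (.y (.x (.cv (-3) 0 false 15) (.y (.x (.cv (-3) 0 false 16) (.y (.x (.cv (-3) 0 false 17) (.y (.v (.cv (-18) (-4) false 0) (.cv 12 4 false 0)) (.cv (-3) 0 true 17))) (.cv (-3) 0 true 16))) (.cv (-3) 0 true 15))) (.cv (-3) 0 true 14))) (.cv (-3) 0 true 13))) (.cv (-3) 0 true 12))) (.cv (-3) 0 true 11))) (.cv (-3) 0 true 10))) (.cv (-3) 0 true 9))) (.cv (-3) 0 true 8))) (.cv (-3) 0 true 7))) (.cv (-3) 0 true 6))) (.cv (-3)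 0 true 5))) (.cv (-3) 0 true 4)) (.cv 12 4 false 0)) (.cv 12 4 false 0)) (.cv (-1) 0 false 1)) (.cv (-1) 0 false 1))) (.cv (-38) 10 false 0)))) (.u (.cv (-38) 10 false 0) (.cv (-8) 2 false 0))))))) (.cv (-3) 0 true 3))) (.cv (-3) 0 true 2))) (.cv (-3) 0 true 1)) (.cv (-3) 0 false 1)) (.v (.cv 1 1 true 0) (.cv (-2) 0 false 0))) (.cv (-1) 0 true 0)) (.v (.cv (-8) 2 false 0) (.u (.u (.u (.u (.v (.cv (-8) 2 false 0) (.cv (-2) 0 false 0)) (.cv (-8) 2 false 0)) (.cv (-8) 2 false 0)) (.cv (-8) 2 false 0)) (.cv (-8) 2 false 0)))) (.cv (-2) 0 false 0))) (.x (.v (.v (.cv (-3) 0 false 0) (.cv (-1) 0 false 0)) (.cv (-1) 0 false 0)) (.cv (-8) 2 false 0))) (.v (.v (.x (.cv (-3) 0 false 0) (.u (.u (.cv (-8) 2 false 0) (.cv (-4) 1 false 0)) (.cv (-4) 1 false 0))) (.u (.v (.x (.cv 1 1 false 0) (.u (.cv (-8) 2 false 0) (.cv (-4) 1 false 0))) (.x (.cv (-1) 0 false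 0) (.u (.cv (-8) 2 false 0) (.u (.u (.cv (-8) 2 false 0) (.cv (-4) 1 false 0)) (.cv (-4) 1 false 0))))) (.x (.cv 1 1 false 0) (.cv (-4) 1 false 0)))) (.x (.v (.v (.v (.cv 5 2 false 0) (.cv (-1) 0 false 0)) (.cv (-1) 0 false 0)) (.cv (-1) 0 false 0)) (.cv (-2) 0 false 0)))) (.v (.v (.x (.cv (-3) 0 false 0) (.cv (-4) 1 false 0)) (.x (.cv 1 1 false 0) (.cv 0 0 false 0))) (.x (.y (.u (.cv (-4) 1 true 0) (.v (.u (.cv (-4) 1 true 0) (.u (.cv (-4) 1 true 0) (.x (.y (.x (.y (.x (.y (.x (.y (.x (.y (.x (.u (.u (.u (.v (.cv (-4) 1 true 0) (.cv (-2) 0 false 1)) (.v (.cv (-4) 1 true 0) (.cv (-2) 0 false 1))) (.u (.v (.v (.cv (-10) (-2) false 1) (.v (.cv 5 2 false 0) (.v (.cv 5 2 false 0) (.cv (-2) 0 false 1)))) (.cv (-2) 0 false 1)) (.u (.cv 71 (-19) false 0) (.cv (-262) 70 false 1)))) (.u (.u (.y (.v (.v (.cv (-10) (-2) false 1) (.v (.cv 5 2 false 0) (.v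 (.cv 5 2 false 0) (.v (.cv 5 2 false 0) (.cv (-2) 0 false 1))))) (.cv (-2) 0 false 1)) (.cv 0 0 true 6)) (.cv (-30) 8 false 1)) (.cv (-30) 8 false 1))) (.cv 0 0 false 6)) (.cv 0 0 true 5)) (.cv 0 0 false 5)) (.cv 0 0 true 4)) (.cv 0 0 false 4)) (.cv 0 0 true 3)) (.cv 0 0 false 3)) (.cv 0 0 true 2)) (.cv 0 0 false 2)) (.cv 0 0 true 1)) (.cv 0 0 false 1)))) (.u (.cv (-4) 1 true 0) (.u (.u (.cv (-4) 1 true 0) (.u (.cv (-4) 1 true 0) (.u (.cv (-4) 1 true 0) (.x (.cv (-2) 0 false 1) (.cv 0 0 false 1))))) (.x (.cv (-2) 0 false 1) (.cv 0 0 false 1)))))) (.cv 0 0 true 0)) (.cv 0 0 false 0)))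

def t5 : T := .y (.u (.x (.y (.x (.y (.x (.y (.x (.y (.x (.u (.u (.cv (-15) 4 false 0) (.u (.cv (-15) 4 false 0) (.u (.cv (-15) 4 false 0) (.u (.cv (-15) 4 false 0) (.u (.u (.cv (-15) 4 false 0) (.u (.u (.cv (-15) 4 false 0) (.v (.v (.cv 5 2 false 0) (.v (.cv 5 2 false 0) (.v (.cv 5 2 false 0) (.v (.cv 5 2 false 0) (.cv (-15) 4 false 0))))) (.cv (-2) 0 false 1))) (.cv 15 (-4) false 0))) (.cv 15 (-4) false 0)))))) (.u (.cv 15 (-4) false 0) (.u (.cv 15 (-4) false 0) (.cv 30 (-8) false 1)))) (.cv 0 0 false 7)) (.cv 0 0 true 6)) (.cv 0 0 false 6)) (.cv 0 0 true 5)) (.cv 0 0 false 5)) (.cv 0 0 true 4)) (.cv 0 0 false 4)) (.cv 0 0 true 3)) (.cv 0 0 false 3)) (.u (.x (.y (.x (.u (.u (.y (.x (.y (.x (.u (.y (.u (.u (.cv 30 (-8) false 1) (.u (.tr (-21) 5) (.u (.x (.u (.tr (-21) 5) (.u (.cv 1942 (-519) true 0) (.u (.cv 1942 (-519) true 0) (.cv 5418 (-1448)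 false 1)))) (.cv 0 0 false 7)) (.u (.u (.u (.u (.cv 5418 (-1448) false 1) (.u (.cv 5418 (-1448) false 1) (.u (.cv 5418 (-1448) false 1) (.x (.u (.cv 5418 (-1448) false 1) (.v (.v (.cv 5 2 false 0) (.v (.cv 5 2 false 0) (.v (.cv 5 2 false 0) (.v (.cv 5 2 false 0) (.v (.v (.cv 5 2 false 0) (.v (.cv 5 2 false 0) (.v (.cv 5 2 false 0) (.v (.v (.cv 5 2 false 0) (.v (.u (.cv (-1080) (-288) false 3) (.cv (-187) 50 false 0)) (.cv (-182) (-48) false 1))) (.cv (-182) (-48) false 1))))) (.v (.cv (-182) (-48) false 1) (.cv 267 72 false 0))))))) (.v (.v (.v (.v (.v (.cv (-66) (-17) true 0) (.tr (-1) 0)) (.tr (-1) 0)) (.cv (-2) 0 false 1)) (.cv (-2) 0 false 1)) (.cv (-2) 0 false 1)))) (.cv 0 0 false 7))))) (.cv (-187) 50 false 0)) (.cv (-187) 50 false 0)) (.cv (-187) 50 false 0))))) (.cv (-187) 50 false 0)) (.cv 0 0 true 6)) (.cv (-71) 19 false 0)) (.cv 0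 0 false 6)) (.cv 0 0 true 5)) (.cv 0 0 false 5)) (.cv 0 0 true 4)) (.u (.cv 45 (-12) false 0) (.u (.cv 45 (-12) false 0) (.cv 161 (-43) false 0)))) (.u (.u (.u (.u (.tr (-6) 1) (.u (.tr (-6) 1) (.u (.tr (-6) 1) (.u (.tr (-6) 1) (.y (.x (.v (.v (.cv 5 2 false 0) (.v (.cv 5 2 false 0) (.v (.cv 5 2 false 0) (.u (.tr (-6) 1) (.v (.cv 5 2 false 0) (.u (.tr (-6) 1) (.cv (-172) 46 true 1))))))) (.v (.v (.v (.v (.u (.tr (-6) 1) (.v (.u (.tr (-6) 1) (.cv (-172) 46 true 1)) (.tr (-1) 0))) (.tr (-1) 0)) (.tr (-1) 0)) (.cv (-2) 0 false 1)) (.cv (-2) 0 false 1))) (.cv 0 0 false 5)) (.cv 0 0 true 4)))))) (.u (.cv (-172) 46 true 1) (.cv (-56) 15 true 0))) (.cv (-56) 15 true 0)) (.u (.cv 60 (-16) false 2) (.u (.u (.y (.u (.u (.cv 60 (-16) false 2) (.cv (-1171) 313 false 0)) (.v (.v (.cv 5 2 false 0) (.v (.cv 5 2 false 0) (.v (.cv 5 2 false 0) (.v (.cv 5 2 false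 0) (.cv (-273) 73 false 0))))) (.v (.v (.v (.v (.v (.cv (-273) 73 false 0) (.tr (-1) 0)) (.tr (-1) 0)) (.tr (-1) 0)) (.cv (-2) 0 false 1)) (.cv (-2) 0 false 1)))) (.cv 0 0 true 4)) (.cv (-273) 73 false 0)) (.u (.u (.cv 176 (-47) true 0) (.u (.cv 176 (-47) true 0) (.u (.cv 176 (-47) true 0) (.u (.cv 176 (-47) true 0) (.tr 9 (-3)))))) (.tr 9 (-3))))))) (.cv 0 0 false 4)) (.cv 0 0 true 3)) (.cv 0 0 false 3)) (.u (.u (.cv (-41) 11 false 0) (.x (.u (.cv 75 (-20) false 0) (.cv 4 (-1) true 0)) (.cv 0 0 false 3))) (.cv 4 (-1) true 0)))) (.cv 0 0 true 2)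

def t6 : T := .v (.v (.u (.v (.tr (-2) 0) (.u (.tr (-2) 0) (.u (.tr (-2) 0) (.x (.cv (-7) 2 false 0) (.cv 0 0 false 0))))) (.x (.cv (-7) 2 false 0) (.v (.cv (-10) (-2) false 0) (.v (.v (.v (.cv (-10) (-2) false 0) (.cv 20 6 false 0)) (.cv 20 6 false 0)) (.v (.u (.cv 0 0 false 0) (.v (.u (.cv 0 0 false 0) (.y (.x (.y (.cv 5 2 true 1) (.v (.cv (-37) 10 false 1) (.u (.cv 0 0 false 0) (.u (.cv 0 0 false 0) (.v (.cv (-37) 10 false 1) (.cv 0 0 false 0)))))) (.cv 5 2 false 1)) (.cv 5 2 true 0))) (.cv 0 0 false 0))) (.cv 0 0 false 0)))))) (.x (.u (.u (.u (.tr (-2) 0) (.v (.tr (-2) 0) (.u (.tr (-2) 0) (.u (.v (.tr (-2) 0) (.y (.cv (-6) (-1) true 0) (.cv (-2) 0 true 0))) (.cv (-269) 72 false 0))))) (.y (.v (.v (.tr (-1) 0) (.v (.tr (-1) 0) (.cv (-6) (-1) true 0))) (.cv (-6) (-1) true 0)) (.v (.v (.tr (-1) 0) (.cv (-2) 0 true 0)) (.cv (-2) 0 true 0))))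 (.cv (-7) 2 false 0)) (.cv (-2) 0 false 0))) (.x (.y (.x (.cv (-2) 0 false 1) (.y (.x (.cv (-2) 0 false 2) (.v (.v (.v (.cv (-6) (-1) true 0) (.v (.cv (-6) (-1) true 0) (.v (.cv (-6) (-1) true 0) (.v (.cv (-6) (-1) true 0) (.v (.cv (-6) (-1) true 0) (.cv (-77) (-20) false 0)))))) (.y (.x (.cv (-2) 0 false 3) (.y (.v (.v (.cv 39 11 false 0) (.x (.cv (-2) 0 false 4) (.v (.v (.v (.cv 39 11 false 0) (.v (.cv 39 11 false 0) (.tr (-12) (-3)))) (.v (.v (.v (.v (.tr (-12) (-3)) (.v (.tr (-12) (-3)) (.cv (-178) (-47) true 0))) (.cv (-178) (-47) true 0)) (.cv (-178) (-47) true 0)) (.cv (-178) (-47) true 0))) (.v (.v (.y (.u (.u (.cv 64 (-17) true 0) (.u (.cv 180 (-48) false 1) (.u (.cv 180 (-48) false 1) (.u (.cv 180 (-48) false 1) (.cv (-7) 2 false 0))))) (.cv (-7) 2 false 0)) (.cv (-2) 0 true 4)) (.cv (-62) (-16) false 2)) (.cv (-62) (-16) false 2)))))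 (.x (.cv (-2) 0 false 4) (.y (.x (.cv (-2) 0 false 5) (.v (.v (.cv 54 15 true 0) (.v (.v (.cv 54 15 true 0) (.cv (-279) (-74) false 0)) (.v (.v (.v (.cv (-279) (-74) false 0) (.tr 3 1)) (.tr 3 1)) (.tr 3 1)))) (.v (.v (.cv (-163) (-43) false 0) (.cv (-47) (-12) false 0)) (.cv (-47) (-12) false 0)))) (.cv (-2) 0 true 4)))) (.cv (-2) 0 true 3))) (.cv (-2) 0 true 2))) (.y (.x (.cv (-2) 0 false 3) (.y (.x (.cv (-2) 0 false 4) (.y (.x (.cv (-2) 0 false 5) (.y (.x (.cv (-2) 0 false 6) (.y (.v (.v (.v (.v (.v (.cv 69 19 false 0) (.v (.cv 69 19 false 0) (.cv (-264) (-70) false 1))) (.v (.x (.cv (-2) 0 false 7) (.v (.cv 185 50 false 0) (.v (.u (.u (.cv 64 (-17) true 0) (.u (.cv 180 (-48) false 1) (.u (.cv 180 (-48) false 1) (.u (.cv 180 (-48) false 1) (.u (.cv 180 (-48) false 1) (.u (.cv 1078 (-288) false 3) (.cv (-7) 2 false 0))))))) (.cv (-7) 2 false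 0)) (.cv (-32) (-8) false 1)))) (.cv (-32) (-8) false 1))) (.cv (-32) (-8) false 1)) (.cv (-17) (-4) false 0)) (.v (.v (.v (.cv (-17) (-4) false 0) (.x (.cv (-2) 0 false 7) (.y (.x (.cv (-2) 0 false 8) (.y (.x (.cv (-2) 0 false 9) (.y (.x (.cv (-2) 0 false 10) (.y (.x (.cv (-2) 0 false 11) (.y (.x (.cv (-2) 0 false 12) (.y (.x (.cv (-2) 0 false 13) (.y (.x (.cv (-2) 0 false 14) (.y (.x (.cv (-2) 0 false 15) (.y (.x (.cv (-2) 0 false 16) (.y (.x (.cv (-2) 0 false 17) (.y (.x (.cv (-2) 0 false 18) (.v (.v (.cv (-17) (-4) false 0) (.v (.cv (-17) (-4) false 0) (.v (.cv (-17) (-4) false 0) (.cv 13 4 false 0)))) (.cv 13 4 false 0))) (.cv (-2) 0 true 17))) (.cv (-2) 0 true 16))) (.cv (-2) 0 true 15))) (.cv (-2) 0 true 14))) (.cv (-2) 0 true 13))) (.cv (-2) 0 true 12))) (.cv (-2) 0 true 11))) (.cv (-2) 0 true 10))) (.cv (-2) 0 true 9))) (.cv (-2) 0 true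 8))) (.cv (-2) 0 true 7)))) (.cv 13 4 false 0)) (.cv 13 4 false 0))) (.cv (-2) 0 true 6))) (.cv (-2) 0 true 5))) (.cv (-2) 0 true 4))) (.cv (-2) 0 true 3))) (.cv (-2) 0 true 2)))) (.cv (-2) 0 true 1))) (.cv (-2) 0 true 0)) (.cv (-2) 0 false 0))

def t7 : T := .v (.u (.u t1 (.x (.y (.cv (-4) 1 true 0) (.u (.x (.y (.x (.cv (-4) 1 false 2) (.y (.x (.cv (-4) 1 false 3) (.y (.v (.v (.v (.x (.cv (-4) 1 false 4) (.y (.x (.cv (-4) 1 false 5) (.v (.tr (-3) 0) (.cv (-8) (-1) true 1))) (.cv (-4) 1 true 4))) (.cv (-4) 0 true 0)) (.cv (-4) 0 true 0)) (.v (.x (.cv (-4) 1 false 4) (.v (.cv 0 1 false 2) (.v (.v (.v (.cv 0 1 false 2) (.v (.cv 0 1 false 2) (.cv (-41) (-10) false 0))) (.v (.v (.cv 75 21 false 0) (.cv (-11) (-2) false 0)) (.cv (-11) (-2) false 0))) (.cv (-11) (-2) false 0)))) (.v (.v (.v (.cv 4 2 true 0) (.v (.v (.cv 4 2 true 0) (.v (.cv 4 2 true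 0) (.tr (-2) 0))) (.tr (-2) 0))) (.v (.tr (-2) 0) (.cv (-3) 0 false 0))) (.cv (-3) 0 false 0)))) (.cv (-4) 1 true 3))) (.cv (-4) 1 true 2))) (.cv (-4) 1 true 1)) (.cv (-4) 1 false 1)) (.v (.v (.v (.u (.u (.u (.u (.v (.tr (-3) 0) (.cv 0 0 true 0)) (.cv 0 0 true 0)) (.cv 0 0 true 0)) (.cv 0 0 true 0)) (.cv 0 0 true 0)) (.cv 0 0 true 0)) (.cv 0 0 true 0)) (.cv 0 0 true 0)))) (.cv (-4) 1 false 0))) t3) (.u t4 (.u (.x (.y (.x (.y (.v (.v (.cv (-3) 0 false 0) (.cv 1 1 false 0)) (.v (.x t5 (.cv 0 0 false 2)) (.cv (-2) 0 false 1))) (.cv 0 0 true 1)) (.cv 0 0 false 1)) (.cv 0 0 true 0)) (.cv 0 0 false 0)) (.u (.v (.v (.x (.cv (-3) 0 false 0) (.u (.cv 4 (-1) false 0) (.u (.cv 4 (-1) false 0) (.tr (-2) 0)))) (.x (.cv 1 1 false 0) (.v (.u (.cv 4 (-1) false 0) (.u (.cv 4 (-1) false 0) (.v (.tr (-2) 0) (.cv 0 0 false 0)))) (.cv 0 0 false 0)))) (.x (.u (.u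 (.cv (-11) 3 false 0) (.y (.cv 4 (-1) true 0) (.cv 0 0 true 0))) (.v (.u (.u (.cv 19 (-5) false 0) (.y (.cv 4 (-1) true 0) (.cv 0 0 true 0))) (.u (.y (.cv 4 (-1) true 0) (.cv 0 0 true 0)) (.u (.u (.y (.v (.tr (-2) 0) (.cv 4 (-1) true 0)) (.cv 0 0 true 0)) (.tr (-2) 0)) (.tr (-2) 0)))) (.y (.u (.cv 4 (-1) true 0) (.u (.cv 4 (-1) true 0) (.u (.u (.cv 4 (-1) true 0) (.x (.cv (-2) 0 false 1) (.cv 0 0 false 1))) (.tr (-2) 0)))) (.cv (-2) 0 true 0)))) (.cv 0 0 false 0))) (.u (.v (.u (.tr (-2) 0) (.v (.v (.tr (-2) 0) (.v (.tr (-2) 0) (.v (.tr (-2) 0) (.v (.tr (-2) 0) (.v (.tr (-2) 0) (.u (.tr (-2) 0) (.u (.tr (-2) 0) (.u (.tr (-2) 0) (.u (.tr (-2) 0) (.u (.tr (-2) 0) (.v (.tr (-2) 0) (.u (.tr (-2) 0) (.x (.cv 1 1 false 0) (.cv (-22) 6 false 0)))))))))))))) (.x (.cv 1 1 false 0) (.y (.cv 1 1 true 0) (.u (.u (.tr (-2) 0) (.v (.tr (-2) 0) (.v (.v (.tr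 (-2) 0) (.u (.tr (-2) 0) (.u (.tr (-2) 0) (.cv (-7) 2 true 0)))) (.u (.tr (-2) 0) (.u (.cv (-37) 10 true 0) (.cv (-7) 2 true 0)))))) (.cv (-7) 2 true 0)))))) (.u (.v (.tr (-2) 0) (.u (.tr (-2) 0) (.u (.tr (-2) 0) (.u (.tr (-2) 0) (.u (.v (.tr (-2) 0) (.v (.tr (-2) 0) (.v (.tr (-2) 0) (.v (.tr (-2) 0) (.v (.tr (-2) 0) (.u (.tr (-2) 0) (.u (.tr (-2) 0) (.u (.tr (-2) 0) (.u (.tr (-2) 0) (.u (.tr (-2) 0) (.x (.y (.x (.cv (-2) 0 false 1) (.cv 0 0 false 1)) (.cv (-2) 0 true 0)) (.cv (-2) 0 false 0)))))))))))) (.x (.y (.x (.cv (-2) 0 false 1) (.y (.x (.cv (-2) 0 false 2) (.v (.tr (-2) 0) (.cv 64 (-17) true 0))) (.cv (-2) 0 true 1))) (.cv (-2) 0 true 0)) (.cv (-2) 0 false 0))))))) (.u t6 (.x (.cv (-7) 2 false 0) (.v (.y (.v (.v (.cv (-10) (-2) false 0) (.v (.v (.v (.cv (-10) (-2) false 0) (.cv 20 6 false 0)) (.cv 20 6 false 0)) (.u (.x (.cv (-37) 10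 false 1) (.y (.cv (-37) 10 true 1) (.x (.y (.x (.cv (-37) 10 false 3) (.v (.v (.cv 5 2 false 1) (.v (.cv 5 2 false 1) (.v (.cv 5 2 false 1) (.v (.cv 5 2 false 1) (.cv 35 10 false 3))))) (.v (.v (.cv 35 10 false 3) (.cv (-2) 0 false 0)) (.cv (-2) 0 false 0)))) (.cv (-37) 10 true 2)) (.cv (-37) 10 false 2)))) (.cv 79 (-21) true 0)))) (.cv (-2) 0 false 0)) (.cv (-7) 2 true 0)) (.cv (-2) 0 false 0)))))) (.x (.cv (-7) 2 false 0) (.y (.x (.y (.cv (-7) 2 true 1) (.u (.cv (-22) 6 false 0) (.cv 8 (-2) false 0))) (.cv (-7) 2 false 1)) (.cv (-7) 2 true 0)))))))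

def tree_adic_main : T := .v t7 (.u (.v (.sq (-1) 0) (.sq 0 0)) (.x (.v (.v (.v (.v (.y (.v (.x (.cv (-2) 0 false 1) (.u (.cv 0 0 false 1) (.u (.cv 0 0 false 1) (.u (.u (.cv 0 0 false 1) (.u (.v (.v (.v (.u (.cv 0 0 false 1) (.u (.cv 0 0 false 1) (.cv (-7) 2 false 0))) (.cv 0 0 false 1)) (.cv 0 0 false 1)) (.cv 2 1 true 0)) (.cv (-7) 2 false 0))) (.cv (-7) 2 false 0))))) (.cv 2 1 true 0)) (.cv (-2) 0 true 0)) (.y (.cv 2 1 true 0) (.v (.cv (-2) 0 true 0) (.cv 0 0 true 0)))) (.cv (-1) 0 false 0)) (.cv (-1) 0 false 0)) (.sq 0 0)) (.cv 0 0 false 0)))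

def t8 : T := .u (.u (.u (.u (.cv 25 (-6) true 0) (.u (.u (.cv 25 (-6) true 0) (.u (.cv (-192) 52 false 0) (.u (.cv (-192) 52 false 0) (.cv (-76) 21 false 0)))) (.cv (-76) 21 false 0))) (.cv 40 (-10) false 0)) (.x (.cv (-1) 1 false 2) (.u (.u (.cv 40 (-10) false 0) (.u (.u (.y (.u (.u (.u (.cv 40 (-10) false 0) (.u (.cv 40 (-10) false 0) (.v (.v (.cv 2 1 false 0) (.v (.cv 2 1 false 0) (.v (.cv 6 2 false 0) (.v (.cv 6 2 false 0) (.v (.v (.cv 6 2 false 0) (.cv 51 14 true 0)) (.u (.cv 40 (-10) false 0) (.u (.cv 40 (-10) false 0) (.u (.cv 40 (-10) false 0) (.v (.cv 51 14 true 0) (.u (.cv 40 (-10) false 0) (.v (.v (.cv 51 14 true 0) (.cv 167 45 true 2)) (.u (.cv 40 (-10) false 0) (.cv (-1524) 408 false 0))))))))))))) (.v (.v (.v (.v (.v (.v (.v (.v (.v (.u (.cv 40 (-10) false 0) (.u (.cv 40 (-10) false 0) (.u (.cv 40 (-10) false 0) (.u (.cv 40 (-10)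 false 0) (.u (.cv 40 (-10) false 0) (.x (.cv (-1) 1 false 3) (.v (.cv (-1524) 408 false 0) (.cv (-166) (-44) false 0)))))))) (.cv (-166) (-44) false 0)) (.cv (-166) (-44) false 0)) (.cv (-50) (-13) false 0)) (.cv (-50) (-13) false 0)) (.cv 66 18 false 0)) (.cv 40 (-10) false 0)) (.cv (-5) (-1) true 1)) (.v (.cv (-5) (-1) true 1) (.cv (-1) 0 true 0))) (.cv (-1) 0 true 0))))) (.u (.cv (-1524) 408 false 0) (.cv 1952 (-521) false 0))) (.u (.u (.u (.cv 1952 (-521) false 0) (.cv 5428 (-1450) false 0)) (.u (.u (.u (.cv 5428 (-1450) false 0) (.u (.cv 5428 (-1450) false 0) (.u (.cv 5428 (-1450) false 0) (.u (.cv (-162535) 43440 true 0) (.u (.u (.u (.cv 240666 (-64320) false 0) (.cv (-58371) 15601 false 1)) (.cv (-58371) 15601 false 1)) (.cv (-58371) 15601 false 1)))))) (.u (.u (.u (.cv (-58371) 15601 false 1) (.cv 45793 (-12238) true 0)) (.u (.cv 45793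 (-12238) true 0) (.u (.u (.cv 149957 (-40077) false 1) (.u (.cv 149957 (-40077) false 1) (.cv (-1075) 288 true 0))) (.cv (-1075) 288 true 0)))) (.cv (-1075) 288 true 0))) (.cv (-1075) 288 true 0))) (.cv (-177) 48 true 0))) (.cv (-1) 1 true 2)) (.cv (-177) 48 true 0)) (.u (.cv 272 (-72) false 0) (.u (.cv 272 (-72) false 0) (.u (.y (.u (.cv 272 (-72) false 0) (.cv (-2306) 617 false 0)) (.cv (-1) 1 true 2)) (.cv 1170 (-312) false 0)))))) (.u (.cv (-61) 17 false 2) (.cv 55 (-14) true 0))))) (.x (.cv (-1) 1 false 2) (.y (.x (.cv (-1) 1 false 3) (.u (.u (.u (.u (.cv 55 (-14) true 0) (.u (.cv 55 (-14) true 0) (.cv (-278) 75 false 0))) (.u (.tr 4 (-1)) (.u (.tr 4 (-1)) (.u (.tr 4 (-1)) (.cv (-46) 13 false 0))))) (.cv (-46) 13 false 0)) (.y (.x (.cv (-1) 1 false 4) (.y (.u (.u (.cv 70 (-18) false 0) (.u (.u (.u (.cv 70 (-18) false 0) (.cv 186 (-49) false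 0)) (.cv 186 (-49) false 0)) (.x (.cv (-1) 1 false 5) (.u (.u (.cv 186 (-49) false 0) (.u (.cv 186 (-49) false 0) (.u (.u (.cv 186 (-49) false 0) (.u (.cv 186 (-49) false 0) (.u (.u (.cv 186 (-49) false 0) (.u (.cv 186 (-49) false 0) (.v (.v (.cv 2 1 false 0) (.v (.cv 2 1 false 0) (.v (.cv 6 2 false 0) (.v (.cv 6 2 false 0) (.v (.v (.cv 6 2 false 0) (.cv 51 14 true 0)) (.u (.cv 186 (-49) false 0) (.u (.cv 186 (-49) false 0) (.v (.cv 51 14 true 0) (.v (.v (.cv 51 14 true 0) (.cv 167 45 true 2)) (.y (.u (.cv 186 (-49) false 0) (.cv (-5419) 1449 false 1)) (.cv (-1) 1 true 5))))))))))) (.v (.v (.u (.cv 186 (-49) false 0) (.u (.cv 186 (-49) false 0) (.y (.u (.cv 186 (-49) false 0) (.v (.v (.v (.v (.v (.v (.v (.v (.cv (-5419) 1449 false 1) (.cv (-166) (-44) false 0)) (.cv (-166) (-44) false 0)) (.cv (-166) (-44) false 0)) (.cv (-50) (-13) false 0))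 (.cv (-50) (-13) false 0)) (.cv 66 18 false 0)) (.v (.v (.v (.cv 182 49 false 0) (.cv (-5419) 1449 false 1)) (.cv (-35) (-9) false 1)) (.cv (-35) (-9) false 1))) (.cv (-5) (-1) true 1))) (.cv (-1) 1 true 5)))) (.v (.cv (-5) (-1) true 1) (.cv (-1) 0 true 0))) (.cv (-1) 0 true 0))))) (.cv (-5419) 1449 false 1)))) (.u (.u (.cv (-5419) 1449 false 1) (.cv 8036 (-2147) false 0)) (.cv (-1943) 520 true 0))))) (.u (.v (.v (.cv 2 1 false 0) (.v (.cv 2 1 false 0) (.v (.cv 6 2 false 0) (.v (.cv 6 2 false 0) (.tr 19 (-5)))))) (.v (.v (.tr 19 (-5)) (.v (.cv (-5) (-1) true 1) (.cv (-1) 0 true 0))) (.cv (-1) 0 true 0))) (.cv (-31) 9 false 1)))))) (.cv (-31) 9 false 1)) (.cv (-1) 1 true 4))) (.cv (-1) 1 true 3)))) (.cv (-1) 1 true 2)))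

def t9 : T := .u (.y (.x (.y (.x (.u (.u (.cv 18 (-4) false 0) (.cv 33 (-8) false 1)) (.u (.y (.u (.u (.cv 33 (-8) false 1) (.u (.cv 33 (-8) false 1) (.u (.cv 33 (-8) false 1) (.u (.cv 33 (-8) false 1) (.tr (-18) 5))))) (.u (.u (.x (.u (.u (.tr (-18) 5) (.u (.tr (-18) 5) (.u (.u (.tr (-18) 5) (.cv 1945 (-519) true 0)) (.u (.cv 1945 (-519) true 0) (.cv (-8034) 2148 false 0))))) (.u (.u (.u (.u (.cv 5421 (-1448) false 1) (.u (.u (.cv 5421 (-1448) false 1) (.v (.cv 2 1 false 0) (.u (.u (.u (.u (.y (.v (.v (.v (.cv (-184) 50 false 0) (.cv (-5) (-1) true 0)) (.v (.cv 10 3 false 0) (.v (.cv 10 3 false 0) (.cv (-184) 50 false 0)))) (.cv (-1) 0 false 2)) (.cv 3 0 true 4)) (.v (.v (.v (.cv (-184) 50 false 0) (.cv (-5) (-1) true 0)) (.v (.cv 10 3 false 0) (.y (.v (.cv 10 3 false 0) (.cv (-184) 50 false 0)) (.cv 3 0 true 4)))) (.cv (-1) 0 false 2))) (.cv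 (-184) 50 false 0)) (.cv (-184) 50 false 0)) (.cv (-184) 50 false 0)))) (.cv (-184) 50 false 0))) (.cv (-184) 50 false 0)) (.cv (-184) 50 false 0)) (.cv (-184) 50 false 0))) (.cv 3 0 false 4)) (.cv (-184) 50 false 0)) (.u (.cv (-184) 50 false 0) (.cv (-68) 19 false 0)))) (.cv 3 0 true 3)) (.u (.cv (-68) 19 false 0) (.cv 48 (-12) false 0)))) (.cv 3 0 false 3)) (.cv 3 0 true 2)) (.cv 3 0 false 2)) (.cv 3 0 true 1)) (.u (.y (.u (.u (.cv 48 (-12) false 0) (.x (.y (.v (.cv 2 1 false 0) (.v (.v (.v (.v (.v (.v (.cv 2 1 false 0) (.cv (-50) (-13) false 0)) (.cv 66 18 false 0)) (.v (.v (.v (.cv 182 49 false 0) (.v (.v (.v (.v (.cv 182 49 false 0) (.v (.cv 182 49 false 0) (.v (.v (.cv 182 49 false 0) (.tr 15 4)) (.tr 15 4)))) (.tr 15 4)) (.tr 15 4)) (.cv (-35) (-9) true 0))) (.v (.cv (-151) (-40) false 1) (.cv (-5) (-1) true 0))) (.cv (-5) (-1) true 0)))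 (.cv (-5) (-1) true 0)) (.v (.cv 10 3 false 0) (.x (.v (.cv 10 3 false 0) (.v (.v (.v (.cv 10 3 false 0) (.cv (-76) (-20) false 0)) (.cv 40 11 false 0)) (.v (.cv 40 11 false 0) (.cv (-1) 0 false 2)))) (.cv 3 0 false 3)))) (.cv (-1) 0 false 2))) (.cv 3 0 true 2)) (.cv 3 0 false 2))) (.cv (-53) 15 true 0)) (.cv 3 0 true 1)) (.u (.y (.u (.v (.cv 2 1 false 0) (.x (.u (.cv 63 (-16) false 2) (.u (.cv 63 (-16) false 2) (.v (.v (.v (.v (.v (.v (.cv 2 1 false 0) (.v (.cv 2 1 false 0) (.v (.cv 2 1 false 0) (.cv (-50) (-13) false 0)))) (.cv 66 18 false 0)) (.v (.v (.v (.cv 182 49 false 0) (.v (.v (.v (.v (.cv 182 49 false 0) (.v (.cv 182 49 false 0) (.v (.v (.cv 182 49 false 0) (.tr 15 4)) (.tr 15 4)))) (.tr 15 4)) (.tr 15 4)) (.cv (-35) (-9) true 0))) (.v (.cv (-151) (-40) false 1) (.cv (-5) (-1) true 0))) (.cv (-5) (-1) true 0))) (.cv (-5) (-1) true 0))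 (.v (.cv 10 3 false 0) (.v (.cv 10 3 false 0) (.v (.v (.v (.cv 10 3 false 0) (.cv (-76) (-20) false 0)) (.cv 40 11 false 0)) (.v (.cv 40 11 false 0) (.cv (-1) 0 false 2)))))) (.cv (-1) 0 false 2)))) (.cv 3 0 false 2))) (.u (.u (.cv (-270) 73 false 0) (.cv 179 (-47) true 0)) (.v (.cv 2 1 false 0) (.u (.u (.cv 179 (-47) true 0) (.x (.v (.v (.v (.v (.v (.v (.cv 2 1 false 0) (.v (.cv 2 1 false 0) (.v (.cv 2 1 false 0) (.v (.cv 2 1 false 0) (.v (.cv 2 1 false 0) (.cv (-50) (-13) false 0)))))) (.cv 66 18 false 0)) (.v (.v (.v (.cv 182 49 false 0) (.v (.v (.v (.v (.cv 182 49 false 0) (.v (.cv 182 49 false 0) (.v (.v (.cv 182 49 false 0) (.tr 15 4)) (.tr 15 4)))) (.tr 15 4)) (.tr 15 4)) (.cv (-35) (-9) true 0))) (.v (.cv (-151) (-40) false 1) (.cv (-5) (-1) true 0))) (.cv (-5) (-1) true 0))) (.cv (-5) (-1) true 0)) (.v (.cv 10 3 false 0) (.v (.cv 10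 3 false 0) (.v (.v (.v (.cv 10 3 false 0) (.cv (-76) (-20) false 0)) (.cv 40 11 false 0)) (.v (.cv 40 11 false 0) (.cv (-1) 0 false 2)))))) (.cv (-1) 0 false 2)) (.cv 3 0 false 2))) (.u (.u (.u (.cv 1526 (-407) false 0) (.cv (-38) 11 false 0)) (.cv (-38) 11 false 0)) (.cv (-38) 11 false 0)))))) (.cv 3 0 true 1)) (.cv (-38) 11 false 0)))

def t10 : T := .u (.u (.cv 7 (-1) false 0) (.u (.cv 7 (-1) false 0) (.u (.cv 7 (-1) false 0) (.u (.v (.u (.cv 7 (-1) false 0) (.v (.v (.v (.v (.y (.cv 2 1 true 0) (.x (.cv 2 1 false 1) (.cv 0 1 false 1))) (.cv (-13) (-3) false 0)) (.cv (-13) (-3) false 0)) (.y (.cv 0 1 true 0) (.x (.cv 2 1 false 1) (.y (.x (.y (.x (.y (.x (.y (.x (.y (.x (.y (.x (.y (.x (.y (.x (.y (.x (.y (.x (.v (.v (.cv (-13) (-3) false 0) (.v (.cv (-13) (-3) false 0) (.v (.cv (-13) (-3) false 0) (.v (.v (.cv (-13) (-3) false 0) (.cv 17 5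 false 0)) (.cv 17 5 false 0))))) (.cv 17 5 false 0)) (.cv 2 1 false 11)) (.cv 2 1 true 10)) (.cv 2 1 false 10)) (.cv 2 1 true 9)) (.cv 2 1 false 9)) (.cv 2 1 true 8)) (.cv 2 1 false 8)) (.cv 2 1 true 7)) (.cv 2 1 false 7)) (.cv 2 1 true 6)) (.cv 2 1 false 6)) (.cv 2 1 true 5)) (.cv 2 1 false 5)) (.cv 2 1 true 4)) (.cv 2 1 false 4)) (.cv 2 1 true 3)) (.cv 2 1 false 3)) (.cv 2 1 true 2)) (.cv 2 1 false 2)) (.cv 2 1 true 1))))) (.y (.cv 2 1 true 0) (.x (.cv 2 1 false 1) (.y (.x (.y (.x (.y (.x (.y (.v (.v (.cv 17 5 false 0) (.v (.cv 32 9 false 1) (.v (.x (.y (.x (.y (.x (.v (.cv 32 9 false 1) (.u (.cv 7 (-1) false 0) (.u (.v (.u (.u (.cv 7 (-1) false 0) (.u (.cv (-1078) 289 false 3) (.cv (-180) 49 false 1))) (.cv (-180) 49 false 1)) (.cv (-185) (-49) false 0)) (.cv (-180) 49 false 1)))) (.cv 2 1 false 7)) (.cv 2 1 true 6)) (.cv 2 1 false 6)) (.cv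 2 1 true 5)) (.cv 2 1 false 5)) (.x (.y (.x (.y (.u (.cv 7 (-1) false 0) (.u (.v (.v (.cv (-185) (-49) false 0) (.v (.cv (-185) (-49) false 0) (.cv (-69) (-18) false 0))) (.cv (-69) (-18) false 0)) (.cv (-180) 49 false 1))) (.cv 2 1 true 6)) (.cv 2 1 false 6)) (.cv 2 1 true 5)) (.cv 2 1 false 5))))) (.u (.cv 7 (-1) false 0) (.u (.u (.v (.u (.cv 7 (-1) false 0) (.v (.u (.cv 7 (-1) false 0) (.x (.y (.x (.v (.cv (-69) (-18) false 0) (.v (.v (.v (.u (.cv 7 (-1) false 0) (.u (.cv 7 (-1) false 0) (.u (.cv 7 (-1) false 0) (.u (.cv 7 (-1) false 0) (.v (.cv (-69) (-18) false 0) (.cv 7 (-1) false 0)))))) (.cv 7 (-1) false 0)) (.cv 7 (-1) false 0)) (.cv 7 (-1) false 0))) (.cv 2 1 false 6)) (.cv 2 1 true 5)) (.cv 2 1 false 5))) (.cv 7 (-1) false 0))) (.cv 7 (-1) false 0)) (.cv (-180) 49 false 1)) (.cv (-180) 49 false 1)))) (.cv 2 1 true 4)) (.cv 2 1 false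 4)) (.cv 2 1 true 3)) (.cv 2 1 false 3)) (.cv 2 1 true 2)) (.cv 2 1 false 2)) (.cv 2 1 true 1)))))) (.u (.cv 7 (-1) false 0) (.u (.cv 7 (-1) false 0) (.v (.u (.cv 7 (-1) false 0) (.y (.cv 2 1 true 0) (.v (.x (.cv 2 1 false 1) (.y (.x (.y (.x (.v (.cv (-180) 49 false 1) (.cv 6 2 true 0)) (.cv 2 1 false 3)) (.cv 2 1 true 2)) (.cv 2 1 false 2)) (.cv 2 1 true 1))) (.cv 6 2 true 0)))) (.cv 7 (-1) false 0))))) (.u (.u (.cv (-629) 169 false 0) (.cv 269 (-71) false 0)) (.cv 269 (-71) false 0)))))) (.y (.cv 2 1 true 0) (.u (.u (.u (.cv (-64) 18 true 0) (.u (.cv (-64) 18 true 0) (.u (.u (.cv (-64) 18 true 0) (.u (.cv (-64) 18 true 0) (.u (.cv (-64) 18 true 0) (.u (.cv (-64) 18 true 0) (.cv (-397) 107 false 0))))) (.u (.cv (-397) 107 false 0) (.u (.cv (-397) 107 false 0) (.u (.cv (-397) 107 false 0) (.u (.cv (-397) 107 false 0) (.u (.u (.cv (-397) 107 false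 0) (.cv 501 (-133) false 0)) (.cv 501 (-133) false 0))))))))) (.x (.v (.cv 2 1 false 1) (.v (.cv 2 1 false 1) (.v (.cv 6 2 true 0) (.y (.tr 1 0) (.tr 1 0))))) (.y (.tr 1 0) (.tr 1 0)))) (.u (.cv (-49) 14 false 0) (.u (.cv 67 (-17) false 0) (.cv (-4) 2 true 0)))))

def t11 : T := .v (.y (.u (.cv 7 (-1) true 0) (.u (.cv 7 (-1) true 0) (.x (.cv (-1) 0 false 1) (.y (.x (.cv (-1) 0 false 2) (.u (.u (.cv 7 (-1) true 0) (.cv 153 (-40) false 1)) (.u (.v (.v (.v (.v (.v (.v (.v (.u (.u (.cv 37 (-9) true 0) (.u (.cv 37 (-9) true 0) (.u (.u (.u (.cv 37 (-9) true 0) (.u (.cv 37 (-9) true 0) (.cv (-5003) 1338 false 1))) (.cv (-5003) 1338 false 1)) (.cv (-1527) 409 true 0)))) (.u (.v (.v (.cv 1952 522 false 0) (.v (.cv 1952 522 false 0) (.cv 5428 1451 false 0))) (.v (.v (.v (.v (.cv 5428 1451 false 0) (.v (.v (.v (.cv 5428 1451 false 0) (.v (.cv 5428 1451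 false 0) (.v (.cv 5428 1451 false 0) (.tr 438 117)))) (.tr 438 117)) (.tr 438 117))) (.v (.tr 438 117) (.cv (-1075) (-287) true 0))) (.cv (-4551) (-1216) false 1)) (.cv (-177) (-47) true 0))) (.cv (-180) 49 false 0))) (.cv (-177) (-47) true 0)) (.cv (-177) (-47) true 0)) (.v (.cv (-177) (-47) true 0) (.v (.v (.cv 272 73 false 0) (.v (.cv 272 73 false 0) (.v (.cv 272 73 false 0) (.v (.cv 272 73 false 0) (.cv 1170 313 false 0))))) (.v (.cv 1170 313 false 0) (.v (.v (.v (.cv 1170 313 false 0) (.cv (-61) (-16) false 2)) (.cv (-61) (-16) false 2)) (.cv (-61) (-16) false 2)))))) (.cv (-61) (-16) false 2)) (.cv 55 15 true 0)) (.v (.y (.v (.u (.u (.cv 37 (-9) true 0) (.u (.cv 37 (-9) true 0) (.u (.u (.u (.cv 37 (-9) true 0) (.u (.cv 37 (-9) true 0) (.cv (-5003) 1338 false 1))) (.cv (-5003) 1338 false 1)) (.cv (-1527) 409 true 0)))) (.u (.u (.u (.cv (-1527)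 409 true 0) (.u (.cv 1949 (-520) false 1) (.u (.cv 1949 (-520) false 1) (.u (.cv 1949 (-520) false 1) (.u (.cv 1949 (-520) false 1) (.cv (-8030) 2147 false 0)))))) (.u (.u (.cv 5425 (-1449) true 0) (.cv (-180) 49 false 0)) (.cv (-180) 49 false 0))) (.cv (-180) 49 false 0))) (.cv (-46) (-12) false 0)) (.cv (-1) 0 true 2)) (.v (.cv (-46) (-12) false 0) (.cv 70 19 false 0)))) (.y (.x (.cv (-1) 0 false 3) (.y (.x (.cv (-1) 0 false 4) (.v (.v (.v (.v (.cv 70 19 false 0) (.cv 186 50 false 0)) (.y (.v (.u (.u (.cv 37 (-9) true 0) (.u (.cv 37 (-9) true 0) (.u (.u (.u (.cv 37 (-9) true 0) (.u (.cv 37 (-9) true 0) (.cv (-5003) 1338 false 1))) (.cv (-5003) 1338 false 1)) (.cv (-1527) 409 true 0)))) (.u (.u (.u (.cv (-1527) 409 true 0) (.u (.cv 1949 (-520) false 1) (.u (.cv 1949 (-520) false 1) (.u (.cv 1949 (-520) false 1) (.u (.cv 1949 (-520) false 1)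 (.cv (-8030) 2147 false 0)))))) (.u (.u (.cv 5425 (-1449) true 0) (.cv (-180) 49 false 0)) (.cv (-180) 49 false 0))) (.cv (-180) 49 false 0))) (.cv (-31) (-8) false 1)) (.cv (-1) 0 true 4))) (.cv (-31) (-8) false 1)) (.cv (-16) (-4) false 0))) (.cv (-1) 0 true 3))) (.cv (-1) 0 true 2))) (.cv (-180) 49 false 0)))) (.cv (-1) 0 true 1))))) (.cv (-1) 0 true 0)) (.v (.y (.u (.cv 7 (-1) true 0) (.u (.cv 7 (-1) true 0) (.x (.cv (-1) 0 false 1) (.y (.x (.cv (-1) 0 false 2) (.y (.x (.cv (-1) 0 false 3) (.y (.x (.cv (-1) 0 false 4) (.y (.x (.cv (-1) 0 false 5) (.y (.x (.cv (-1) 0 false 6) (.y (.x (.cv (-1) 0 false 7) (.y (.x (.cv (-1) 0 false 8) (.y (.u (.u (.cv 7 (-1) true 0) (.cv 153 (-40) false 1)) (.u (.v (.cv (-16) (-4) false 0) (.v (.v (.v (.v (.v (.cv 14 4 false 0) (.cv 3 1 true 0)) (.cv 3 1 true 0)) (.cv 3 1 true 0)) (.cv 3 1 true 0)) (.cv 3 1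 true 0))) (.cv (-180) 49 false 0))) (.cv (-1) 0 true 8))) (.cv (-1) 0 true 7))) (.cv (-1) 0 true 6))) (.cv (-1) 0 true 5))) (.cv (-1) 0 true 4))) (.cv (-1) 0 true 3))) (.cv (-1) 0 true 2))) (.cv (-1) 0 true 1))))) (.cv (-1) 0 true 0)) (.v (.cv 14 4 false 0) (.v (.cv 14 4 false 0) (.y (.cv 3 1 true 0) (.cv (-1) 0 true 0)))))

def t12 : T := .u (.x (.y (.u (.u (.u (.u (.u (.cv 269 (-71) false 0) (.v (.v (.v (.v (.v (.v (.cv 2 1 true 0) (.v (.v (.cv 2 1 true 0) (.v (.cv 2 1 true 0) (.cv (-166) (-44) false 1))) (.cv (-166) (-44) false 1))) (.cv (-166) (-44) false 1)) (.cv (-50) (-13) true 0)) (.cv (-50) (-13) true 0)) (.v (.v (.cv (-50) (-13) true 0) (.cv 66 18 false 1)) (.v (.cv 66 18 false 1) (.v (.cv 66 18 false 1) (.cv (-267) (-71) false 0))))) (.v (.v (.v (.v (.cv 182 49 true 0) (.cv (-5) (-1) false 0)) (.cv (-5) (-1) false 0)) (.cv (-5) (-1)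 false 0)) (.cv (-5) (-1) false 0)))) (.cv (-64) 18 true 1)) (.cv (-64) 18 true 1)) (.cv (-64) 18 true 1)) (.cv 52 (-13) true 0)) (.u (.v (.v (.v (.v (.v (.v (.cv 2 1 true 0) (.v (.u (.v (.cv 2 1 true 0) (.u (.u (.cv (-166) (-44) false 1) (.v (.cv 2 1 true 0) (.v (.cv 2 1 true 0) (.v (.cv 2 1 true 0) (.u (.u (.u (.u (.v (.cv 2 1 true 0) (.cv (-166) (-44) false 1)) (.v (.cv 2 1 true 0) (.v (.cv 2 1 true 0) (.u (.v (.cv 2 1 true 0) (.v (.v (.cv 2 1 true 0) (.u (.u (.v (.cv 2 1 true 0) (.u (.v (.u (.v (.cv 2 1 true 0) (.u (.u (.cv (-166) (-44) false 1) (.v (.cv 2 1 true 0) (.v (.cv 2 1 true 0) (.u (.u (.v (.cv 2 1 true 0) (.v (.v (.cv 2 1 true 0) (.u (.u (.u (.u (.v (.cv 2 1 true 0) (.cv (-166) (-44) false 1)) (.cv 2 1 true 0)) (.cv 2 1 true 0)) (.cv 2 1 true 0)) (.cv 2 1 true 0))) (.u (.cv (-166) (-44) false 1) (.cv 2 1 true 0)))) (.cv 2 1 true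 0)) (.cv 2 1 true 0))))) (.cv 2 1 true 0))) (.cv 2 1 true 0)) (.cv (-166) (-44) false 1)) (.cv 2 1 true 0))) (.cv 2 1 true 0)) (.cv 2 1 true 0))) (.u (.cv (-166) (-44) false 1) (.cv 2 1 true 0)))) (.cv 2 1 true 0))))) (.cv 2 1 true 0)) (.cv 2 1 true 0)) (.cv 2 1 true 0)))))) (.cv 2 1 true 0))) (.cv 2 1 true 0)) (.cv (-166) (-44) false 1))) (.cv (-166) (-44) false 1)) (.cv (-50) (-13) true 0)) (.cv (-50) (-13) true 0)) (.v (.v (.cv (-50) (-13) true 0) (.cv 66 18 false 1)) (.v (.cv 66 18 false 1) (.v (.cv 66 18 false 1) (.cv (-267) (-71) false 0))))) (.v (.v (.v (.v (.cv 182 49 true 0) (.cv (-5) (-1) false 0)) (.cv (-5) (-1) false 0)) (.cv (-5) (-1) false 0)) (.cv (-5) (-1) false 0))) (.cv 52 (-13) true 0))) (.u (.u (.u (.u (.u (.cv 269 (-71) false 0) (.cv (-64) 18 false 1)) (.cv (-64) 18 false 1)) (.cv (-64) 18 false 1)) (.cv (-64) 18 false 1))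 (.cv 52 (-13) true 0))) (.x (.y (.u (.cv 52 (-13) true 0) (.v (.v (.u (.u (.v (.cv 0 1 true 0) (.cv (-50) (-13) true 0)) (.cv 0 1 true 0)) (.cv 0 1 true 0)) (.u (.v (.v (.cv (-50) (-13) true 0) (.cv 66 18 false 1)) (.v (.cv 66 18 false 1) (.v (.cv 66 18 false 1) (.cv (-267) (-71) false 0)))) (.cv 0 1 true 0))) (.v (.v (.v (.v (.cv 182 49 true 0) (.cv (-5) (-1) false 0)) (.cv (-5) (-1) false 0)) (.cv (-5) (-1) false 0)) (.cv (-5) (-1) false 0)))) (.u (.cv 52 (-13) true 0) (.v (.v (.u (.u (.v (.cv 0 1 true 0) (.cv 168 (-44) true 1)) (.cv 0 1 true 0)) (.cv 0 1 true 0)) (.u (.v (.v (.cv (-50) (-13) true 0) (.cv 66 18 false 1)) (.v (.cv 66 18 false 1) (.u (.cv 168 (-44) true 1) (.v (.cv 66 18 false 1) (.cv (-267) (-71) false 0))))) (.cv 0 1 true 0))) (.v (.v (.v (.v (.cv 182 49 true 0) (.cv (-5) (-1) false 0)) (.cv (-5) (-1) false 0)) (.cv (-5) (-1)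 false 0)) (.cv (-5) (-1) false 0))))) (.y (.u (.cv 52 (-13) true 0) (.v (.v (.u (.u (.v (.cv 0 1 true 0) (.cv 168 (-44) false 1)) (.cv 0 1 true 0)) (.cv 0 1 true 0)) (.u (.v (.v (.cv (-50) (-13) true 0) (.cv 66 18 true 1)) (.u (.cv 168 (-44) false 1) (.v (.cv 66 18 true 1) (.u (.cv 168 (-44) false 1) (.u (.u (.cv 168 (-44) false 1) (.v (.cv 0 1 true 0) (.cv (-267) (-71) false 0))) (.cv 0 1 true 0)))))) (.cv 0 1 true 0))) (.v (.v (.v (.v (.cv 182 49 true 0) (.cv (-5) (-1) false 0)) (.cv (-5) (-1) false 0)) (.cv (-5) (-1) false 0)) (.cv (-5) (-1) false 0)))) (.u (.cv 52 (-13) true 0) (.v (.v (.u (.u (.v (.cv 0 1 true 0) (.cv 168 (-44) false 1)) (.cv 0 1 true 0)) (.cv 0 1 true 0)) (.u (.u (.cv 168 (-44) false 1) (.u (.cv 168 (-44) false 1) (.v (.cv 0 1 true 0) (.u (.v (.cv 0 1 true 0) (.u (.cv 168 (-44) false 1) (.v (.cv 0 1 true 0) (.cv (-267)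 (-71) false 0)))) (.cv 0 1 true 0))))) (.cv 0 1 true 0))) (.v (.v (.v (.v (.cv 182 49 true 0) (.cv (-5) (-1) false 0)) (.cv (-5) (-1) false 0)) (.cv (-5) (-1) false 0)) (.cv (-5) (-1) false 0))))))

def t13 : T := .v (.u (.x (.v (.v (.y t12 (.x (.y (.tr 1 0) (.tr 1 0)) (.u (.u (.cv (-64) 18 true 0) (.cv 52 (-13) false 1)) (.y (.tr 1 0) (.tr 1 0))))) (.cv (-5) (-1) false 0)) (.v (.cv (-5) (-1) false 0) (.cv (-1) 0 false 0))) (.v (.cv 0 1 false 0) (.v (.cv 10 3 false 0) (.y (.x (.v (.cv 10 3 false 0) (.cv (-1) 0 false 1)) (.y (.v (.cv 10 3 false 0) (.u (.v (.v (.v (.cv 10 3 false 0) (.cv (-76) (-20) false 0)) (.cv 40 11 false 0)) (.v (.cv 40 11 false 0) (.v (.cv 156 42 false 0) (.v (.cv 156 42 false 0) (.v (.cv 40 11 false 0) (.v (.cv 40 11 false 0) (.u (.cv (-64) 18 false 0) (.cv 52 (-13) false 0)))))))) (.cv 0 1 false 0))) (.v (.cv 10 3 false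 0) (.v (.u (.v (.v (.cv 10 3 false 0) (.cv (-76) (-20) false 0)) (.v (.cv (-76) (-20) false 0) (.cv (-1) 0 true 1))) (.cv 0 1 false 0)) (.cv (-1) 0 true 1))))) (.cv (-1) 0 true 0))))) (.x (.v (.v (.u (.cv (-49) 14 false 0) (.u (.cv 67 (-17) false 0) (.u (.u (.cv 67 (-17) false 0) (.cv 183 (-48) false 0)) (.u (.cv 183 (-48) false 0) (.y (.cv 0 1 true 0) (.cv (-4) 2 true 0)))))) (.cv (-5) (-1) false 0)) (.v (.cv (-5) (-1) false 0) (.cv (-1) 0 false 0))) (.cv 0 1 false 0))) (.x (.cv (-1) 0 false 0) (.v (.y (.x (.cv (-1) 0 false 1) (.y (.v (.u (.u (.u (.cv (-64) 18 false 0) (.cv 52 (-13) false 0)) (.x (.cv (-1) 0 false 2) (.v (.u (.u (.v (.cv 0 1 false 0) (.cv 55 15 true 0)) (.cv 0 1 false 0)) (.cv 0 1 false 0)) (.y (.u (.cv 52 (-13) false 0) (.cv 0 1 false 0)) (.cv (-1) 0 true 2))))) (.cv 0 1 false 0)) (.x (.cv (-1) 0 false 2) (.y (.x (.cv (-1)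 0 false 3) (.y (.x (.cv (-1) 0 false 4) (.v (.u (.u (.u (.cv (-64) 18 false 0) (.cv 52 (-13) false 0)) (.v (.u (.cv 52 (-13) false 0) (.v (.cv 0 1 false 0) (.u (.u (.u (.u (.y (.v (.cv 0 1 false 0) (.cv 168 (-44) false 0)) (.cv (-1) 0 true 4)) (.cv 0 1 false 0)) (.cv 0 1 false 0)) (.cv 0 1 false 0)) (.cv 0 1 false 0)))) (.cv (-31) (-8) false 1))) (.cv 0 1 false 0)) (.cv (-16) (-4) false 0))) (.cv (-1) 0 true 3))) (.cv (-1) 0 true 2)))) (.cv (-1) 0 true 1))) (.cv (-1) 0 true 0)) (.v (.y (.x (.cv (-1) 0 false 1) (.y (.x (.cv (-1) 0 false 2) (.y (.x (.cv (-1) 0 false 3) (.y (.x (.cv (-1) 0 false 4) (.y (.x (.cv (-1) 0 false 5) (.y (.x (.cv (-1) 0 false 6) (.y (.x (.cv (-1) 0 false 7) (.y (.x (.cv (-1) 0 false 8) (.y (.v (.cv (-16) (-4) false 0) (.v (.v (.v (.v (.v (.v (.v (.u (.u (.u (.u (.u (.v (.u (.x (.cv (-1) 0 false 9) (.y (.x (.cv (-1) 0 false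 10) (.y (.x (.cv (-1) 0 false 11) (.y (.x (.cv (-1) 0 false 12) (.y (.x (.cv (-1) 0 false 13) (.y (.x (.cv (-1) 0 false 14) (.y (.x (.cv (-1) 0 false 15) (.y (.x (.cv (-1) 0 false 16) (.y (.x (.cv (-1) 0 false 17) (.v (.cv (-16) (-4) false 0) (.v (.v (.u (.u (.u (.v (.v (.u (.cv (-16) (-4) false 0) (.cv 3 1 true 0)) (.v (.u (.u (.u (.u (.v (.cv (-16) (-4) false 0) (.cv 3 1 true 0)) (.v (.v (.v (.u (.u (.v (.cv (-16) (-4) false 0) (.cv 3 1 true 0)) (.cv 3 1 true 0)) (.cv 3 1 true 0)) (.cv 3 1 true 0)) (.cv 3 1 true 0)) (.cv 3 1 true 0))) (.cv 3 1 true 0)) (.cv 3 1 true 0)) (.cv 3 1 true 0)) (.cv 3 1 true 0))) (.cv 3 1 true 0)) (.cv 3 1 true 0)) (.cv 3 1 true 0)) (.cv 3 1 true 0)) (.cv 3 1 true 0)) (.cv 3 1 true 0)))) (.cv (-1) 0 true 16))) (.cv (-1) 0 true 15))) (.cv (-1) 0 true 14))) (.cv (-1) 0 true 13))) (.cv (-1) 0 true 12))) (.cv (-1) 0 true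 11))) (.cv (-1) 0 true 10))) (.cv (-1) 0 true 9))) (.cv 3 1 true 0)) (.cv 3 1 true 0)) (.cv 3 1 true 0)) (.cv 3 1 true 0)) (.cv 3 1 true 0)) (.cv 3 1 true 0)) (.cv 3 1 true 0)) (.cv 3 1 true 0)) (.cv 3 1 true 0)) (.cv 3 1 true 0)) (.cv 3 1 true 0)) (.cv 3 1 true 0)) (.cv 3 1 true 0)) (.cv 3 1 true 0))) (.cv (-1) 0 true 8))) (.cv (-1) 0 true 7))) (.cv (-1) 0 true 6))) (.cv (-1) 0 true 5))) (.cv (-1) 0 true 4))) (.cv (-1) 0 true 3))) (.cv (-1) 0 true 2))) (.cv (-1) 0 true 1))) (.cv (-1) 0 true 0)) (.v (.cv 14 4 false 0) (.v (.cv 14 4 false 0) (.y (.cv 3 1 true 0) (.cv (-1) 0 true 0)))))))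

def t14 : T := .u (.v (.x (.u (.u (.cv 3 0 false 0) (.cv 7 (-1) false 0)) (.cv 7 (-1) false 0)) (.cv 2 1 false 0)) (.u (.x (.cv 3 0 false 0) (.u (.u (.u (.cv 78 (-20) false 0) (.u (.u (.u (.u (.y (.x (.cv 3 0 false 1) (.v (.cv (-8) 3 false 0) (.cv 78 (-20) false 0))) (.cv 3 0 true 0)) (.v (.cv (-8) 3 false 0) (.v (.cv (-8) 3 false 0) (.v (.cv (-8) 3 false 0) (.u (.u (.u (.y (.cv 3 1 true 0) (.cv (-1) 0 true 0)) (.v (.cv (-8) 3 false 0) (.v (.cv (-8) 3 false 0) (.v (.cv (-8) 3 false 0) (.u (.u (.v (.cv (-8) 3 false 0) (.y (.cv 3 1 true 0) (.cv (-1) 0 true 0))) (.cv (-8) 3 false 0)) (.cv (-8) 3 false 0)))))) (.cv (-8) 3 false 0)) (.cv (-8) 3 false 0)))))) (.cv (-8) 3 false 0)) (.cv (-8) 3 false 0)) (.cv (-8) 3 false 0))) (.cv (-8) 3 false 0)) (.cv (-8) 3 false 0))) (.x (.cv 7 (-1) false 0) (.u (.cv (-8) 3 false 0) (.u (.cv (-8) 3 false 0) (.u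 (.cv (-8) 3 false 0) (.cv 22 (-5) false 0))))))) (.v (.x t10 (.cv 2 1 false 0)) (.u (.v (.u (.x (.cv 7 (-1) false 0) (.y (.cv 7 (-1) true 0) (.x (.cv 7 (-1) false 1) (.y (.cv 7 (-1) true 1) (.v (.cv 22 (-5) false 0) (.v (.cv 10 3 false 0) (.cv (-1) 0 true 0))))))) (.v (.u (.x (.cv 7 (-1) false 0) (.y (.cv 7 (-1) true 0) (.u (.cv (-79) 22 true 0) (.x (.v (.v (.cv 2 1 false 0) (.y (.cv 37 (-9) true 1) (.x (.cv 37 (-9) false 2) (.y (.cv 37 (-9) true 2) (.x (.v (.v (.cv 2 1 false 0) (.v (.cv 2 1 false 0) (.v (.cv 2 1 false 0) (.v (.cv 2 1 false 0) (.u (.u (.cv 7 (-1) false 1) (.cv 2 1 false 0)) (.cv 2 1 false 0)))))) (.v (.cv (-35) (-9) false 3) (.cv (-5) (-1) false 1))) (.cv 37 (-9) false 3)))))) (.cv (-5) (-1) false 1)) (.cv 37 (-9) false 1))))) (.v (.u (.x (.cv 7 (-1) false 0) (.v (.cv 2 1 false 0) (.u (.v (.cv 2 1 false 0) (.u (.y (.cv 7 (-1)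 true 0) (.v (.v (.cv 0 1 false 0) (.v (.cv 0 1 false 0) (.v (.cv 0 1 false 0) (.u (.u (.u (.u (.v (.cv 0 1 false 0) (.x (.cv (-5) (-1) false 1) (.v (.u (.u (.v (.cv 0 1 false 0) (.cv (-35) (-9) false 1)) (.cv 0 1 false 0)) (.cv 0 1 false 0)) (.cv (-35) (-9) false 1)))) (.cv 0 1 false 0)) (.cv 0 1 false 0)) (.cv 0 1 false 0)) (.cv 0 1 false 0))))) (.cv 81 22 true 0))) (.cv 0 1 false 0))) (.cv 0 1 false 0)))) (.x (.u (.cv 7 (-1) false 0) (.u (.u (.cv 7 (-1) false 0) (.cv 269 (-71) false 0)) (.cv 269 (-71) false 0))) (.cv 0 1 false 0))) (.x (.cv (-5) (-1) false 0) (.v (.y (.cv (-5) (-1) true 0) (.x (.cv (-5) (-1) false 1) (.y (.cv (-5) (-1) true 1) (.u (.cv (-20) (-5) false 0) (.cv 0 1 false 0))))) (.v (.v (.cv 96 26 false 0) (.cv 10 3 false 0)) (.cv 10 3 false 0)))))) (.u (.x (.cv 7 (-1) false 0) (.v (.cv 10 3 false 0) (.y (.cv 7 (-1) true 0) (.cv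 (-1) 0 true 0)))) (.v (.x (.cv (-5) (-1) false 0) (.cv 10 3 false 0)) (.x (.cv (-1) 0 false 0) (.y (.v (.cv 10 3 false 0) (.v (.v (.x (.cv (-1) 0 false 1) (.v (.cv 10 3 false 0) (.cv (-76) (-20) false 0))) (.cv 40 11 false 0)) (.v (.cv 40 11 false 0) (.v (.cv 156 42 false 0) (.v (.cv 156 42 false 0) (.v (.cv 40 11 false 0) (.v (.cv 40 11 false 0) (.v (.cv 40 11 false 0) (.x (.cv (-1) 0 false 1) (.y (.x (.cv (-1) 0 false 2) (.u (.u (.cv 7 (-1) true 0) (.cv 153 (-40) false 1)) (.u (.cv (-1524) (-407) false 0) (.cv (-180) 49 false 0)))) (.cv (-1) 0 true 1))))))))))) (.cv (-1) 0 true 0))))))) (.x (.cv (-1) 0 false 0) t11)) t13))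

def t15 : T := .x (.y (.x (.y (.u (.u (.u (.x (.y (.x (.y (.u (.u (.cv 71 (-18) false 0) (.u (.cv 71 (-18) false 0) (.cv 187 (-49) false 0))) (.u (.u (.u (.x (.y (.v (.cv 2 1 false 1) (.v (.v (.v (.x (.v (.v (.v (.cv 2 1 false 1) (.v (.cv 2 1 false 1) (.cv (-50) (-13) false 1))) (.v (.cv 66 18 true 0) (.v (.cv 66 18 true 0) (.v (.cv 66 18 true 0) (.cv (-267) (-71) false 0))))) (.v (.v (.v (.v (.cv 182 49 false 1) (.v (.cv 182 49 false 1) (.v (.cv 182 49 false 1) (.v (.cv 182 49 false 1) (.v (.u (.u (.cv 187 (-49) false 0) (.cv 1080 289 false 3)) (.tr 20 (-5))) (.cv (-5) (-1) false 0)))))) (.cv (-5) (-1) false 0)) (.cv (-5) (-1) false 0)) (.cv (-5) (-1) false 0))) (.cv 0 1 false 7)) (.cv (-5) (-1) false 0)) (.v (.cv (-5) (-1) false 0) (.cv (-1) 0 false 0))) (.cv (-1) 0 false 0))) (.cv 0 1 true 6)) (.cv 0 1 false 6)) (.cv (-30) 9 false 1)) (.cv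 (-146) 40 true 0)) (.cv (-30) 9 false 1))) (.cv 0 1 true 5)) (.cv 0 1 false 5)) (.cv 0 1 true 4)) (.cv 0 1 false 4)) (.u (.u (.cv (-30) 9 false 1) (.cv (-15) 5 false 0)) (.cv (-15) 5 false 0))) (.x (.y (.x (.y (.x (.y (.x (.y (.x (.y (.x (.y (.x (.u (.cv (-15) 5 false 0) (.u (.u (.y (.x (.y (.x (.y (.x (.y (.x (.y (.x (.y (.x (.y (.x (.y (.x (.y (.u (.u (.cv (-15) 5 false 0) (.x (.y (.x (.y (.u (.v (.cv 2 1 false 1) (.v (.v (.v (.u (.cv (-15) 5 false 0) (.u (.cv (-15) 5 false 0) (.cv 15 (-3) false 0))) (.cv (-5) (-1) false 0)) (.v (.cv (-5) (-1) false 0) (.cv (-1) 0 false 0))) (.cv (-1) 0 false 0))) (.v (.cv 2 1 false 1) (.v (.v (.v (.cv 15 (-3) false 0) (.cv (-5) (-1) false 0)) (.v (.cv (-5) (-1) false 0) (.cv (-1) 0 false 0))) (.cv (-1) 0 false 0)))) (.cv 0 1 true 20)) (.cv 0 1 false 20)) (.cv 0 1 true 19)) (.cv 0 1 false 19))) (.cv 15 (-3)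 false 0)) (.cv 0 1 true 18)) (.cv 0 1 false 18)) (.cv 0 1 true 17)) (.cv 0 1 false 17)) (.cv 0 1 true 16)) (.cv 0 1 false 16)) (.cv 0 1 true 15)) (.cv 0 1 false 15)) (.cv 0 1 true 14)) (.cv 0 1 false 14)) (.cv 0 1 true 13)) (.cv 0 1 false 13)) (.cv 0 1 true 12)) (.cv 0 1 false 12)) (.cv 0 1 true 11)) (.cv 0 1 false 11)) (.cv 0 1 true 10)) (.cv 15 (-3) false 0)) (.cv 15 (-3) false 0))) (.cv 0 1 false 10)) (.cv 0 1 true 9)) (.cv 0 1 false 9)) (.cv 0 1 true 8)) (.cv 0 1 false 8)) (.cv 0 1 true 7)) (.cv 0 1 false 7)) (.cv 0 1 true 6)) (.cv 0 1 false 6)) (.cv 0 1 true 5)) (.cv 0 1 false 5)) (.cv 0 1 true 4)) (.cv 0 1 false 4))) (.v (.cv 2 1 false 1) (.v (.v (.v (.x (.y (.v (.cv 2 1 false 1) (.v (.v (.u (.u (.u (.x (.y (.x (.y (.x (.y (.x (.y (.x (.y (.x (.v (.cv 2 1 false 1) (.v (.v (.v (.cv 2 1 false 1) (.v (.cv 2 1 false 1) (.cv (-5) (-1) false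 0))) (.cv (-5) (-1) false 0)) (.cv (-5) (-1) false 0))) (.cv 0 1 false 10)) (.cv 0 1 true 9)) (.cv 0 1 false 9)) (.cv 0 1 true 8)) (.cv 0 1 false 8)) (.cv 0 1 true 7)) (.cv 0 1 false 7)) (.cv 0 1 true 6)) (.cv 0 1 false 6)) (.cv 0 1 true 5)) (.cv 0 1 false 5)) (.cv 2 1 false 1)) (.cv 2 1 false 1)) (.cv 2 1 false 1)) (.cv (-5) (-1) false 0)) (.cv (-5) (-1) false 0))) (.cv 0 1 true 4)) (.cv 0 1 false 4)) (.cv (-5) (-1) false 0)) (.v (.cv 10 3 false 1) (.cv (-1) 0 false 0))) (.cv (-1) 0 false 0)))) (.cv 0 1 true 3)) (.cv 0 1 false 3)) (.cv 0 1 true 2)) (.cv 0 1 false 2)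

def t16 : T := .u (.u (.u (.u (.x (.cv (-5) 2 false 0) (.u (.y (.x (.cv (-5) 2 false 1) (.y (.cv (-5) 2 true 1) (.x (.y (.u (.cv (-20) 6 false 0) (.cv 10 (-2) false 0)) (.cv (-5) 2 true 2)) (.cv (-5) 2 false 2)))) (.cv (-5) 2 true 0)) (.cv 10 (-2) false 0))) (.x (.cv (-1) 1 false 0) (.y (.cv (-1) 1 true 0) (.x (.cv (-1) 1 false 1) (.y t8 (.cv (-1) 1 true 1)))))) (.x (.cv (-1) 1 false 0) (.y (.cv (-1) 1 true 0) (.x (.cv (-1) 1 false 1) (.y (.u (.x (.cv (-1) 1 false 2) (.y (.x (.cv (-1) 1 false 3) (.y (.x (.cv (-1) 1 false 4) (.y (.x (.cv (-1) 1 false 5) (.y (.x (.cv (-1) 1 false 6) (.u (.u (.cv (-16) 5 false 0) (.u (.cv (-16) 5 false 0) (.u (.cv (-16) 5 false 0) (.u (.cv (-117) 32 true 0) (.u (.cv (-16) 5 false 0) (.u (.u (.cv (-16) 5 false 0) (.v (.v (.cv 2 1 false 0) (.v (.cv 2 1 false 0) (.v (.cv 6 2 false 0) (.v (.cv 6 2 false 0) (.cv (-16)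 5 false 0))))) (.v (.v (.cv 14 (-3) false 0) (.v (.cv (-5) (-1) true 1) (.cv (-1) 0 true 0))) (.cv (-1) 0 true 0)))) (.cv 14 (-3) false 0))))))) (.cv 14 (-3) false 0))) (.cv (-1) 1 true 5))) (.cv (-1) 1 true 4))) (.cv (-1) 1 true 3))) (.cv (-1) 1 true 2))) (.u (.u (.u (.x (.cv (-1) 1 false 2) (.y (.x (.cv (-1) 1 false 3) (.y (.x (.cv (-1) 1 false 4) (.y (.x (.cv (-1) 1 false 5) (.y (.v (.v (.cv 2 1 false 0) (.v (.cv 2 1 false 0) (.v (.cv 6 2 false 0) (.cv 3 0 true 0)))) (.cv 3 0 true 0)) (.cv (-1) 1 true 5))) (.cv (-1) 1 true 4))) (.cv (-1) 1 true 3))) (.cv (-1) 1 true 2))) (.v (.v (.cv 2 1 false 0) (.cv 3 0 true 0)) (.cv 3 0 true 0))) (.cv 3 0 true 0)) (.cv 3 0 true 0))) (.cv (-1) 1 true 1)))))) (.u (.x (.cv 3 0 false 0) (.y (.x (.cv 3 0 false 1) (.u (.u (.v (.cv (-1) 1 true 0) (.v (.cv (-1) 1 true 0) (.u (.cv (-1) 1 true 0) (.u (.cv (-1) 1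 true 0) (.u (.cv (-1) 1 true 0) (.y (.x (.cv (-1) 0 false 2) (.cv 3 0 false 2)) (.cv (-1) 0 true 1))))))) (.y (.x (.y (.x (.y (.x (.y (.x (.y (.x (.y (.x (.u (.u (.v (.cv (-1) 1 true 0) (.cv (-12) 4 false 0)) (.y (.x (.y (.x (.y (.x (.y (.x (.y (.x (.y (.u (.cv (-12) 4 false 0) (.u (.u (.u (.cv (-12) 4 false 0) (.v (.cv (-1) 1 true 0) (.cv 18 (-4) false 0))) (.cv 119 (-31) true 0)) (.cv 119 (-31) true 0))) (.cv 3 0 true 12)) (.cv 3 0 false 12)) (.cv 3 0 true 11)) (.cv 3 0 false 11)) (.cv 3 0 true 10)) (.cv 3 0 false 10)) (.cv 3 0 true 9)) (.cv 3 0 false 9)) (.cv 3 0 true 8)) (.cv 3 0 false 8)) (.cv 3 0 true 7))) (.cv 18 (-4) false 0)) (.cv 3 0 false 7)) (.cv 3 0 true 6)) (.cv 3 0 false 6)) (.cv 3 0 true 5)) (.cv 3 0 false 5)) (.cv 3 0 true 4)) (.cv 3 0 false 4)) (.cv 3 0 true 3)) (.cv 3 0 false 3)) (.cv 3 0 true 2)) (.cv 3 0 false 2)) (.cv 3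 0 true 1))) t9)) (.cv 3 0 true 0))) t14)) (.u (.x (.u (.u (.y (.v (.cv 0 1 true 0) (.u (.v (.cv 0 1 true 0) (.cv (-1) 0 false 0)) (.cv 0 1 true 0))) (.cv (-4) 2 true 0)) (.y (.cv 0 1 true 0) (.x (.y (.x (.u (.u (.cv (-4) 2 true 0) (.y (.u (.u (.cv (-4) 2 true 0) (.v (.cv (-4) 2 true 0) (.v (.v (.cv (-4) 2 true 0) (.u (.cv (-4) 2 true 0) (.u (.cv (-4) 2 true 0) (.v (.cv (-5) (-1) false 0) (.cv (-1) 0 false 0))))) (.cv (-1) 0 false 0)))) (.u (.cv (-75) 21 false 0) (.cv 41 (-10) false 0))) (.cv 0 1 true 2))) (.y (.x (.y (.u (.u (.u (.cv 41 (-10) false 0) (.u (.u (.cv 41 (-10) false 0) (.tr (-10) 3)) (.u (.u (.u (.tr (-10) 3) (.cv (-176) 48 true 0)) (.cv (-176) 48 true 0)) (.cv (-176) 48 true 0)))) (.u (.u (.x (.u (.cv 273 (-72) false 0) (.u (.u (.u (.u (.cv 273 (-72) false 0) (.u (.cv 273 (-72) false 0) (.cv (-2305) 617 false 0))) (.cv (-2305) 617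 false 0)) (.u (.cv 1171 (-312) false 0) (.cv (-60) 17 false 2))) (.cv (-60) 17 false 2))) (.cv 0 1 false 4)) (.cv (-60) 17 false 2)) (.u (.cv (-60) 17 false 2) (.cv 56 (-14) true 0)))) (.x (.y (.u (.u (.cv 56 (-14) true 0) (.u (.u (.cv (-277) 75 false 0) (.cv 172 (-45) true 1)) (.tr 5 (-1)))) (.u (.u (.cv (-161) 44 false 0) (.cv (-45) 13 false 0)) (.cv (-45) 13 false 0))) (.cv 0 1 true 4)) (.cv 0 1 false 4))) (.cv 0 1 true 3)) (.cv 0 1 false 3)) (.cv 0 1 true 2))) (.cv 0 1 false 2)) (.cv 0 1 true 1)) (.cv 0 1 false 1)))) (.y (.cv 0 1 true 0) (.x (.y t15 (.cv 0 1 true 1)) (.cv 0 1 false 1)))) (.cv 0 1 false 0)) (.u (.x (.y (.u (.cv 0 1 true 0) (.v (.cv 2 1 true 0) (.x (.y (.v (.v (.cv 2 1 true 0) (.v (.cv 10 3 true 0) (.v (.cv 10 3 true 0) (.cv (-1) 0 false 0)))) (.cv (-1) 0 false 0)) (.cv 4 0 true 1)) (.cv 4 0 false 1)))) (.cv 4 0 true 0)) (.cv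 4 0 false 0)) (.u (.v (.x (.cv 1 1 false 0) (.cv 2 1 false 0)) (.u (.v (.x (.cv 1 1 false 0) (.cv 2 1 false 0)) (.x (.cv (-1) 0 false 0) (.cv 4 0 false 0))) (.x (.cv (-7) 3 false 0) (.cv 8 (-1) false 0)))) (.x (.cv 1 1 false 0) (.v (.cv 2 1 false 0) (.v (.cv 2 1 false 0) (.u (.cv 8 (-1) false 0) (.y (.cv 1 1 true 0) (.cv (-1) 0 true 0)))))))))

def tree_adic_trap : T := t16

theorem chk_real_main : chk true true tree_real_main (-63000000000000000000) 50000000000000000000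
    (-438000000000000000000) 50000000000000000000 0 0 0 0 = true := by decide +kernel

theorem chk_real_trap : chk true false tree_real_trap 243700000000000000000 437100000000000000000
    (-182100000000000000000) (-92000000000000000000) 0 0 0 0 = true := by decide +kernel

theorem chk_adic_main : chk false true tree_adic_main (-63000000000000000000) 50000000000000000000
    (-438000000000000000000) 50000000000000000000 0 0 0 0 = true := by decide +kernel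

theorem chk_adic_trap : chk false false tree_adic_trap 243700000000000000000 437100000000000000000
    (-182100000000000000000) (-92000000000000000000) 0 0 0 0 = true := by decide +kernel

end Pool.Agent.H400Z.Win
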