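import Mathlib
import Pool.Agent.H400Z.Win.Bridge2

set_option autoImplicit false

namespace Pool.Agent.H400Z.Win2

open Pool.Agent.H400Z.Win

/-- first real embedding -/
noncomputable def sg : ℤ√2 →+* ℝ := Zsqrtd.lift ⟨√2, by norm_num⟩

/-- second real embedding -/
noncomputable def tg : ℤ√2 →+* ℝ := Zsqrtd.lift ⟨-√2, by norm_num⟩

theorem sg_apply (z : ℤ√2) : sg z = z.re + z.im * √2 := by simp [sg]

theorem tg_apply (z : ℤ√2) : tg z = z.re - z.im * √2 := by simp [tg, sub_eq_add_neg]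

theorem norm_eq (z : ℤ√2) : (z.norm : ℝ) = sg z * tg z := by
  have h : √2 * √2 = (2 : ℝ) := by norm_num
  rw [sg_apply, tg_apply, Zsqrtd.norm_def]; push_cast
  linear_combination (z.im : ℝ) ^ 2 * h

/-- the fundamental unit -/
def eu : ℤ√2 := ⟨1, 1⟩

/-- its inverse -/
def ev : ℤ√2 := ⟨-1, 1⟩

theorem eu_ev : eu * ev = 1 := by decide

theorem eu_eq : eu = 1 + piz := by decide

theorem ev_eq : ev = 1 - piz * ev := by decide

/-- the orbit of the homoclinic point -/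
def P (m : ℕ) (z : ℤ√2) : Prop :=
  ∃ i < m, ∃ q : ℤ√2, z = (eu ^ m - 1) * (1 - piz * q) + eu ^ i * piz

theorem P_eu {m : ℕ} {z : ℤ√2} (h : P m z) : P m (eu * z) := by
  obtain ⟨i, hi, q, rfl⟩ := h
  by_cases h1 : i + 1 < m
  · refine ⟨i + 1, h1, eu * q - 1, ?_⟩
    linear_combination (eu ^ m - 1) * eu_eq
  · obtain rfl : m = i + 1 := by omega
    refine ⟨0, by omega, eu * q - 2, ?_⟩
    linear_combination (eu ^ (i + 1) - 1) * eu_eq

theorem P_ev {m : ℕ} {z : ℤ√2} (h : P m z) : P m (ev * z) := by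
  obtain ⟨i, hi, q, rfl⟩ := h
  cases i with
  | succ i =>
    refine ⟨i, by omega, ev * q + ev, ?_⟩
    linear_combination (eu ^ m - 1) * ev_eq + eu ^ i * piz * eu_ev
  | zero =>
    obtain ⟨n, rfl⟩ : ∃ n, m = n + 1 := ⟨m - 1, by omega⟩
    refine ⟨n, by omega, ev * q + 2 * ev, ?_⟩
    linear_combination (eu ^ (n + 1) - 1) * ev_eq + eu ^ n * piz * eu_ev

theorem s2_bounds : (1.4 : ℝ) < √2 ∧ √2 < 1.5 :=
  ⟨(Real.lt_sqrt (by norm_num)).2 (by norm_num), (Real.sqrt_lt' (by norm_num)).2 (by norm_num)⟩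

theorem sg_eu : sg eu = 1 + √2 := by simp [sg_apply, eu]

theorem tg_eu : tg eu = -(1 + √2)⁻¹ := by
  have h : √2 * √2 = (2 : ℝ) := by norm_num
  have h0 : (1 + √2 : ℝ) ≠ 0 := by positivity
  rw [tg_apply]; field_simp; simp [eu]; linear_combination -h

theorem sg_ev : sg ev = (1 + √2)⁻¹ := by
  have h := congrArg sg eu_ev
  rw [map_mul, map_one, sg_eu] at h
  exact eq_inv_of_mul_eq_one_right h

theorem tg_ev : tg ev = -(1 + √2) := by
  rw [tg_apply]; simp [ev]; ring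

theorem P_zpow {m : ℕ} {z : ℤ√2} (h : P m z) (j : ℤ) :
    ∃ y, P m y ∧ |sg y| = (1 + √2) ^ j * |sg z| ∧ |tg y| = ((1 + √2) ^ j)⁻¹ * |tg z| := by
  have h0 : (0 : ℝ) < 1 + √2 := by positivity
  induction j using Int.induction_on with
  | zero => exact ⟨z, h, by simp, by simp⟩
  | succ n ih =>
    obtain ⟨y, h1, h2, h3⟩ := ih
    refine ⟨eu * y, P_eu h1, ?_, ?_⟩
    · rw [map_mul, abs_mul, h2, sg_eu, abs_of_pos h0, zpow_add_one₀ h0.ne']; ring
    · rw [map_mul, abs_mul, h3, tg_eu, abs_neg, abs_of_pos (inv_pos.2 h0), zpow_add_one₀ h0.ne']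
      field_simp
  | pred n ih =>
    obtain ⟨y, h1, h2, h3⟩ := ih
    refine ⟨ev * y, P_ev h1, ?_, ?_⟩
    · rw [map_mul, abs_mul, h2, sg_ev, abs_of_pos (inv_pos.2 h0), zpow_sub_one₀ h0.ne']; ring
    · rw [map_mul, abs_mul, h3, tg_ev, abs_neg, abs_of_pos h0, zpow_sub_one₀ h0.ne']
      field_simp

theorem one_le_norm (q : ℤ√2) : 1 ≤ |sg (1 - piz * q)| * |tg (1 - piz * q)| := by
  have h : (1 - piz * q) ≠ 0 := by
    intro h
    have := congrArg Zsqrtd.re h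
    simp [piz] at this
    omega
  rw [← abs_mul, ← norm_eq]
  exact_mod_cast Int.one_le_abs (norm_ne_zero h)

theorem P_big {m : ℕ} (hm : Even m) (hE : 100 ≤ (1 + √2) ^ m) {z : ℤ√2} (h : P m z)
    (h1 : |sg z| ≤ 1 / 10 * |sg (piz * (eu ^ m - 1))|)
    (h2 : |tg z| ≤ 1 / 10 * |tg (piz * (eu ^ m - 1))|) : False := by
  obtain ⟨i, hi, q, rfl⟩ := h
  have hq := one_le_norm q
  obtain ⟨s1, s2⟩ := s2_bounds
  have hs : √2 * √2 = (2 : ℝ) := by norm_num
  have h0 : (1 : ℝ) < 1 + √2 := by linarith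
  have p1 : sg piz = √2 := by simp [sg_apply, piz]
  have p2 : tg piz = -√2 := by simp [tg_apply, piz]
  generalize (1 - piz * q) = y at *
  simp only [map_add, map_mul, map_sub, map_pow, map_one, sg_eu, tg_eu, p1, p2, hm.neg_pow,
    inv_pow] at h1 h2
  have hi1 : 1 ≤ (1 + √2) ^ i := one_le_pow₀ h0.le
  have hi2 : (1 + √2) ^ i ≤ (1 + √2) ^ m := pow_le_pow_right₀ h0.le hi.le
  have e1 : |(-(1 + √2)⁻¹) ^ i * -√2| = ((1 + √2) ^ i)⁻¹ * √2 := by
    rw [abs_mul, abs_pow, abs_neg, abs_neg, abs_of_pos (by positivity : 0 < (1 + √2)⁻¹),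
      abs_of_pos (by positivity : 0 < √2), inv_pow]
  generalize (1 + √2) ^ m = E at *
  generalize (-(1 + √2)⁻¹) ^ i * -√2 = w at *
  generalize (1 + √2) ^ i = I at *
  have hE1 : E⁻¹ ≤ 1 / 100 := by
    rw [one_div]; exact inv_anti₀ (by norm_num) hE
  have hE2 : 0 < E⁻¹ := by positivity
  have a1 : (E - 1) * |sg y| ≤ 1 / 10 * (√2 * (E - 1)) + I * √2 := by
    have := abs_sub ((E - 1) * sg y + I * √2) (I * √2)
    rw [add_sub_cancel_right, abs_mul, abs_of_pos (by linarith : 0 < E - 1),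
      abs_of_pos (by positivity : 0 < I * √2)] at this
    rw [abs_of_pos (by nlinarith : 0 < √2 * (E - 1))] at h1
    linarith
  have a2 : (1 - E⁻¹) * |tg y| ≤ 1 / 10 * (√2 * (1 - E⁻¹)) + I⁻¹ * √2 := by
    have := abs_sub ((E⁻¹ - 1) * tg y + w) w
    rw [add_sub_cancel_right, abs_mul, abs_of_neg (by linarith : E⁻¹ - 1 < 0), e1] at this
    rw [abs_of_pos (by nlinarith : 0 < -√2 * (E⁻¹ - 1))] at h2
    linarith
  have hI : I⁻¹ ≤ 1 := inv_le_one_of_one_le₀ hi1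
  have hI0 : 0 < I⁻¹ := by positivity
  have hII : I * I⁻¹ = 1 := mul_inv_cancel₀ (by positivity)
  have b1 : 0 ≤ (E - 1) * |sg y| := mul_nonneg (by linarith) (abs_nonneg _)
  have b2 : 0 ≤ (1 - E⁻¹) * |tg y| := mul_nonneg (by linarith) (abs_nonneg _)
  have b3 := mul_le_mul a1 a2 b2 (b1.trans a1)
  have b4 : (E - 1) * (1 - E⁻¹) ≤ (E - 1) * |sg y| * ((1 - E⁻¹) * |tg y|) := by
    have : 0 ≤ (E - 1) * (1 - E⁻¹) := mul_nonneg (by linarith) (by linarith)
    calc _ ≤ (E - 1) * (1 - E⁻¹) * (|sg y| * |tg y|) := le_mul_of_one_le_right this hq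
      _ = _ := by ring
  have b5 : (1 / 10 * (√2 * (E - 1)) + I * √2) * (1 / 10 * (√2 * (1 - E⁻¹)) + I⁻¹ * √2) =
      2 * (1 / 100 * ((E - 1) * (1 - E⁻¹)) + 1 / 10 * ((E - 1) * I⁻¹) +
        1 / 10 * (I * (1 - E⁻¹)) + 1) := by
    linear_combination (1 / 100 * ((E - 1) * (1 - E⁻¹)) + 1 / 10 * ((E - 1) * I⁻¹) +
        1 / 10 * (I * (1 - E⁻¹)) + I * I⁻¹) * hs + 2 * hII
  have b6 : (E - 1) * I⁻¹ ≤ E :=
    (mul_le_of_le_one_right (by linarith) hI).trans (by linarith)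
  have b7 : I * (1 - E⁻¹) ≤ E :=
    (mul_le_of_le_one_right (by linarith) (by linarith)).trans hi2
  have b8 : (E - 1) * (99 / 100) ≤ (E - 1) * (1 - E⁻¹) :=
    mul_le_mul_of_nonneg_left (by linarith) (by linarith)
  linarith

theorem P_norm {m : ℕ} (hm : Even m) (hE : 100 ≤ (1 + √2) ^ m) {z : ℤ√2} (h : P m z)
    (hb : piz * (eu ^ m - 1) ≠ 0) :
    1 / 250 * |((piz * (eu ^ m - 1)).norm : ℝ)| ≤ |(z.norm : ℝ)| := by
  by_contra hlt
  push Not at hlt
  obtain ⟨s1, s2⟩ := s2_bounds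
  have hb0 : ((piz * (eu ^ m - 1)).norm : ℝ) ≠ 0 := by exact_mod_cast norm_ne_zero hb
  have key := fun z h => P_big hm hE (z := z) h
  generalize piz * (eu ^ m - 1) = b at *
  rw [norm_eq] at hb0
  rw [norm_eq, norm_eq, abs_mul, abs_mul] at hlt
  have hb1 : 0 < |sg b| := abs_pos.2 (left_ne_zero_of_mul hb0)
  have hb2 : 0 < |tg b| := abs_pos.2 (right_ne_zero_of_mul hb0)
  by_cases hz : z = 0
  · exact key z h (by rw [hz]; simp) (by rw [hz]; simp)
  have hz0 : (z.norm : ℝ) ≠ 0 := by exact_mod_cast norm_ne_zero hz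
  rw [norm_eq] at hz0
  have hz1 : 0 < |sg z| := abs_pos.2 (left_ne_zero_of_mul hz0)
  obtain ⟨n, hn1, hn2⟩ := exists_mem_Ico_zpow (x := 1 / 10 * |sg b| / |sg z|) (y := 1 + √2)
    (by positivity) (by linarith)
  obtain ⟨y, hy, e1, e2⟩ := P_zpow h n
  rw [zpow_add_one₀ (by positivity)] at hn2
  have hJ : 0 < (1 + √2) ^ n := by positivity
  generalize (1 + √2) ^ n = J at *
  rw [le_div_iff₀ hz1] at hn1
  rw [div_lt_iff₀ hz1] at hn2
  refine key y hy (by rw [e1]; exact hn1) ?_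
  rw [e2, inv_mul_le_iff₀ hJ]
  by_contra hc
  push Not at hc
  have c1 : |sg z| * (J * (1 / 10 * |tg b|)) ≤ |sg z| * |tg z| := by gcongr
  have c2 : J * (1 + √2) * |sg z| ≤ J * (5 / 2) * |sg z| := by gcongr; linarith
  have c3 : 1 / 10 * |sg b| * |tg b| < J * (5 / 2) * |sg z| * |tg b| := by
    exact mul_lt_mul_of_pos_right (hn2.trans_le c2) hb2
  nlinarith

theorem eu_pow (j : ℕ) : ∃ W : ℤ√2, eu ^ 2 ^ (j + 1) = 1 + 2 ^ (j + 1) * W := by
  induction j with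
  | zero => exact ⟨eu, by decide⟩
  | succ j ih =>
    obtain ⟨W, hW⟩ := ih
    refine ⟨W + 2 ^ j * W ^ 2, ?_⟩
    rw [pow_succ 2 (j + 1), pow_mul, hW]; ring

theorem not_eucl {c : ℝ} (hc0 : 0 < c) (hc : c < 2) : ¬ IsEuclideanFunction (F c) := by
  rintro ⟨_, _, _, h4⟩
  obtain ⟨s1, s2⟩ := s2_bounds
  obtain ⟨k, hk⟩ := exists_pow_lt_of_lt_one (x := (1 / 250 : ℝ)) (y := c / 2) (by norm_num)
    (by linarith)
  obtain ⟨W, hW⟩ := eu_pow (k + 2)
  set m := 2 ^ (k + 2 + 1) with hm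
  have hme : Even m := ⟨2 ^ (k + 2), by rw [hm]; ring⟩
  have hm8 : 8 ≤ m := by
    have := Nat.one_le_two_pow (n := k)
    rw [hm, pow_succ, pow_succ, pow_succ]; omega
  have hE : 100 ≤ (1 + √2) ^ m := by
    calc (100 : ℝ) ≤ 2 ^ 8 := by norm_num
      _ ≤ (1 + √2) ^ 8 := by gcongr; linarith
      _ ≤ _ := pow_le_pow_right₀ (by linarith) hm8
  have hb : piz * (eu ^ m - 1) ≠ 0 := by
    intro h
    have h1 := congrArg sg h
    have p1 : sg piz = √2 := by simp [sg_apply, piz]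
    rw [map_mul, map_sub, map_pow, sg_eu, p1, map_one, map_zero] at h1
    nlinarith
  obtain ⟨q, hq⟩ := h4 ((eu ^ m - 1) + piz) _ hb
  have hP : P m ((eu ^ m - 1) + piz - piz * (eu ^ m - 1) * q) := ⟨0, by omega, q, by ring⟩
  have hN := P_norm hme hE hP hb
  have hz4 : ¬ (2 : ℤ) ^ 2 ∣ ((eu ^ m - 1) + piz - piz * (eu ^ m - 1) * q).norm := by
    have e : (eu ^ m - 1) + piz - piz * (eu ^ m - 1) * q =
        piz + 2 * (2 ^ (k + 2) * W * (1 - piz * q)) := by rw [hW]; ring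
    rw [e]
    generalize 2 ^ (k + 2) * W * (1 - piz * q) = y
    have e2 : (piz + 2 * y).norm = 4 * (y.re ^ 2 - 2 * y.im ^ 2 - 2 * y.im) - 2 := by
      simp [Zsqrtd.norm_def, piz]; ring
    rw [e2]; omega
  have hbd : (2 : ℤ) ^ (k + 1) ∣ (piz * (eu ^ m - 1)).norm := by
    have e : piz * (eu ^ m - 1) = ((2 ^ (k + 1) : ℤ) : ℤ√2) * (4 * piz * W) := by
      rw [hW]; push_cast; ring
    rw [e, Zsqrtd.norm_mul, Zsqrtd.norm_intCast]
    exact (dvd_mul_right _ _).mul_right _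
  generalize (eu ^ m - 1) + piz - piz * (eu ^ m - 1) * q = z at *
  generalize piz * (eu ^ m - 1) = b at *
  have hz : z ≠ 0 := by rintro rfl; simp at hz4
  have v1 : padicValInt 2 z.norm ≤ 1 := by
    by_contra h
    exact hz4 (by exact_mod_cast (padicValInt_dvd_iff (p := 2) 2 z.norm).2 (Or.inr (by omega)))
  have v2 : k + 1 ≤ padicValInt 2 b.norm := by
    have := (padicValInt_dvd_iff (p := 2) (k + 1) b.norm).1 (by exact_mod_cast hbd)
    have := norm_ne_zero hb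
    tauto
  simp only [F, if_neg hz, if_neg hb] at hq
  have w1 : (c / 2) ^ 1 ≤ (c / 2) ^ padicValInt 2 z.norm :=
    pow_le_pow_of_le_one (by positivity) (by linarith) v1
  have w2 : (c / 2) ^ padicValInt 2 b.norm ≤ (c / 2) ^ (k + 1) :=
    pow_le_pow_of_le_one (by positivity) (by linarith) v2
  have w3 : |(b.norm : ℝ)| * (c / 2) ^ padicValInt 2 b.norm ≤
      |(z.norm : ℝ)| * (c / 2) ^ padicValInt 2 z.norm := by
    calc _ ≤ |(b.norm : ℝ)| * (c / 2) ^ (k + 1) := by gcongr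
      _ = |(b.norm : ℝ)| * (c / 2) ^ k * (c / 2) := by ring
      _ ≤ |(b.norm : ℝ)| * (1 / 250) * (c / 2) := by gcongr
      _ = 1 / 250 * |(b.norm : ℝ)| * (c / 2) ^ 1 := by ring
      _ ≤ _ := by gcongr
  linarith

theorem F_two (z : ℤ√2) : F 2 z = |(z.norm : ℝ)| := by
  by_cases hz : z = 0 <;> simp [F, hz]

theorem eucl_two : IsEuclideanFunction (F 2) := by
  refine ⟨fun r => by rw [F_two]; positivity, fun t _ => ?_, fun r => ?_, fun a b hb => ?_⟩
  · refine ((Set.finite_Icc (0 : ℤ) ⌈t⌉).image (fun n : ℤ => (n : ℝ))).subset ?_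
    rintro x ⟨⟨z, rfl⟩, h1, h2⟩
    rw [F_two] at h2 ⊢
    refine ⟨|z.norm|, ⟨abs_nonneg _, ?_⟩, by push_cast; rfl⟩
    have := h2.trans (Int.le_ceil t)
    exact_mod_cast this
  · rw [F_two]
    constructor
    · intro h
      by_contra h0
      exact norm_ne_zero h0 (by exact_mod_cast abs_eq_zero.1 h)
    · rintro rfl; simp
  · have hn : (b.norm : ℝ) ≠ 0 := by exact_mod_cast norm_ne_zero hb
    set x : ℝ := (a * star b).re / b.norm with hx
    set y : ℝ := (a * star b).im / b.norm with hy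
    refine ⟨⟨round x, round y⟩, ?_⟩
    rw [F_two, F_two]
    have e : ((a - b * ⟨round x, round y⟩).norm : ℝ) =
        b.norm * ((x - round x) ^ 2 - 2 * (y - round y) ^ 2) := by
      generalize round x = u
      generalize round y = v
      rw [hx, hy]
      field_simp
      simp [Zsqrtd.norm_def]
      ring
    have h1 := abs_sub_round x
    have h2 := abs_sub_round y
    rw [abs_le] at h1 h2
    have h3 : |(x - round x) ^ 2 - 2 * (y - round y) ^ 2| < 1 := by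
      rw [abs_lt]; constructor <;> nlinarith
    rw [e, abs_mul]
    exact mul_lt_of_lt_one_right (abs_pos.2 hn) h3

end Pool.Agent.H400Z.Win2
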