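import Mathlib
import Pool.Agent.H400Z.Win.Cert

set_option autoImplicit false

namespace Pool.Agent.H400Z.Win

theorem good_e {real : Bool} {D x y : ℤ} (h : Good real D (15 * x + 56 * y) (4 * x + 15 * y)) :
    Good real D x y := by
  obtain ⟨a, b, V, h⟩ := h
  refine ⟨15 * a - 56 * b, 15 * b - 4 * a, V, ?_⟩
  have e : Nf (x - D * (15 * a - 56 * b)) (y - D * (15 * b - 4 * a)) =
      Nf (15 * x + 56 * y - D * a) (4 * x + 15 * y - D * b) := by unfold Nf; ring
  rwa [e]

theorem good_e' {real : Bool} {D x y : ℤ} (h : Good real D (15 * x - 56 * y) (15 * y - 4 * x)) :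
    Good real D x y := by
  obtain ⟨a, b, V, h⟩ := h
  refine ⟨15 * a + 56 * b, 15 * b + 4 * a, V, ?_⟩
  have e : Nf (x - D * (15 * a + 56 * b)) (y - D * (15 * b + 4 * a)) =
      Nf (15 * x - 56 * y - D * a) (15 * y - 4 * x - D * b) := by unfold Nf; ring
  rwa [e]

theorem good_neg {real : Bool} {D x y : ℤ} (h : Good real D (-x) (-y)) : Good real D x y := by
  obtain ⟨a, b, V, h⟩ := h
  refine ⟨-a, -b, V, ?_⟩
  have e : Nf (x - D * -a) (y - D * -b) = Nf (-x - D * a) (-y - D * b) := by unfold Nf; ring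
  rwa [e]

theorem rk_flip (p q r : ℤ) (h : (r + q) % 2 = 1) : rk (1 - p) r = rk p q := by
  have e1 : (1 - p) % 4 - (1 - p) % 2 = p % 4 - p % 2 := by omega
  have e3 : (1 - p + r) % 2 = (p + q) % 2 := by omega
  unfold rk; rw [e1, e3]

theorem rk_step {D : ℤ} (hD : Odd D) (x y a b c d e f : ℤ) :
    rk (D * ((4 * a - 1) * x + 4 * b * y - D * (4 * c - 1)))
      (D * (4 * d * x + (4 * e - 1) * y - D * (2 * f + 1))) = rk (D * x) (D * y) := by
  obtain ⟨k, hk⟩ : ∃ k, D * D = 4 * k + 1 := by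
    obtain ⟨m, rfl⟩ := hD; exact ⟨m ^ 2 + m, by ring⟩
  have e1 : D * ((4 * a - 1) * x + 4 * b * y - D * (4 * c - 1)) =
      1 - D * x + 4 * (a * (D * x) + b * (D * y) - c * (D * D) + k) := by linear_combination hk
  have e2 : D * (4 * d * x + (4 * e - 1) * y - D * (2 * f + 1)) =
      -(2 * f + 1) - D * y + 4 * (d * (D * x) + e * (D * y) - k * (2 * f + 1)) := by
    linear_combination (-(2 * f + 1)) * hk
  rw [e1, e2, rk_add, rk_flip _ (D * y)]
  omega

theorem r14_bounds : (3.7416 : ℝ) < √14 ∧ √14 < 3.7417 :=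
  ⟨(Real.lt_sqrt (by norm_num)).2 (by norm_num), (Real.sqrt_lt' (by norm_num)).2 (by norm_num)⟩

theorem orbit {real : Bool} {D : ℤ} (ho : real = false → Odd D) (x y j : ℤ) :
    ∃ x' y', (Good real D x' y' → Good real D x y) ∧
      (real = false → rk (D * x') (D * y') = rk (D * x) (D * y)) ∧
      Nf (2 * x' - D) (2 * y' - D) = Nf (2 * x - D) (2 * y - D) ∧
      ((2 * x' - D) + (2 * y' - D) * √14 : ℝ) =
        (15 + 4 * √14) ^ j * ((2 * x - D) + (2 * y - D) * √14) := by
  have h0 : (15 + 4 * √14 : ℝ) ≠ 0 := by positivity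
  induction j using Int.induction_on with
  | zero => exact ⟨x, y, id, fun _ => rfl, rfl, by simp⟩
  | succ n ih =>
    obtain ⟨p, q, h1, h2, h3, h4⟩ := ih
    refine ⟨15 * p + 56 * q - D * 35, 4 * p + 15 * q - D * 9,
      fun h => h1 (good_e (good_shift _ _ h)), fun h => ?_, ?_, ?_⟩
    · rw [← h2 h, ← rk_step (ho h) p q 4 14 9 1 4 4]; norm_num
    · rw [← h3]; unfold Nf; ring
    · rw [zpow_add_one₀ h0, mul_comm _ (15 + 4 * √14), mul_assoc, ← h4]; push_cast
      linear_combination (-4 * (2 * q - D : ℝ)) * r14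
  | pred n ih =>
    obtain ⟨p, q, h1, h2, h3, h4⟩ := ih
    have hinv : (15 + 4 * √14 : ℝ)⁻¹ = 15 - 4 * √14 :=
      inv_eq_of_mul_eq_one_right (by linear_combination (-16) * r14)
    refine ⟨15 * p - 56 * q - D * (-21), 15 * q - 4 * p - D * 5,
      fun h => h1 (good_e' (good_shift _ _ h)), fun h => ?_, ?_, ?_⟩
    · rw [← h2 h, ← rk_step (ho h) p q 4 (-14) (-5) (-1) 4 2]; congr 2 <;> ring
    · rw [← h3]; unfold Nf; ring
    · rw [zpow_sub_one₀ h0, hinv, mul_comm _ (15 - 4 * √14), mul_assoc, ← h4]; push_cast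
      linear_combination (4 * (2 * q - D : ℝ)) * r14

theorem trap_pos {real : Bool} {D x y : ℤ} (hD : 0 < D) (ho : real = false → Odd D)
    (h : Trap D x y) (hpos : (0 : ℝ) < (2 * x - D) + (2 * y - D) * √14) :
    Good real D x y ∨ (real = false ∧ ∃ x' y', Trap D x' y' ∧
      rk (D * x') (D * y') < rk (D * x) (D * y) ∧ (Good real D x' y' → Good real D x y)) := by
  have hD' : (0 : ℝ) < D := by exact_mod_cast hD
  obtain ⟨s1, s2⟩ := r14_bounds
  obtain ⟨n, hn1, hn2⟩ := exists_mem_Ico_zpow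
    (x := 4 * D / ((2 * x - D) + (2 * y - D) * √14 : ℝ)) (y := 15 + 4 * √14)
    (by positivity) (by linarith)
  obtain ⟨p, q, h1, h2, h3, h4⟩ := orbit ho x y n
  rw [zpow_add_one₀ (by positivity), div_lt_iff₀ hpos] at hn2
  rw [le_div_iff₀ hpos, ← h4] at hn1
  rw [mul_right_comm, ← h4] at hn2
  have h5 : 25 * |(Nf (2 * p - D) (2 * q - D) : ℝ)| ≤ 3 * D ^ 2 := by
    unfold Trap at h; rw [← h3] at h; exact_mod_cast h
  rw [Nf_real] at h5
  push_cast at h5
  have hU : 2 / 15 * (D : ℝ) < (2 * p - D) + (2 * q - D) * √14 := by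
    by_contra hc
    push Not at hc
    have := mul_le_mul_of_nonneg_right hc (by positivity : (0 : ℝ) ≤ 15 + 4 * √14)
    nlinarith
  have hV : |(2 * p - D : ℝ) - (2 * q - D) * √14| ≤ 9 / 10 * D := by
    rw [abs_mul, abs_of_pos (by linarith)] at h5
    by_contra hc
    push Not at hc
    have := mul_lt_mul'' hU hc (by positivity) (by positivity)
    nlinarith
  rw [abs_le] at hV
  have d1 : (3.7416 : ℝ) * D < √14 * D := by gcongr
  have d2 : √14 * D < (3.7417 : ℝ) * D := by gcongr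
  have key : ∀ t, chk real false t 243700000000000000000 437100000000000000000
      (-182100000000000000000) (-92000000000000000000) 0 0 0 0 = true →
      Good real D x y ∨ (real = false ∧ ∃ x' y', Trap D x' y' ∧
      rk (D * x') (D * y') < rk (D * x) (D * y) ∧ (Good real D x' y' → Good real D x y)) := by
    intro t ht
    rcases chk_sound real false (x := p) (y := q) hD ho t _ _ _ _ _ _ _ _ ht
      (by unfold S; push_cast; linarith) (by unfold S; push_cast; linarith)
      (by unfold S; push_cast; linarith) (by unfold S; push_cast; linarith) (by simp) (by simp)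
      with g | ⟨a, b, g1, g2⟩
    · exact Or.inl (h1 g)
    · rcases g2 with g2 | ⟨g2, g3⟩
      · simp at g2
      · exact Or.inr ⟨g2, _, _, g1, h2 g2 ▸ g3, fun g => h1 (good_shift _ _ g)⟩
  cases real with
  | true => exact key _ chk_real_trap
  | false => exact key _ chk_adic_trap

theorem Nf_eq_zero {x y : ℤ} (h : Nf x y = 0) : x = 0 ∧ y = 0 := by
  have : (⟨x, y⟩ : ℤ√14) = 0 := by
    by_contra h0
    exact norm_ne_zero h0 (by rw [← h]; simp [Zsqrtd.norm_def, Nf])
  exact ⟨congrArg Zsqrtd.re this, congrArg Zsqrtd.im this⟩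

theorem trap_step {real : Bool} {D x y : ℤ} (hD : 0 < D) (ho : real = false → Odd D)
    (h : Trap D x y) : (2 * x = D ∧ 2 * y = D) ∨
    Good real D x y ∨ (real = false ∧ ∃ x' y', Trap D x' y' ∧
      rk (D * x') (D * y') < rk (D * x) (D * y) ∧ (Good real D x' y' → Good real D x y)) := by
  rcases lt_trichotomy (0 : ℝ) ((2 * x - D) + (2 * y - D) * √14) with h1 | h1 | h1
  · exact Or.inr (trap_pos hD ho h h1)
  · have : Nf (2 * x - D) (2 * y - D) = 0 := by
      have : (Nf (2 * x - D) (2 * y - D) : ℝ) = 0 := by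
        rw [Nf_real]; push_cast; rw [← h1, zero_mul]
      exact_mod_cast this
    have := Nf_eq_zero this
    exact Or.inl ⟨by omega, by omega⟩
  · have g : Good real D (-x - D * (-1)) (-y - D * (-1)) → Good real D x y :=
      fun g => good_neg (good_shift _ _ g)
    rcases trap_pos (x := -x - D * (-1)) (y := -y - D * (-1)) hD ho
      (by unfold Trap at h ⊢; convert h using 3; unfold Nf; ring) (by push_cast; linarith)
      with h2 | ⟨h2, p, q, h3, h4, h5⟩
    · exact Or.inr (Or.inl (g h2))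
    · refine Or.inr (Or.inr ⟨h2, p, q, h3, ?_, fun h => g (h5 h)⟩)
      rw [← rk_step (ho h2) x y 0 0 0 0 0 (-1)]
      convert h4 using 3 <;> ring

theorem trap_adic {D : ℤ} (hD : 0 < D) (ho : Odd D) (n : ℕ) :
    ∀ x y, Trap D x y → rk (D * x) (D * y) < n → Good false D x y := by
  induction n with
  | zero =>
    intro x y _ h
    have : 0 ≤ rk (D * x) (D * y) := Int.emod_nonneg _ (by norm_num)
    omega
  | succ n ih =>
    intro x y h h1
    rcases trap_step (real := false) hD (fun _ => ho) h with g | g | ⟨_, p, q, g1, g2, g3⟩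
    · obtain ⟨m, rfl⟩ := ho; omega
    · exact g
    · exact g3 (ih p q g1 (by omega))

theorem trap_all {real : Bool} {D x y : ℤ} (hD : 0 < D) (ho : real = false → Odd D)
    (h : Trap D x y) : Good real D x y ∨ (2 * x = D ∧ 2 * y = D) := by
  cases real with
  | true =>
    rcases trap_step hD ho h with g | g | ⟨g, _⟩
    · exact Or.inr g
    · exact Or.inl g
    · simp at g
  | false => exact Or.inl (trap_adic hD (ho rfl) 4 x y h (Int.emod_lt_of_pos _ (by norm_num)))

theorem good_box {real : Bool} {D x y : ℤ} (hD : 0 < D) (ho : real = false → Odd D)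
    (h1 : 0 ≤ y) (h2 : 2 * y ≤ D) :
    Good real D x y ∨ ∃ a b, 2 * (x - D * a) = D ∧ 2 * (y - D * b) = D := by
  obtain ⟨a, h3, h4⟩ : ∃ a, -D ≤ 2 * (x - D * a + 4 * y) ∧ 2 * (x - D * a + 4 * y) ≤ D := by
    refine ⟨(2 * (x + 4 * y) + D) / (2 * D), ?_⟩
    have e1 := Int.emod_add_mul_ediv (2 * (x + 4 * y) + D) (2 * D)
    have e2 := Int.emod_nonneg (2 * (x + 4 * y) + D) (by omega : 2 * D ≠ 0)
    have e3 := Int.emod_lt_of_pos (2 * (x + 4 * y) + D) (by omega : 0 < 2 * D)
    constructor <;> linarith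
  have g : Good real D (x - D * a) y → Good real D x y :=
    fun g => good_shift a 0 (by simpa using g)
  have hD' : (0 : ℝ) < D := by exact_mod_cast hD
  obtain ⟨s1, s2⟩ := r14_bounds
  have h1' : (0 : ℝ) ≤ y := by exact_mod_cast h1
  have h2' : 2 * (y : ℝ) ≤ D := by exact_mod_cast h2
  have d1 : (3.7416 : ℝ) * y ≤ √14 * y := by gcongr
  have d2 : √14 * y ≤ (3.7417 : ℝ) * y := by gcongr
  have key : ∀ t, chk real true t (-63000000000000000000) 50000000000000000000
      (-438000000000000000000) 50000000000000000000 0 0 0 0 = true →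
      Good real D x y ∨ ∃ a b, 2 * (x - D * a) = D ∧ 2 * (y - D * b) = D := by
    intro t ht
    generalize hp : x - D * a = p at *
    have h3' : -(D : ℝ) ≤ 2 * (p + 4 * y) := by exact_mod_cast h3
    have h4' : 2 * (p + 4 * y : ℝ) ≤ D := by exact_mod_cast h4
    rcases chk_sound real true (x := p) (y := y) hD ho t _ _ _ _ _ _ _ _ ht
      (by unfold S; push_cast; linarith) (by unfold S; push_cast; linarith)
      (by unfold S; push_cast; linarith) (by unfold S; push_cast; linarith) (by simp) (by simp)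
      with g1 | ⟨a', b, g1, _⟩
    · exact Or.inl (g g1)
    · rcases trap_all hD ho g1 with g2 | g2
      · exact Or.inl (g (good_shift _ _ g2))
      · exact Or.inr ⟨a + a', b, by linear_combination g2.1 + 2 * hp, g2.2⟩
  cases real with
  | true => exact key _ chk_real_main
  | false => exact key _ chk_adic_main

theorem good_all {real : Bool} {D : ℤ} (hD : 0 < D) (ho : real = false → Odd D) (x y : ℤ) :
    Good real D x y ∨ ∃ a b, 2 * (x - D * a) = D ∧ 2 * (y - D * b) = D := by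
  obtain ⟨b, h3, h4⟩ : ∃ b, -D ≤ 2 * (y - D * b) ∧ 2 * (y - D * b) ≤ D := by
    refine ⟨(2 * y + D) / (2 * D), ?_⟩
    have e1 := Int.emod_add_mul_ediv (2 * y + D) (2 * D)
    have e2 := Int.emod_nonneg (2 * y + D) (by omega : 2 * D ≠ 0)
    have e3 := Int.emod_lt_of_pos (2 * y + D) (by omega : 0 < 2 * D)
    constructor <;> linarith
  have g : Good real D x (y - D * b) → Good real D x y :=
    fun g => good_shift 0 b (by simpa using g)
  rcases le_total 0 (y - D * b) with h | h
  · rcases good_box (x := x) hD ho h h4 with g1 | ⟨a', b', g1, g2⟩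
    · exact Or.inl (g g1)
    · exact Or.inr ⟨a', b + b', g1, by linear_combination g2⟩
  · rcases good_box (x := -x) (y := -(y - D * b)) hD ho (by omega) (by omega)
      with g1 | ⟨a', b', g1, g2⟩
    · exact Or.inl (g (good_neg g1))
    · exact Or.inr ⟨-a' - 1, b - b' - 1, by linear_combination -g1, by linear_combination -g2⟩

theorem F_eq (c : ℝ) (z : ℤ√14) : F c z = |(z.norm : ℝ)| * (c / 2) ^ (padicValInt 2 z.norm) := by
  by_cases hz : z = 0 <;> simp [F, hz]

theorem F_mul (c : ℝ) (x y : ℤ√14) : F c (x * y) = F c x * F c y := by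
  by_cases hx : x = 0
  · simp [F, hx]
  by_cases hy : y = 0
  · simp [F, hy]
  rw [F_eq, F_eq, F_eq, Zsqrtd.norm_mul, padicValInt.mul (norm_ne_zero hx) (norm_ne_zero hy)]
  push_cast; rw [abs_mul]; ring

theorem F_pos {c : ℝ} (hc : 0 < c) {z : ℤ√14} (hz : z ≠ 0) : 0 < F c z := by
  rw [F_eq]
  have : (z.norm : ℝ) ≠ 0 := by exact_mod_cast norm_ne_zero hz
  positivity

theorem norm_sub_eq (D : ℤ) (z : ℤ√14) (a b : ℤ) :
    (z - (D : ℤ√14) * ⟨a, b⟩).norm = Nf (z.re - D * a) (z.im - D * b) := by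
  simp [Zsqrtd.norm_def, Nf]

theorem div_int {c : ℝ} (h1 : √5 < c) (h2 : c ≤ 56 / 25) (n : ℕ) :
    ∀ D : ℤ, 0 < D → D < n → ∀ z : ℤ√14, ∃ q, F c (z - D * q) < F c D := by
  have c5 : 5 < c ^ 2 := by
    have := (Real.sqrt_lt' (lt_of_le_of_lt (Real.sqrt_nonneg _) h1)).1 h1
    exact this
  have c0 : 0 < c := lt_of_le_of_lt (Real.sqrt_nonneg _) h1
  have c2 : 1 ≤ c / 2 := by nlinarith
  induction n with
  | zero => intro D h1 h2; omega
  | succ n ih =>
  intro D hD hn z
  have hD' : (0 : ℝ) < D := by exact_mod_cast hD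
  have FD : F c D = D ^ 2 * (c / 2) ^ (padicValInt 2 (D * D)) := by
    rw [F_eq, Zsqrtd.norm_intCast]; push_cast; rw [abs_mul_self, sq]
  rcases Int.even_or_odd D with ⟨E, hE⟩ | ho
  · have hE0 : 0 < E := by omega
    have hE' : ((E : ℤ) : ℤ√14) ≠ 0 := by exact_mod_cast hE0.ne'
    have F2 : F c 2 = c ^ 2 := by
      rw [F_eq, show (2 : ℤ√14).norm = 2 * 2 from rfl, padicValInt.mul (by norm_num) (by norm_num),
        show padicValInt 2 2 = 1 from padicValInt.self (by norm_num)]
      norm_num; ring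
    have eD : (D : ℤ√14) = 2 * E := by rw [hE]; push_cast; ring
    by_cases hz : (2 : ℤ) ∣ z.re ∧ (2 : ℤ) ∣ z.im
    · obtain ⟨⟨s, hs⟩, ⟨t, ht⟩⟩ := hz
      obtain ⟨q, hq⟩ := ih E hE0 (by omega) ⟨s, t⟩
      have e : z = 2 * ⟨s, t⟩ := by ext <;> simp [hs, ht]
      refine ⟨q, ?_⟩
      rw [e, eD, mul_assoc, ← mul_sub, F_mul, F_mul, F2]
      gcongr
    rcases good_all (real := true) hD (by simp) z.re z.im with ⟨a, b, V, _, g⟩ | ⟨a, b, g1, g2⟩
    · refine ⟨⟨a, b⟩, ?_⟩
      have n4 : ¬ (2 : ℤ) ^ (2 * 1) ∣ Nf (z.re - D * a) (z.im - D * b) := by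
        intro h
        obtain ⟨⟨s, hs⟩, ⟨t, ht⟩⟩ := val_even 1 _ _ h
        exact hz ⟨⟨s + E * a, by rw [hE] at hs; linarith⟩, ⟨t + E * b, by rw [hE] at ht; linarith⟩⟩
      rw [F_eq, FD, norm_sub_eq]
      generalize Nf (z.re - D * a) (z.im - D * b) = N at *
      have v1 : padicValInt 2 N ≤ 1 := by
        by_contra h
        exact n4 (by exact_mod_cast (padicValInt_dvd_iff (p := 2) 2 N).2 (Or.inr (by omega)))
      have v2 : 1 ≤ padicValInt 2 (D * D) := by
        have := (padicValInt_dvd_iff (p := 2) 1 (D * D)).1 ⟨E * D, by rw [hE]; push_cast; ring⟩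
        have : D * D ≠ 0 := by positivity
        tauto
      have g1 : |N| < D ^ 2 := by
        have : (25 : ℤ) ^ V ≤ 28 ^ V := by gcongr; norm_num
        have : |N| * 25 ^ V < D ^ 2 * 25 ^ V := lt_of_le_of_lt (by gcongr) g
        exact lt_of_mul_lt_mul_right this (by positivity)
      have g2 : |(N : ℝ)| < D ^ 2 := by exact_mod_cast g1
      exact mul_lt_mul g2 (pow_le_pow_right₀ c2 (v1.trans v2)) (by positivity) (by positivity)
    · refine ⟨⟨a - 1, b⟩, ?_⟩
      have e : z - D * ⟨a - 1, b⟩ = ⟨3, 1⟩ * E := by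
        ext <;> simp <;> linarith
      have F5 : F c ⟨3, 1⟩ = 5 := by
        rw [F_eq, show (⟨3, 1⟩ : ℤ√14).norm = -5 from rfl,
          padicValInt.eq_zero_of_not_dvd (by norm_num)]
        norm_num
      rw [e, eD, F_mul, F_mul, F2, F5]
      exact mul_lt_mul_of_pos_right c5 (F_pos c0 hE')
  · rcases good_all (real := false) hD (fun _ => ho) z.re z.im with ⟨a, b, V, g0, g⟩ | ⟨a, b, g1, _⟩
    · refine ⟨⟨a, b⟩, ?_⟩
      rw [F_eq, FD, norm_sub_eq]
      generalize Nf (z.re - D * a) (z.im - D * b) = N at *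
      have l1 : (D : ℝ) ^ 2 ≤ D ^ 2 * (c / 2) ^ (padicValInt 2 (D * D)) :=
        le_mul_of_one_le_right (by positivity) (one_le_pow₀ c2)
      refine lt_of_lt_of_le ?_ l1
      rcases g0 with g0 | rfl | g0
      · simp at g0
      · simp; positivity
      have v1 : padicValInt 2 N ≤ V := by
        by_contra h
        exact g0 (by exact_mod_cast (padicValInt_dvd_iff (p := 2) (V + 1) N).2 (Or.inr (by omega)))
      have g2 : |(N : ℝ)| * 28 ^ V < D ^ 2 * 25 ^ V := by exact_mod_cast g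
      have g3 : (c / 2) ^ padicValInt 2 N ≤ (28 / 25) ^ V :=
        (pow_le_pow_right₀ c2 v1).trans (pow_le_pow_left₀ (by positivity) (by linarith) _)
      calc _ ≤ |(N : ℝ)| * (28 / 25) ^ V := by gcongr
        _ < _ := by rw [div_pow, ← mul_div_assoc, div_lt_iff₀ (by positivity)]; exact g2
    · obtain ⟨m, rfl⟩ := ho; omega

theorem eucl_of_mem {c : ℝ} (h1 : √5 < c) (h2 : c ≤ 56 / 25) : IsEuclideanFunction (F c) := by
  have c0 : 0 < c := lt_of_le_of_lt (Real.sqrt_nonneg _) h1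
  have c5 : 5 < c ^ 2 := (Real.sqrt_lt' c0).1 h1
  have c2 : 1 ≤ c / 2 := by nlinarith
  refine ⟨fun r => by rw [F_eq]; positivity, fun t _ => ?_, fun r => ?_, fun a b hb => ?_⟩
  · refine ((Set.finite_Icc (-⌈t⌉) ⌈t⌉).image
      (fun n : ℤ => |(n : ℝ)| * (c / 2) ^ (padicValInt 2 n))).subset ?_
    rintro x ⟨⟨z, rfl⟩, _, h4⟩
    refine ⟨z.norm, ?_, (F_eq c z).symm⟩
    rw [F_eq] at h4
    have := ((le_mul_of_one_le_right (abs_nonneg _) (one_le_pow₀ c2)).trans h4).trans
      (Int.le_ceil t)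
    exact abs_le.1 (by exact_mod_cast this)
  · refine ⟨fun h => ?_, fun h => by simp [F, h]⟩
    by_contra h0
    exact (F_pos c0 h0).ne' h
  · have hn := norm_ne_zero hb
    have hs : star b ≠ 0 := by simpa using hb
    have e0 : ((b.norm : ℤ) : ℤ√14) = b * star b := Zsqrtd.norm_eq_mul_conj b
    rcases lt_or_gt_of_ne hn with h | h
    · obtain ⟨q, hq⟩ := div_int h1 h2 ((-b.norm).toNat + 1) (-b.norm) (by omega) (by omega)
        (a * star b)
      refine ⟨-q, ?_⟩
      have e1 : a * star b - ((-b.norm : ℤ) : ℤ√14) * q = (a - b * -q) * star b := by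
        push_cast; rw [e0]; ring
      have e2 : F c ((-b.norm : ℤ) : ℤ√14) = F c b * F c (star b) := by
        rw [← F_mul, ← e0]; exact F_congr _ (by simp [Zsqrtd.norm_def]; ring)
      rw [e1, e2, F_mul] at hq
      exact lt_of_mul_lt_mul_right hq (F_pos c0 hs).le
    · obtain ⟨q, hq⟩ := div_int h1 h2 (b.norm.toNat + 1) b.norm h (by omega) (a * star b)
      refine ⟨q, ?_⟩
      have e1 : a * star b - ((b.norm : ℤ) : ℤ√14) * q = (a - b * q) * star b := by
        rw [e0]; ring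
      rw [e1, e0, F_mul, F_mul] at hq
      exact lt_of_mul_lt_mul_right hq (F_pos c0 hs).le

end Pool.Agent.H400Z.Win
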