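import Mathlib
import Pool.Agent.H400Z.Win.Homo

set_option autoImplicit false

namespace Pool.Agent.H400Z.Win2

open NumberField Pool.Agent.H400Z.Win

theorem rank_ge {K : Type} [Field K] [NumberField K] (hK : Module.finrank ℚ K = 2) {T : K}
    (hT : T ^ 2 = 2) : 1 ≤ Units.rank K := by
  have hreal : IsTotallyReal K := by
    refine ⟨fun w => InfinitePlace.isReal_iff.2 (ComplexEmbedding.isReal_iff.2 ?_)⟩
    generalize w.embedding = φ
    let bs : Module.Basis (Fin 2) ℚ K :=
      basisOfLinearIndependentOfCardEqFinrank (li_theta hT) (by simp [hK])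
    have b0 : bs 0 = 1 := by simp [bs]
    have b1 : bs 1 = T := by simp [bs]
    have h2 : φ T ^ 2 = 2 := by rw [← map_pow, hT, map_ofNat]
    have h3 : (φ T).im = 0 := by
      have e1 := congrArg Complex.re h2
      have e2 := congrArg Complex.im h2
      simp [sq] at e1 e2
      by_contra h
      have : (φ T).re = 0 := by
        have : (φ T).re * (φ T).im = 0 := by linarith
        exact (mul_eq_zero.1 this).resolve_right h
      rw [this] at e1
      nlinarith [mul_self_nonneg (φ T).im]
    ext x
    rw [← bs.sum_repr x, Fin.sum_univ_two, b0, b1]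
    simp only [Algebra.smul_def, ComplexEmbedding.conjugate_coe_eq, map_add, map_mul, eq_ratCast,
      map_ratCast, map_one, Complex.conj_eq_iff_im.2 h3]
  have h1 := InfinitePlace.card_add_two_mul_card_eq_rank K
  have h2 := InfinitePlace.card_eq_nrRealPlaces_add_nrComplexPlaces K
  have h3 := nrComplexPlaces_eq_zero_iff.2 hreal
  unfold Units.rank
  omega

theorem window_isLeast {K : Type} [Field K] [NumberField K] (hK : Module.finrank ℚ K = 2)
    {θ : 𝓞 K} (hθ : θ ^ 2 = 2) : IsLeast (window (Ideal.span {θ})) 2 := by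
  refine ⟨(mem_window_iff hK hθ 2).2 ⟨by norm_num, eucl_two⟩, fun c hc => ?_⟩
  rw [mem_window_iff hK hθ] at hc
  by_contra h
  exact not_eucl hc.1 (not_le.1 h) hc.2

theorem not_open_of_isLeast {s : Set ℝ} (h : IsLeast s 2) :
    ¬ IsOpen (Subtype.val ⁻¹' s : Set (Set.Ioi (1 : ℝ))) := by
  intro ho
  rw [Metric.isOpen_iff] at ho
  obtain ⟨e, he, hb⟩ := ho ⟨2, by norm_num⟩ h.1
  have h1 : (1 : ℝ) < 2 - min e 1 / 2 := by have := min_le_right e 1; linarith
  have h0 : 0 < min e 1 := lt_min he one_pos
  have h2 : (2 - min e 1 / 2) ∈ s := by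
    refine hb (a := ⟨2 - min e 1 / 2, h1⟩) ?_
    rw [Metric.mem_ball, Subtype.dist_eq, Real.dist_eq, abs_lt]
    have := min_le_left e 1
    constructor <;> simp only <;> linarith
  have := h.2 h2
  linarith

end Pool.Agent.H400Z.Win2
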